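import Pool.Agent.Lib.MP_4960b8_pr.SAW.Bridge

-- part Pool.Agent.Lib.MP_4960b8_pr.SAW.Decay
section

/-!
Polynomial decay of the escape mass of triangles.
-/

namespace Pool.Agent.Lib.MP_4960b8_pr.SAW

noncomputable def SS (n : ℕ) : ℝ := ∑ t ∈ Finset.range n, bb t

lemma SS_ge (n : ℕ) : n * vv n ≤ SS n := by
  have : ∑ t ∈ Finset.range n, vv n ≤ SS n := Finset.sum_le_sum fun t ht =>
    (vv_anti (Finset.mem_range.1 ht).le).trans (vv_le_bb t)
  simpa using this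

lemma SS_le (n : ℕ) : SS n ≤ n := by
  have : SS n ≤ ∑ t ∈ Finset.range n, (1 : ℝ) := Finset.sum_le_sum fun t _ => bb_le_one t
  simpa using this

lemma SS_pos {n : ℕ} (h : 0 < n) : 0 < SS n :=
  lt_of_lt_of_le (mul_pos (by exact_mod_cast h) (vv_pos n)) (SS_ge n)

lemma SS_add (n m : ℕ) : SS (n + m) ≤ SS n + SS m := by
  unfold SS
  rw [Finset.sum_range_add]
  have : ∑ t ∈ Finset.range m, bb (n + t) ≤ ∑ t ∈ Finset.range m, bb t :=
    Finset.sum_le_sum fun t _ => bb_anti (by omega)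
  linarith

lemma SS_mul (k n : ℕ) : SS (k * n) ≤ k * SS n := by
  induction k with
  | zero => simp [SS]
  | succ k ih =>
    have := SS_add (k * n) n
    rw [Nat.succ_mul]
    push_cast
    linarith

lemma SS_step {n : ℕ} (h : 0 < n) (k : ℕ) : SS (3 * n + k) ≤ 3 * SS n + k * vv n := by
  have h1 := SS_mul 3 n
  have : ∑ t ∈ Finset.range k, bb (3 * n + t) ≤ ∑ t ∈ Finset.range k, vv n :=
    Finset.sum_le_sum fun t _ => bb_le_vv (by omega)
  unfold SS at *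
  rw [Finset.sum_range_add]
  simp only [Finset.sum_const, Finset.card_range, nsmul_eq_mul] at this
  push_cast at h1
  linarith

def lev (u : V) : ℤ := -u.i

/-- frame attached to the last edge of a right exit -/
def fr (a : List V) : V → V := gD (lv q0 a).i ((lv q0 a).j + 1) ((lv q0 a).k + 1)

def UU (n₁ n : ℕ) : Set (List V) := {l | ∃ s : ℕ, n₁ ≤ s ∧ s < n₁ + n ∧ l ∈ RE s}

lemma UU_fin (n₁ n : ℕ) : (UU n₁ n).Finite := by
  refine Set.Finite.subset (Set.Finite.biUnion (Finset.range (n₁ + n)).finite_toSet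
    fun s _ => RE_fin (s : ℕ)) ?_
  rintro l ⟨s, -, h2, h3⟩
  exact Set.mem_biUnion (Finset.mem_coe.2 (Finset.mem_range.2 h2)) h3

lemma UU_ge {n₁ n : ℕ} {P : List V → Prop} {K : ℝ}
    (h : ∀ s : ℕ, n₁ ≤ s → s < n₁ + n → K ≤ mu {l | l ∈ RE s ∧ P l}) :
    n * K ≤ mu {l | l ∈ UU n₁ n ∧ P l} := by
  refine le_trans ?_ (sum_le_ms (Finset.range n) (fun t => {l | l ∈ RE ((n₁ + t : ℕ) : ℤ) ∧ P l})
    ((UU_fin n₁ n).subset fun _ h => h.1) (fun t ht l hl => ⟨⟨n₁ + t, by omega, by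
      have := Finset.mem_range.1 ht; omega, hl.1⟩, hl.2⟩) (fun s _ t _ hne => ?_)
    fun l _ => (wt_pos l).le)
  · have : ∑ t ∈ Finset.range n, K ≤
        ∑ t ∈ Finset.range n, mu {l | l ∈ RE ((n₁ + t : ℕ) : ℤ) ∧ P l} :=
      Finset.sum_le_sum fun t ht => h _ (by omega) (by have := Finset.mem_range.1 ht; omega)
    simpa [mu] using this
  · refine Set.disjoint_left.2 fun l h1 h2 => hne ?_
    have a1 := (RE_step (by omega) h1.1).2.1
    have a2 := (RE_step (by omega) h2.1).2.1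
    omega

lemma fr_sym {s : ℤ} (hs : 0 ≤ s) {a : List V} (ha : a ∈ RE s) :
    IsSym (fr a) ∧ fr a p0 = pv p0 q0 a ∧ fr a q0 = lv q0 a := by
  obtain ⟨-, h2, h3, h4⟩ := RE_step hs ha
  refine ⟨sym_D (by omega), ?_, ?_⟩
  · rw [h3, V.ext_iff]; dsimp only [fr, gD, p0]; omega
  · rw [V.ext_iff]; dsimp only [fr, gD, q0]; omega

lemma renew {n₁ n : ℕ} {A : Set (List V)} (hA : A ⊆ UU n₁ n) :
    mu A ≤ mu (First lev q0 A) * SS n := by
  have fA := (UU_fin n₁ n).subset hA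
  refine mu_le_first fA fun a ha => ?_
  obtain ⟨s, s1, s2, s3⟩ := hA ha
  obtain ⟨-, h2, h3, h4⟩ := RE_step (by omega) s3
  have fB : ∀ t : ℕ, {b | Fresh lev q0 a b ∧ a ++ b ∈ RE ((s + t : ℕ) : ℤ)}.Finite := fun t =>
    (finite_suffix (RE_fin _) a).subset fun _ h => h.2
  refine (mu_le_sum (Finset.range n) _ (fun t _ => fB t) fun b hb => ?_).trans
    (Finset.sum_le_sum fun t _ => ?_)
  · obtain ⟨r, r1, r2, r3⟩ := hA hb.2
    have a2 := (RE_step (by omega) r3).2.1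
    have : s ≤ r := by
      rw [lv_append] at a2
      by_cases e : b = []
      · rw [e, lv_nil] at a2; omega
      · have := hb.1 _ (lv_mem_of_ne (q := lv q0 a) e)
        unfold lev at this
        omega
    exact ⟨r - s, Finset.mem_range.2 (by omega), hb.1, by rwa [Nat.add_sub_cancel' this]⟩
  · refine brg_le_bb (sym_E (a := (lv q0 a).j + 1) (b := (lv q0 a).k + 1) (c := -s) (by omega))
      (p := pv p0 q0 a) (q := lv q0 a) ?_ ?_ t (fB t) fun b hb => ?_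
    · rw [h3, V.ext_iff]; dsimp only [gE, p0]; omega
    · show _ = (⟨1, 1, 0⟩ : V)
      rw [V.ext_iff]; dsimp only [gE]; omega
    · have a2 := (RE_step (by omega) hb.2).2.1
      have a3 := (saw_append.1 hb.2.1.1).2.1
      have a4 := ((Inn_append _ _ _ _).1 hb.2.1.2.1).2
      rw [lv_append] at a2
      refine ⟨a3, a4.imp a3 fun u hu _ hd => ?_, by dsimp only [gE]; omega⟩
      rw [mem_tri] at hd
      have : s ≤ -u.i := by
        rcases List.mem_cons.1 hu with e | hu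
        · rw [e]; omega
        · have := hb.1 u hu
          unfold lev at this
          omega
      simp only [Set.mem_ofPred_eq, gE]
      omega

lemma glue {s : ℤ} (hs : 0 ≤ s) {a c : List V} (ha : a ∈ RE s) (hc : Saw p0 q0 c)
    (hk : ∀ u ∈ c, 0 ≤ u.k) :
    Saw p0 q0 (a ++ c.map (fr a)) ∧ Fresh lev q0 a (c.map (fr a)) := by
  obtain ⟨g, e1, e2⟩ := fr_sym hs ha
  obtain ⟨-, h2, -, -⟩ := RE_step hs ha
  have hi : ∀ u ∈ c.map (fr a), u.i ≤ -s := by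
    intro u hu
    obtain ⟨w, hw, rfl⟩ := List.mem_map.1 hu
    have := hk w hw
    dsimp only [fr, gD]
    omega
  have s2 := hc.map g
  rw [e1, e2] at s2
  refine ⟨saw_append.2 ⟨ha.1.1, s2, fun u hu hm => ?_⟩, fun u hu => ?_⟩
  · have := hi u hm
    rcases Exit.cases ha.1 hu with e | e | e
    · rw [e] at this; dsimp only [p0] at this; omega
    · rw [mem_tri] at e; omega
    · rw [e] at hm
      exact (List.nodup_cons.1 (List.nodup_cons.1 s2.2).2).1 hm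
  · have := hi u hu
    unfold lev
    omega

lemma stage {n₁ n : ℕ} {A T : Set (List V)} (hA : A ⊆ UU n₁ n) (hT : T.Finite) {K : ℝ}
    (hK : 0 ≤ K) (h : ∀ s : ℕ, ∀ a ∈ A, n₁ ≤ s → s < n₁ + n → a ∈ RE s → ∃ C, K ≤ mu C ∧
      ∀ c ∈ C, Saw p0 q0 c ∧ (∀ u ∈ c, 0 ≤ u.k) ∧
        (Saw p0 q0 (a ++ c.map (fr a)) → a ++ c.map (fr a) ∈ T)) :
    mu A * K ≤ mu T * SS n := by
  have h1 := renew hA
  have fA := (UU_fin n₁ n).subset hA
  have h2 : mu (First lev q0 A) * K ≤ mu T := by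
    refine mu_concat_ge (fA.subset fun _ h => h.1) hT (fun a => {b | Fresh lev q0 a b ∧ a ++ b ∈ T})
      (fun a ha => ?_) (fun a _ b hb => hb.2)
      fun a ha b hb a' ha' b' hb' e => first_unique ha ha' hb.1 hb'.1 e
    obtain ⟨s, s1, s2, s3⟩ := hA ha.1
    obtain ⟨C, c1, c2⟩ := h s a ha.1 s1 s2 s3
    refine c1.trans (mu_le_map (fr_sym (by omega) s3).1
      ((finite_suffix hT a).subset fun _ h => h.2) fun c hc => ?_)
    obtain ⟨d1, d2, d3⟩ := c2 c hc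
    obtain ⟨g1, g2⟩ := glue (by omega) s3 d1 d2
    exact ⟨g2, d3 g1⟩
  have h3 : 0 ≤ SS n := Finset.sum_nonneg fun t _ => bb_nonneg t
  nlinarith [mul_le_mul_of_nonneg_right h1 hK, mul_le_mul_of_nonneg_right h2 h3]

lemma Exit.k_nonneg {D : Set V} {l : List V} (hl : l ∈ Exit D p0 q0) (hD : ∀ u ∈ D, 0 ≤ u.k)
    (h : 0 ≤ (lv q0 l).k) : ∀ u ∈ l, 0 ≤ u.k := by
  intro u hu
  rcases hl.2.1.mem (List.mem_cons_of_mem _ hu) with e | e
  · exact hD u e
  · rw [e]; exact h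

lemma glue_inn {s : ℤ} (hs : 0 ≤ s) {a c : List V} (ha : a ∈ RE s) {D E : Set V}
    (h1 : Inn D q0 a) (h2 : Inn E q0 c) (h : ∀ u ∈ E, fr a u ∈ D) :
    Inn D q0 (a ++ c.map (fr a)) ∧ lv q0 (a ++ c.map (fr a)) = fr a (lv q0 c) := by
  obtain ⟨-, -, e2⟩ := fr_sym hs ha
  rw [Inn_append, lv_append, ← e2, lv_map]
  exact ⟨⟨h1, h2.map h⟩, rfl⟩

def T2 (n : ℕ) (m : ℤ) : Set (List V) :=
  {c | c ∈ Exit (tri (23 * n) ∩ {u | u.j ≤ m}) p0 q0 ∧ (lv q0 c).j = m + 1 ∧ 0 ≤ (lv q0 c).k}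

lemma T2_fin (n : ℕ) (m : ℤ) : (T2 n m).Finite := ((good_tri _).inter (conv_j_le m)).finP _

lemma RE_om {n : ℤ} (hn : 0 ≤ n) {l : List V} (h : l ∈ RE n) : om p0 q0 l = c8 * wt l := by
  obtain ⟨-, h2, h3, -⟩ := RE_step hn h
  exact ((good_tri n).om_r h.1 (by rw [h3]; dsimp only; omega)).1

lemma T2_lower {n : ℕ} (hn : 0 < n) {m : ℤ} (m1 : 1 ≤ m) (m2 : m ≤ 4 * n) {w : ℝ} (w0 : 0 ≤ w)
    (hw : w ≤ vv (9 * n)) : n * w ^ 2 / 8 ≤ mu (T2 n m) * SS n := by
  have hR : ∀ t : ℕ, t ≤ 9 * n → w / 2 ≤ mu (RE t) := fun t ht => by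
    have := vv_le_RE t
    have := vv_anti ht
    linarith
  by_cases hc : w / 8 ≤ mu (T2 n m)
  · have h1 := SS_ge n
    have h2 := vv_anti (show n ≤ 9 * n by omega)
    have h3 : (0 : ℝ) ≤ n := Nat.cast_nonneg n
    have h4 : n * w ≤ SS n := le_trans (mul_le_mul_of_nonneg_left (hw.trans h2) h3) h1
    nlinarith [mul_le_mul hc h4 (by positivity) (mu_nonneg _)]
  rw [not_le] at hc
  have h1 : n * (w / 4) ≤ mu {l | l ∈ UU (4 * n) n ∧ Inn {u | u.j ≤ m} q0 l} := by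
    refine UU_ge fun t t1 t2 => ?_
    have g := good_tri t
    have g' := g.inter (conv_j_le m)
    have e1 := mu_split (RE_fin t) fun l => Inn {u | u.j ≤ m} q0 l
    have e2 := transfer g' g Set.inter_subset_left
    have e3 : ms (om p0 q0) {l | l ∈ RE t ∧ ¬ Inn {u | u.j ≤ m} q0 l} =
        c8 * mu {l | l ∈ RE t ∧ ¬ Inn {u | u.j ≤ m} q0 l} :=
      ms_eq_mul ((RE_fin t).subset fun _ h => h.1) fun l hl => RE_om (by omega) hl.1
    have e4 : ms (om p0 q0) {l | l ∈ RE t ∧ ¬ Inn {u | u.j ≤ m} q0 l} ≤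
        ms (om p0 q0) {l | l ∈ Exit (tri t) p0 q0 ∧ ¬ Inn (tri t ∩ {u | u.j ≤ m}) q0 l} :=
      ms_mono (g.finP _) (fun l hl => ⟨hl.1.1, fun e => hl.2 (Inn_inter.1 e).2⟩)
        fun l hl => g.om_nonneg hl.1
    have e5 : ms (om p0 q0) {l | l ∈ Exit (tri t ∩ {u | u.j ≤ m}) p0 q0 ∧ lv q0 l ∈ tri t} ≤
        mu (T2 n m) := by
      refine (ms_le_ms (g'.finP _) fun l _ => om_le _ _ _).trans (mu_mono (T2_fin n m) ?_)
      intro l hl
      have a1 : ¬ (lv q0 l).j ≤ m := fun e => hl.1.2.2 ⟨hl.2, e⟩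
      have a2 : (pv p0 q0 l).j ≤ m := (Exit.pv_mem hl.1 ⟨q0_mem (by omega), m1⟩).2
      have a3 := adj_iff.1 hl.1.1.adj_last
      exact ⟨⟨hl.1.1, hl.1.2.1.mono (Set.inter_subset_inter_left _ (tri_mono (by omega))),
        fun e => a1 e.2⟩, by omega, hl.2.2.1⟩
    have e6 := hR t (by omega)
    nlinarith [c8_ge, mu_nonneg {l | l ∈ RE t ∧ ¬ Inn {u | u.j ≤ m} q0 l}]
  have h2 : mu {l | l ∈ UU (4 * n) n ∧ Inn {u | u.j ≤ m} q0 l} * (w / 2) ≤ mu (T2 n m) * SS n := by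
    refine stage (fun _ h => h.1) (T2_fin n m) (by positivity) fun t a ha t1 t2 t3 => ?_
    obtain ⟨b1, b2, b3, b4⟩ := RE_step (by omega) t3
    have b5 : (pv p0 q0 a).j ≤ m := ha.2.pv_mem (by
      rintro rfl
      simp only [lv_nil, q0] at b2
      omega)
    rw [b3, mem_tri] at b1
    rw [b3] at b5
    dsimp only at b1 b5
    obtain ⟨r, hr⟩ : ∃ r : ℕ, (r : ℤ) = m - (lv q0 a).j := ⟨(m - (lv q0 a).j).toNat, by omega⟩
    refine ⟨RE r, hR r (by omega), fun c hc => ?_⟩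
    obtain ⟨c1, c2, c3, c4⟩ := RE_step (by omega) hc
    rw [c3, mem_tri] at c1
    dsimp only at c1
    refine ⟨hc.1.1, Exit.k_nonneg hc.1 (fun u hu => hu.2.1) (by omega), fun hs => ?_⟩
    obtain ⟨d1, d2⟩ := glue_inn (D := tri (23 * n) ∩ {u | u.j ≤ m}) (by omega) t3
      (Inn_inter.2 ⟨t3.1.2.1.mono (tri_mono (by omega)), ha.2⟩) hc.1.2.1 fun u hu => by
        rw [mem_tri] at hu
        refine ⟨?_, ?_⟩
        · rw [mem_tri]; dsimp only [fr, gD]; omega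
        · show (fr a u).j ≤ m
          dsimp only [fr, gD]; omega
    have d3 : (fr a (lv q0 c)).j = m + 1 := by dsimp only [fr, gD]; omega
    refine ⟨⟨hs, d1, fun e => ?_⟩, by rw [d2, d3], by rw [d2]; dsimp only [fr, gD]; omega⟩
    have : (lv q0 (a ++ c.map (fr a))).j ≤ m := e.2
    rw [d2] at this
    omega
  nlinarith [mul_le_mul_of_nonneg_right h1 (by positivity : 0 ≤ w / 2)]

theorem decay_step {n : ℕ} (hn : 0 < n) :
    (n : ℝ) ^ 2 * vv (50 * n) ^ 3 ≤ 48 * SS n ^ 2 * (vv n - vv (50 * n)) := by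
  set w := vv (50 * n) with hw
  have w0 : 0 ≤ w := vv_nonneg _
  have S0 := SS_pos hn
  have e := esc_sub (good_tri n) (good_tri ((50 * n : ℕ) : ℤ)) (tri_mono (by omega))
  set T := {l | l ∈ Bot (tri ((50 * n : ℕ) : ℤ)) p0 q0 ∧ ¬ Inn (tri n) q0 l} with hT
  have h1 : n * (w / 2) ≤ mu {l | l ∈ UU n n ∧ True} := by
    refine UU_ge fun t t1 t2 => ?_
    have := vv_le_RE t
    have := vv_anti (show t ≤ 50 * n by omega)
    simp only [and_true, Set.ofPred_mem_eq]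
    linarith
  have h2 : mu {l | l ∈ UU n n ∧ True} * (n * w ^ 2 / 8 / SS n) ≤ mu T * SS n := by
    refine stage (fun _ h => h.1) ((good_tri _).finB.subset fun _ h => h.1) (by positivity)
      fun s a ha s1 s2 s3 => ?_
    obtain ⟨b1, b2, b3, b4⟩ := RE_step (by omega) s3
    rw [b3, mem_tri] at b1
    dsimp only at b1
    refine ⟨T2 n ((lv q0 a).k + 1), (div_le_iff₀ S0).2 (T2_lower hn (by omega) (by omega) w0
      (vv_anti (by omega))), fun c hc => ⟨hc.1.1,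
        Exit.k_nonneg hc.1 (fun u hu => hu.1.2.1) hc.2.2, fun hs => ?_⟩⟩
    obtain ⟨d1, d2⟩ := glue_inn (D := tri ((50 * n : ℕ) : ℤ)) (by omega) s3
      (s3.1.2.1.mono (tri_mono (by omega))) hc.1.2.1 fun u hu => by
        have u1 := hu.1
        have u2 : u.j ≤ (lv q0 a).k + 1 := hu.2
        rw [mem_tri] at *
        dsimp only [fr, gD]; omega
    have c1 := hc.2.1
    have d3 : (fr a (lv q0 c)).k = -1 := by dsimp only [fr, gD]; omega
    refine ⟨⟨⟨hs, d1, fun e => ?_⟩, by rw [d2, d3]; simp [q0]⟩, fun e => ?_⟩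
    · have := e.2.1
      rw [d2] at this
      omega
    · have := ((Inn_append _ _ _ _).1 e).2.head (by
        intro e'
        rw [List.map_eq_nil_iff.1 e'] at c1
        have : (lv q0 []).j = 1 := rfl
        omega)
      rw [mem_tri] at this
      omega
  have h3 := mul_le_mul_of_nonneg_right h1 (by positivity : 0 ≤ n * w ^ 2 / 8 / SS n)
  have h4 : n * (w / 2) * (n * w ^ 2 / 8 / SS n) * SS n ≤ mu T * SS n * SS n :=
    mul_le_mul_of_nonneg_right (h3.trans h2) S0.le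
  have h5 : n * (w / 2) * (n * w ^ 2 / 8 / SS n) * SS n = n ^ 2 * w ^ 3 / 16 := by
    field_simp; ring
  have h6 : mu T ≤ 3 * (vv n - w) := by
    unfold vv at *
    nlinarith [s8_ge, mu_nonneg T]
  nlinarith [mul_le_mul_of_nonneg_right h6 (mul_pos S0 S0).le]

theorem decay_geom : ∃ ρ : ℝ, 0 < ρ ∧ ρ < 1 ∧ ∀ j : ℕ, vv (50 ^ (2 * j)) ^ 2 ≤ ρ ^ j := by
  have key : ∀ n : ℕ, 0 < n → vv (50 * (50 * n)) * (SS (50 * (50 * n)) / (50 * (50 * n) : ℕ)) ≤
      192 / 193 * (vv n * (SS n / n)) := by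
    intro n hn
    have n0 : (0 : ℝ) < n := by exact_mod_cast hn
    have h := decay_step hn
    have a1 := vv_anti (show n ≤ 50 * n by omega)
    have a2 := vv_anti (show 50 * n ≤ 50 * (50 * n) by omega)
    have a3 := vv_pos (50 * (50 * n))
    have b1 := SS_mul 50 n
    have b2 := SS_mul 50 (50 * n)
    have b3 := SS_step (show 0 < 50 * n by omega) (47 * (50 * n))
    rw [show 3 * (50 * n) + 47 * (50 * n) = 50 * (50 * n) by ring] at b3
    have s0 := SS_pos hn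
    have s2 := SS_pos (show 0 < 50 * (50 * n) by omega)
    push_cast at *
    set σ := SS n / n with hσ
    have e : SS n = σ * n := by rw [hσ]; field_simp
    have σ0 : 0 < σ := by positivity
    rw [e] at h b1
    by_cases hc : σ / 2 ≤ vv (50 * n)
    · have c1 : SS (50 * (50 * n)) / (50 * (50 * n)) ≤ σ := by
        rw [div_le_iff₀ (by positivity)]; nlinarith
      have c2 : 193 * vv (50 * n) ≤ 192 * vv n := by
        have d1 : vv (50 * n) ^ 3 ≤ 48 * σ ^ 2 * (vv n - vv (50 * n)) := by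
          have : (n : ℝ) ^ 2 * vv (50 * n) ^ 3 ≤ n ^ 2 * (48 * σ ^ 2 * (vv n - vv (50 * n))) := by
            nlinarith
          exact le_of_mul_le_mul_left this (by positivity)
        have d2 : σ ^ 2 / 4 * vv (50 * n) ≤ vv (50 * n) ^ 3 := by
          have : σ ^ 2 / 4 ≤ vv (50 * n) ^ 2 := by nlinarith
          nlinarith
        have d3 : σ ^ 2 * (193 * vv (50 * n)) ≤ σ ^ 2 * (192 * vv n) := by nlinarith
        exact le_of_mul_le_mul_left d3 (by positivity)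
      have := mul_le_mul (show vv (50 * (50 * n)) ≤ 192 / 193 * vv n by linarith) c1
        (by positivity) (by nlinarith)
      linarith
    · rw [not_le] at hc
      have c1 : SS (50 * (50 * n)) / (50 * (50 * n)) ≤ 192 / 193 * σ := by
        rw [div_le_iff₀ (by positivity)]; nlinarith
      have := mul_le_mul (a2.trans a1) c1 (by positivity) (by linarith)
      linarith
  refine ⟨192 / 193, by norm_num, by norm_num, fun j => ?_⟩
  have h : vv (50 ^ (2 * j)) * (SS (50 ^ (2 * j)) / (50 ^ (2 * j) : ℕ)) ≤ (192 / 193) ^ j := by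
    induction j with
    | zero =>
      have := SS_le 1
      have := vv_le_one 1
      have := vv_pos 1
      simp only [mul_zero, pow_zero, Nat.cast_one, div_one] at *
      nlinarith
    | succ j ih =>
      have := key (50 ^ (2 * j)) (by positivity)
      rw [show 50 * (50 * 50 ^ (2 * j)) = 50 ^ (2 * (j + 1)) by ring] at this
      rw [pow_succ (192 / 193 : ℝ)]
      linarith
  have h2 : vv (50 ^ (2 * j)) ≤ SS (50 ^ (2 * j)) / (50 ^ (2 * j) : ℕ) := by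
    rw [le_div_iff₀ (by positivity), mul_comm]; exact SS_ge _
  nlinarith [vv_pos (50 ^ (2 * j))]

theorem decay_any {θ : ℝ} (hθ : 0 < θ) : ∃ Λ₀ : ℕ, ∀ Λ : ℕ, Λ₀ ≤ Λ → ∀ j : ℕ, vv (Λ ^ j) ≤ θ ^ j := by
  obtain ⟨ρ, r0, r1, h⟩ := decay_geom
  obtain ⟨m, hm⟩ := exists_pow_lt_of_lt_one (pow_pos hθ 2) r1
  refine ⟨50 ^ (2 * m), fun Λ hΛ j => ?_⟩
  have h1 : vv (Λ ^ j) ≤ vv (50 ^ (2 * (m * j))) := vv_anti (by
    rw [← mul_assoc, pow_mul]; exact Nat.pow_le_pow_left hΛ j)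
  have h2 := h (m * j)
  have h3 : ρ ^ (m * j) ≤ (θ ^ j) ^ 2 := by
    rw [pow_mul, ← pow_mul θ, mul_comm j, pow_mul θ]
    exact pow_le_pow_left₀ (by positivity) hm.le j
  exact h1.trans ((pow_le_pow_iff_left₀ (vv_nonneg _) (by positivity) two_ne_zero).1 (h2.trans h3))

end Pool.Agent.Lib.MP_4960b8_pr.SAW
end

-- part Pool.Agent.Lib.MP_4960b8_pr.SAW.Arcs
section

/-!
Arcs from the bottom row to itself: thin arcs, arcs crossing a slanted line.
-/

namespace Pool.Agent.Lib.MP_4960b8_pr.SAW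

lemma transfer_gen {f : List V → ℝ} {D D' : Set V} {p q : V} (h : Good D p q) (h' : Good D' p q)
    (hs : D ⊆ D') (e : ms f (Exit D p q) = ms f (Exit D' p q)) :
    ms f {l | l ∈ Exit D p q ∧ lv q l ∈ D'} = ms f {l | l ∈ Exit D' p q ∧ ¬ Inn D q l} := by
  have e1 := ms_split (f := f) h.finE fun l => lv q l ∈ D'
  have e2 := ms_split (f := f) h'.finE fun l => Inn D q l
  have : {l | l ∈ Exit D p q ∧ ¬ lv q l ∈ D'} = {l | l ∈ Exit D' p q ∧ Inn D q l} := by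
    ext l
    exact ⟨fun a => ⟨⟨a.1.1, a.1.2.1.mono hs, a.2⟩, a.1.2.1⟩,
      fun a => ⟨⟨a.1.1, a.2, fun b => a.1.2.2 (hs b)⟩, a.1.2.2⟩⟩
  rw [this] at e1
  linarith

lemma ms_add {f g : List V → ℝ} {S : Set (List V)} (hS : S.Finite) :
    ms (fun l => f l + g l) S = ms f S + ms g S := by
  rw [ms_eq_sum hS, ms_eq_sum hS, ms_eq_sum hS, Finset.sum_add_distrib]

lemma bot0 {D : Set V} (g : Good D p0 q0) {l : List V} (hl : l ∈ Bot D p0 q0) :
    l ≠ [] ∧ pv p0 q0 l ∈ D ∧ (lv q0 l).k = -1 ∧ (lv q0 l).i + (lv q0 l).j = 2 ∧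
      pv p0 q0 l = ⟨(lv q0 l).i, (lv q0 l).j, 0⟩ ∧ (lv q0 l).i ≠ 1 := g.bot hl.1 hl.2

lemma rev_map {g : V → V} (hg : IsSym g) {l : List V} (hs : Saw p0 q0 l) (e1 : g (lv q0 l) = p0)
    (e2 : g (pv p0 q0 l) = q0) :
    Saw p0 q0 ((rev p0 q0 l).map g) ∧ lv q0 ((rev p0 q0 l).map g) = g p0 ∧
      pv p0 q0 ((rev p0 q0 l).map g) = g q0 ∧
      (∀ D D' : Set V, (∀ u ∈ D, g u ∈ D') → Inn D q0 l → Inn D' q0 ((rev p0 q0 l).map g)) ∧
      ∀ D D' : Set V, (∀ u, g u ∈ D' → u ∈ D) → Inn D' q0 ((rev p0 q0 l).map g) → Inn D q0 l := by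
  have s1 := hs.rev.map hg
  have s3 := lv_map g (pv p0 q0 l) (rev p0 q0 l)
  have s4 := pv_map g (lv q0 l) (pv p0 q0 l) (rev p0 q0 l)
  rw [lv_rev, e2] at s3
  rw [pv_rev, e1, e2] at s4
  rw [e1, e2] at s1
  refine ⟨s1, s3, s4, fun D D' h a => ?_, fun D D' h a => ?_⟩
  · have := (a.rev (p := p0)).map h
    rwa [e2] at this
  · have a' : Inn D' (g (pv p0 q0 l)) ((rev p0 q0 l).map g) := by rw [e2]; exact a
    exact Inn.of_rev (a'.of_map h)

lemma wedge_top {D : Set V} (g : Good D p0 q0) (T : ℕ) :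
    c8 * mu {l | l ∈ Exit D p0 q0 ∧ (lv q0 l).i = (pv p0 q0 l).i - 1 ∧ T ≤ (lv q0 l).k} ≤ bb T := by
  have g0 := g.inter (conv_k (· < (T : ℤ)))
  have e := transfer g0 g Set.inter_subset_left
  have e1 : ms (om p0 q0) {l | l ∈ Exit D p0 q0 ∧ (lv q0 l).i = (pv p0 q0 l).i - 1 ∧
      T ≤ (lv q0 l).k} = c8 * mu _ := ms_eq_mul (g.finP _) fun l hl => (g.om_r hl.1 hl.2.1).1
  rw [← e1]
  refine le_trans (ms_mono (g.finP fun l => ¬ Inn (D ∩ {u | u.k < T}) q0 l)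
    (fun l hl => ⟨hl.1, fun hi => ?_⟩) fun l hl => g.om_nonneg hl.1) ?_
  · have a1 := hl.2.1
    have a2 := hl.2.2
    have a3 := adj_iff.1 hl.1.1.adj_last
    have a4 : (pv p0 q0 l).k < T := (hi.pv_mem (p := p0) (by
      rintro rfl
      simp [p0, q0] at a1)).2
    omega
  · rw [← e]
    refine (ms_le_ms (g0.finP _) fun l _ => om_le _ _ _).trans
      (brg_le_bb (g := gT 0 0 0) (sym_T rfl) (by simp [gT]) (by simp [gT]) T (g0.finP _)
        fun l hl => ⟨hl.1.1, hl.1.2.1.mono fun u hu => ?_, ?_⟩)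
    · have u1 := g.ab u hu.1
      have u2 : u.k < T := hu.2
      have : q0.k = 0 := rfl
      simp only [Set.mem_ofPred_eq, gT]
      omega
    · have a1 : ¬ (lv q0 l).k < T := fun h => hl.1.2.2 ⟨hl.2, h⟩
      have a3 := adj_iff.1 hl.1.1.adj_last
      have : (lv q0 l).k ≤ T := by
        by_cases e : l = []
        · rw [e]; show (0 : ℤ) ≤ T; omega
        · have : (pv p0 q0 l).k < T := (hl.1.2.1.pv_mem (p := p0) e).2
          omega
      dsimp only [gT]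
      omega

/-- arcs ending far to the right that stay below height `h` -/
def Thin (N : ℤ) (y h : ℤ) : Set (List V) :=
  {l | l ∈ Bot (tri N) p0 q0 ∧ (lv q0 l).i ≤ 1 - y ∧ Inn {u | u.k < h} q0 l}

lemma slant_step {D : Set V} {y : ℤ} (hy : 0 ≤ y) {l : List V}
    (hl : l ∈ Exit (D ∩ {u | 1 - y ≤ u.i}) p0 q0) (h : lv q0 l ∈ D) :
    l ≠ [] ∧ (lv q0 l).i = -y ∧ pv p0 q0 l = ⟨1 - y, (lv q0 l).j, (lv q0 l).k⟩ ∧
      (lv q0 l).j + (lv q0 l).k = 1 + y := by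
  have a1 : ¬ 1 - y ≤ (lv q0 l).i := fun e => hl.2.2 ⟨h, e⟩
  have a0 : l ≠ [] := by
    rintro rfl
    have : (lv q0 []).i = 1 := rfl
    omega
  have a2 : 1 - y ≤ (pv p0 q0 l).i := (hl.2.1.pv_mem (p := p0) a0).2
  have a3 := adj_iff.1 hl.1.adj_last
  refine ⟨a0, by omega, ?_, by omega⟩
  rw [V.ext_iff]; dsimp only; omega

theorem thin_le (N : ℕ) (u h : ℕ) : u * mu (Thin N (6 * u) h) ≤ h * bb (3 * u) := by
  have g' : Good (tri N ∩ {v | v.k < h}) p0 q0 := (good_tri N).inter (conv_k (· < (h : ℤ)))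
  set D' := tri N ∩ {v | v.k < h} with hD'
  let X : ℕ → ℕ → Set (List V) := fun y e =>
    {l | l ∈ Exit (D' ∩ {v | 1 - (y : ℤ) ≤ v.i}) p0 q0 ∧ lv q0 l ∈ D' ∧ (lv q0 l).k = e}
  have fX : ∀ y e, (X y e).Finite := fun y e => (g'.inter (conv_i_ge _)).finP _
  have h1 : ∀ y : ℕ, y < 6 * u →
      s8 * mu (Thin N (6 * u) h) ≤ c8 * ∑ e ∈ Finset.range h, mu (X y e) := by
    intro y hy
    have g := g'.inter (conv_i_ge (1 - (y : ℤ)))
    have e := transfer g g' Set.inter_subset_left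
    have hs : Thin N (6 * u) h ⊆ Bot D' p0 q0 := fun l hl =>
      ⟨⟨hl.1.1.1, Inn_inter.2 ⟨hl.1.1.2.1, hl.2.2⟩, fun a => hl.1.1.2.2 a.1⟩, hl.1.2⟩
    have e1 : ms (om p0 q0) (Thin N (6 * u) h) = s8 * mu _ :=
      ms_eq_mul (g'.finB.subset hs) fun l hl => g'.om_bot (hs hl).1 (hs hl).2
    have e2 : ms (om p0 q0) {l | l ∈ Exit (D' ∩ {v | 1 - (y : ℤ) ≤ v.i}) p0 q0 ∧ lv q0 l ∈ D'} =
        c8 * mu _ := ms_eq_mul (g.finP _) fun l hl => by
      obtain ⟨-, b2, b3, -⟩ := slant_step (by omega) hl.1 hl.2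
      exact (g.om_r hl.1 (by rw [b3]; dsimp only; omega)).1
    have e3 : ms (om p0 q0) (Thin N (6 * u) h) ≤ ms (om p0 q0)
        {l | l ∈ Exit D' p0 q0 ∧ ¬ Inn (D' ∩ {v | 1 - (y : ℤ) ≤ v.i}) q0 l} := by
      refine ms_mono (g'.finP _) (fun l hl => ⟨(hs hl).1, fun hi => ?_⟩)
        fun l hl => g'.om_nonneg hl.1
      obtain ⟨b1, -, -, -, b5, -⟩ := bot0 g' (hs hl)
      have a1 : 1 - (y : ℤ) ≤ (pv p0 q0 l).i := (hi.pv_mem (p := p0) b1).2
      have a2 := hl.2.1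
      rw [b5] at a1
      dsimp only at a1
      omega
    have e4 := mu_le_sum (S := {l | l ∈ Exit (D' ∩ {v | 1 - (y : ℤ) ≤ v.i}) p0 q0 ∧ lv q0 l ∈ D'})
      (Finset.range h) (X y) (fun e _ => fX y e) fun l hl => by
        have a1 := hl.2.1.2.1
        have a2 : (lv q0 l).k < h := hl.2.2
        exact ⟨(lv q0 l).k.toNat, Finset.mem_range.2 (by omega), hl.1, hl.2, by omega⟩
    have := mul_le_mul_of_nonneg_left e4 c8_pos.le
    linarith
  have h2 : ∀ e : ℕ, e < h → c8 * ∑ y ∈ Finset.range (3 * u), mu (X (3 * u + y) e) ≤ bb (3 * u) := by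
    intro e he
    have g : Good (tri (N + 6 * u + h) ∩ {v | 1 - (e : ℤ) ≤ v.i}) p0 q0 :=
      (good_tri _).inter (conv_i_ge _)
    refine le_trans (mul_le_mul_of_nonneg_left ?_ c8_pos.le) (wedge_top g (3 * u))
    refine le_trans (Finset.sum_le_sum fun y hy => ?_) (sum_le_ms (Finset.range (3 * u))
      (fun y => {l | l ∈ Exit (tri (N + 6 * u + h) ∩ {v | 1 - (e : ℤ) ≤ v.i}) p0 q0 ∧
        (lv q0 l).i = (pv p0 q0 l).i - 1 ∧ (lv q0 l).k = 3 * u + y}) (g.finP _)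
      (fun y _ l hl => ⟨hl.1, hl.2.1, by have := hl.2.2; omega⟩) (fun y _ y' _ hne => ?_)
      fun l _ => (wt_pos l).le)
    · have hy' := Finset.mem_range.1 hy
      refine mu_le_rev (sym_S (a := 1 - e) (b := e - (3 * u + y)) (c := 3 * u + y - 1) (by omega))
        (p := p0) (q := q0) (p' := ⟨1 - (3 * u + y), 1 + (3 * u + y) - e, e⟩)
        (q' := ⟨-(3 * u + y), 1 + (3 * u + y) - e, e⟩) (g.finP _) (fun l hl => ?_) fun l hl => ?_
      · obtain ⟨-, b2, b3, b4⟩ := slant_step (by omega) hl.1 hl.2.1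
        have := hl.2.2
        rw [b3, V.ext_iff, V.ext_iff]
        dsimp only
        omega
      · obtain ⟨-, b2, b3, b4⟩ := slant_step (by omega) hl.1 hl.2.1
        have b5 := hl.2.2
        obtain ⟨s1, s3, s4, s2, -⟩ := rev_map (sym_S (a := 1 - e) (b := e - (3 * u + y))
          (c := 3 * u + y - 1) (by omega)) hl.1.1 (by
            show _ = (⟨1, 1, -1⟩ : V)
            rw [V.ext_iff]; dsimp only [gS]; omega) (by
            show _ = (⟨1, 1, 0⟩ : V)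
            rw [b3, V.ext_iff]; dsimp only [gS]; omega)
        refine ⟨⟨s1, s2 _ _ (fun v hv => ?_) hl.1.2.1, fun a => ?_⟩, ?_, ?_⟩
        · have v1 := hv.1.1
          have v2 : 1 - ((3 * u + y : ℕ) : ℤ) ≤ v.i := hv.2
          rw [mem_tri] at v1
          refine ⟨?_, ?_⟩
          · rw [mem_tri]; dsimp only [gS]; omega
          · simp only [Set.mem_ofPred_eq, gS]; omega
        · have := a.2
          rw [s3] at this
          simp only [Set.mem_ofPred_eq, gS, p0] at this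
          omega
        · rw [s3, s4]; dsimp only [gS, p0, q0]; omega
        · rw [s3]; dsimp only [gS, p0]; omega
    · refine Set.disjoint_left.2 fun l a1 a2 => hne ?_
      have := a1.2.2
      have := a2.2.2
      omega
  have h3 : ∑ y ∈ Finset.range (3 * u), s8 * mu (Thin N (6 * u) h) ≤
      ∑ y ∈ Finset.range (3 * u), c8 * ∑ e ∈ Finset.range h, mu (X (3 * u + y) e) :=
    Finset.sum_le_sum fun y hy => h1 _ (by have := Finset.mem_range.1 hy; omega)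
  have h4 : ∑ e ∈ Finset.range h, c8 * ∑ y ∈ Finset.range (3 * u), mu (X (3 * u + y) e) ≤
      ∑ e ∈ Finset.range h, bb (3 * u) :=
    Finset.sum_le_sum fun e he => h2 e (Finset.mem_range.1 he)
  rw [← Finset.mul_sum, Finset.sum_comm] at h4
  rw [← Finset.mul_sum (s := Finset.range (3 * u)) (a := c8)] at h3
  simp only [Finset.sum_const, Finset.card_range, nsmul_eq_mul] at h3 h4
  push_cast at h3
  have h5 : (0 : ℝ) ≤ u * mu (Thin N (6 * u) h) := mul_nonneg (Nat.cast_nonneg u) (mu_nonneg _)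
  nlinarith [s8_ge]

/-- arcs crossing the slanted line at distance `y` and ending on the right -/
def dR (N y : ℤ) : Set (List V) :=
  {l | l ∈ Bot (tri N) p0 q0 ∧ ¬ Inn {u | 1 - y ≤ u.i} q0 l ∧ (lv q0 l).i < 1}

/-- arcs crossing the slanted line at distance `y` and ending on the left -/
def dL (N y : ℤ) : Set (List V) :=
  {l | l ∈ Bot (tri N) p0 q0 ∧ ¬ Inn {u | 1 - y ≤ u.i} q0 l ∧ ¬ (lv q0 l).i < 1}

lemma dR_fin (N y : ℤ) : (dR N y).Finite := (good_tri N).finB.subset fun _ h => h.1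
lemma dL_fin (N y : ℤ) : (dL N y).Finite := (good_tri N).finB.subset fun _ h => h.1

theorem dL_le {N y : ℤ} (hN : 0 ≤ N) (hy : 0 ≤ y) : mu (dL N y) ≤ 71 / 100 * mu (dR N y) := by
  have g' := good_tri N
  have g := g'.inter (conv_i_ge (1 - y))
  let f : List V → ℝ := fun l => c8 * im p0 q0 l + s8 * om p0 q0 l
  have hf : ∀ D, Good D p0 q0 → ms f (Exit D p0 q0) = s8 := fun D gD => by
    rw [ms_add gD.finE, ms_const_mul gD.finE, ms_const_mul gD.finE, gD.ident_re, gD.ident_im]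
    ring
  have e := transfer_gen g g' Set.inter_subset_left ((hf _ g).trans (hf _ g').symm)
  have e1 : ms f {l | l ∈ Exit (tri N ∩ {u | 1 - y ≤ u.i}) p0 q0 ∧ lv q0 l ∈ tri N} = 0 * mu _ :=
    ms_eq_mul (g.finP _) fun l hl => by
      obtain ⟨-, b2, b3, -⟩ := slant_step hy hl.1 hl.2
      obtain ⟨c1, c2⟩ := g.om_r hl.1 (by rw [b3]; dsimp only; omega)
      simp only [f, c1, c2]; ring
  rw [e1, zero_mul, ms_split (g'.finP _) fun l => l ∈ dR N y] at e
  have e2 : ms f {l | l ∈ {l | l ∈ Exit (tri N) p0 q0 ∧ ¬ Inn (tri N ∩ {u | 1 - y ≤ u.i}) q0 l} ∧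
      l ∈ dR N y} = (s8 ^ 2 - c8 ^ 2) * mu (dR N y) := by
    rw [← ms_eq_mul (f := f) (dR_fin N y) fun l hl => by
      have c1 := g'.om_bot hl.1.1 hl.1.2
      have c2 := (g'.im_bot hl.1.1 hl.1.2).1 hl.2.2
      simp only [f, c1, c2]; ring]
    congr 1
    ext l
    exact ⟨fun h => h.2, fun h => ⟨⟨h.1.1, fun a => h.2.1 (Inn_inter.1 a).2⟩, h⟩⟩
  have e3 : ms f (dL N y) = (s8 ^ 2 + c8 ^ 2) * mu (dL N y) :=
    ms_eq_mul (dL_fin N y) fun l hl => by
      have c1 := g'.om_bot hl.1.1 hl.1.2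
      have c2 := (g'.im_bot hl.1.1 hl.1.2).2 (not_lt.1 hl.2.2)
      simp only [f, c1, c2]; ring
  have e4 : ms f (dL N y) ≤ ms f {l | l ∈ {l | l ∈ Exit (tri N) p0 q0 ∧
      ¬ Inn (tri N ∩ {u | 1 - y ≤ u.i}) q0 l} ∧ ¬ l ∈ dR N y} := by
    refine ms_mono (g'.finE.subset fun _ h => h.1.1)
      (fun l h => ⟨⟨h.1.1, fun a => h.2.1 (Inn_inter.1 a).2⟩, fun a => h.2.2 a.2.2⟩) fun l hl => ?_
    have w := wt_pos l
    have := c8_pos
    have := s8_pos
    by_cases hb : (lv q0 l).k < q0.k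
    · have c1 := g'.om_bot hl.1.1 hb
      have c2 := (g'.im_bot hl.1.1 hb).2 (not_lt.1 fun a => hl.2 ⟨⟨hl.1.1, hb⟩, fun b =>
        hl.1.2 (Inn_inter.2 ⟨hl.1.1.2.1, b⟩), a⟩)
      simp only [f, c1, c2]; positivity
    · have a1 := hl.1.1.2.2
      have a2 := Exit.pv_mem hl.1.1 (q0_mem hN)
      have a3 := adj_iff.1 hl.1.1.1.adj_last
      have : q0.k = 0 := rfl
      rw [mem_tri] at a1 a2
      by_cases a4 : (lv q0 l).i < 1 - N
      · obtain ⟨c1, c2⟩ := g'.om_r hl.1.1 (by omega)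
        simp only [f, c1, c2]; linarith
      · obtain ⟨c1, c2⟩ := g'.om_l hl.1.1 (by omega)
        simp only [f, c1, c2]; positivity
  rw [e2] at e
  rw [e3, c8_sq, s8_sq] at e4
  rw [c8_sq, s8_sq] at e
  nlinarith [sq2_bounds.2, mu_nonneg (dR N y)]

/-- arcs leaving the triangle of size `R` -/
def Far (N R : ℤ) : Set (List V) := {l | l ∈ Bot (tri N) p0 q0 ∧ ¬ Inn (tri R) q0 l}

lemma Far_fin (N R : ℤ) : (Far N R).Finite := (good_tri N).finB.subset fun _ h => h.1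

lemma Far_le (N : ℤ) (R : ℕ) : mu (Far N R) ≤ 3 * vv R := by
  rcases le_total (R : ℤ) N with h | h
  · have e := esc_sub (good_tri R) (good_tri N) (tri_mono h)
    have := (good_tri N).esc_nonneg
    unfold vv Far
    nlinarith [s8_ge, mu_nonneg {l | l ∈ Bot (tri N) p0 q0 ∧ ¬ Inn (tri R) q0 l}]
  · have : Far N R = ∅ := Set.eq_empty_of_forall_notMem fun l hl =>
      hl.2 (hl.1.1.2.1.mono (tri_mono h))
    rw [this, mu, ms_empty]
    have := vv_nonneg R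
    linarith

lemma dR_le (N : ℤ) (y : ℕ) : mu (dR N y) ≤ 3 * vv y :=
  (mu_mono (Far_fin N y) fun _ h => ⟨h.1, fun a => h.2.1 (a.mono fun _ b => b.2.2.1)⟩).trans
    (Far_le N y)

lemma dR_ge {N y : ℕ} (h : y ≤ N) : vv y - vv N ≤ 8 / 5 * mu (dR N y) := by
  have e := esc_sub (good_tri y) (good_tri N) (tri_mono (by exact_mod_cast h))
  have g := good_tri N
  set S := {l | l ∈ Bot (tri N) p0 q0 ∧ ¬ Inn {u | 1 - (y : ℤ) ≤ u.i} q0 l} with hS
  set S' := {l | l ∈ Bot (tri N) p0 q0 ∧ ¬ Inn {u | 1 - (y : ℤ) ≤ u.j} q0 l} with hS'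
  have fS : S.Finite := g.finB.subset fun _ h => h.1
  have fS' : S'.Finite := g.finB.subset fun _ h => h.1
  have h1 : mu S' ≤ mu S := mu_le_map (sym_M (a := 0) (b := 0) (c := 0) rfl) fS fun l hl => by
    obtain ⟨m1, m2⟩ := mirror_exit hl.1.1
    refine ⟨⟨m1, by rw [m2]; simpa [gM] using hl.1.2⟩, fun a => hl.2 ?_⟩
    have e2 : gM 0 0 0 q0 = q0 := by simp [gM, q0]
    rw [← e2] at a
    exact a.of_map fun u hu => by simpa [gM] using hu
  have h2 := mu_mono (fS.union fS')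
    (S := {l | l ∈ Bot (tri N) p0 q0 ∧ ¬ Inn (tri y) q0 l}) fun l hl => by
      by_contra hc
      simp only [hS, hS', Set.mem_union, Set.mem_ofPred_eq, not_or, not_and, not_not] at hc
      refine hl.2 ((Inn_inter.2 ⟨hl.1.1.2.1, Inn_inter.2 ⟨hc.1 hl.1, hc.2 hl.1⟩⟩).mono
        fun u hu => mem_tri.2 ⟨hu.1.1, hu.1.2.1, hu.2.1, hu.2.2⟩)
  have h3 := mu_union_le fS fS'
  have h4 := mu_mono ((dR_fin N y).union (dL_fin N y)) (S := S) fun l hl => by
    by_cases a : (lv q0 l).i < 1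
    · exact Or.inl ⟨hl.1, hl.2, a⟩
    · exact Or.inr ⟨hl.1, hl.2, a⟩
  have h5 := mu_union_le (dR_fin N y) (dL_fin N y)
  have h6 := dL_le (N := N) (y := y) (by omega) (by omega)
  unfold vv
  nlinarith [s8_le, s8_pos, mu_nonneg (dR N y),
    mu_nonneg {l | l ∈ Bot (tri N) p0 q0 ∧ ¬ Inn (tri y) q0 l}]

/-- arcs ending at distance at least `b` on the right -/
def Tail (N b : ℤ) : Set (List V) := {l | l ∈ Bot (tri N) p0 q0 ∧ (lv q0 l).i ≤ 1 - b}

lemma Tail_fin (N b : ℤ) : (Tail N b).Finite := (good_tri N).finB.subset fun _ h => h.1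

theorem dR_rev (N b : ℕ) (y : ℤ) :
    mu (dR N y) ≤ mu (Tail N b) + mu (dL N (y - b)) + 3 * vv N := by
  have g := good_tri N
  have g' := good_tri ((N : ℤ) + b)
  have e1 := mu_split (dR_fin N y) fun l => (lv q0 l).i ≤ 1 - b
  have e2 : mu {l | l ∈ dR N y ∧ (lv q0 l).i ≤ 1 - b} ≤ mu (Tail N b) :=
    mu_mono (Tail_fin N b) fun _ h => ⟨h.1.1, h.2⟩
  have e3 : mu {l | l ∈ dR N y ∧ ¬ (lv q0 l).i ≤ 1 - b} ≤ mu (dL (N + b) (y - b)) := by
    refine (mu_le_sum (Finset.range b) (fun β => {l | l ∈ dR N y ∧ (lv q0 l).i = 1 - β})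
      (fun β _ => (dR_fin N y).subset fun _ h => h.1) fun l hl => ?_).trans
      (le_trans (Finset.sum_le_sum fun β hβ => ?_) (sum_le_ms (Finset.range b)
        (fun β => {l | l ∈ dL (N + b) (y - b) ∧ (lv q0 l).i = 1 + β}) (dL_fin _ _)
        (fun β _ l hl => hl.1) (fun β _ β' _ hne => ?_) fun l _ => (wt_pos l).le))
    · have a1 := hl.1.2.2
      have a2 := hl.2
      exact ⟨(1 - (lv q0 l).i).toNat, Finset.mem_range.2 (by omega), hl.1, by omega⟩
    · have hβ' := Finset.mem_range.1 hβ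
      refine mu_le_rev (sym_T (a := β) (b := -β) (c := 0) (by omega))
        (p := p0) (q := q0) (p' := ⟨1 - β, 1 + β, 0⟩) (q' := ⟨1 - β, 1 + β, -1⟩)
        ((dL_fin _ _).subset fun _ h => h.1) (fun l hl => ?_) fun l hl => ?_
      · obtain ⟨-, -, b3, b4, b5, -⟩ := bot0 g hl.1.1
        have := hl.2
        rw [b5, V.ext_iff, V.ext_iff]
        dsimp only
        omega
      · obtain ⟨-, -, b3, b4, b5, -⟩ := bot0 g hl.1.1
        have b6 := hl.2
        obtain ⟨s1, s3, -, s2, s5⟩ := rev_map (sym_T (a := β) (b := -β) (c := 0) (by omega))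
          hl.1.1.1.1 (by
            show _ = (⟨1, 1, -1⟩ : V)
            rw [V.ext_iff]; dsimp only [gT]; omega) (by
            show _ = (⟨1, 1, 0⟩ : V)
            rw [b5, V.ext_iff]; dsimp only [gT]; omega)
        refine ⟨⟨⟨⟨s1, s2 _ _ (fun v hv => ?_) hl.1.1.1.2.1, fun a => ?_⟩, ?_⟩,
          fun a => hl.1.2.1 (s5 _ _ (fun v hv => ?_) a), ?_⟩, ?_⟩
        · rw [mem_tri] at *; dsimp only [gT]; omega
        · have := a.2.1
          rw [s3] at this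
          simp [gT, p0] at this
        · rw [s3]; simp [gT, p0, q0]
        · simp only [Set.mem_ofPred_eq, gT] at hv ⊢
          omega
        · rw [s3]; dsimp only [gT, p0]; omega
        · rw [s3]; rfl
    · refine Set.disjoint_left.2 fun l a1 a2 => hne ?_
      have := a1.2
      have := a2.2
      omega
  have e4 := mu_mono ((dL_fin N (y - b)).union (Far_fin (N + b) N))
    (S := dL (N + b) (y - b)) fun l hl => by
      by_cases a : Inn (tri N) q0 l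
      · exact Or.inl ⟨⟨⟨hl.1.1.1, a, fun c => absurd (g.ab _ c) (not_le.2 hl.1.2)⟩, hl.1.2⟩, hl.2⟩
      · exact Or.inr ⟨hl.1, a⟩
  have e5 := mu_union_le (dL_fin N (y - b)) (Far_fin (N + b) N)
  have e6 := Far_le (N + b) N
  linarith

end Pool.Agent.Lib.MP_4960b8_pr.SAW
end

-- part Pool.Agent.Lib.MP_4960b8_pr.SAW.Scale
section

/-!
Good scales, choice of the endpoint and conversion to probabilities.
-/

namespace Pool.Agent.Lib.MP_4960b8_pr.SAW

lemma good_scale {a : ℕ → ℝ} {Λ : ℝ} (hΛ : 50 ≤ Λ) (h1 : ∀ j, a j ≤ (1 / 200) ^ j)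
    (h2 : ∀ j, 1 / (4 * Λ ^ j) ≤ a j) (j₀ : ℕ) :
    ∃ j, j₀ ≤ j ∧ (∀ k, 100 ^ k * a (j + 1 + k) ≤ a (j + 1)) ∧ a j ≤ 2 * Λ * a (j + 1) := by
  have a0 : ∀ j, 0 < a j := fun j => lt_of_lt_of_le (by positivity) (h2 j)
  have hs : ∀ i, ∃ j, i ≤ j ∧ ∀ k, 100 ^ k * a (j + k) ≤ a j := by
    intro i
    obtain ⟨M, hM⟩ := exists_pow_lt_of_lt_one (mul_pos (pow_pos (by norm_num : (0 : ℝ) < 100) i)
      (a0 i)) (by norm_num : (1 / 2 : ℝ) < 1)
    obtain ⟨j, hj, hm⟩ := Finset.exists_max_image (Finset.Icc i (i + M))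
      (fun j => (100 : ℝ) ^ j * a j) ⟨i, by simp⟩
    have hj' := Finset.mem_Icc.1 hj
    refine ⟨j, hj'.1, fun k => ?_⟩
    have : (100 : ℝ) ^ (j + k) * a (j + k) ≤ 100 ^ j * a j := by
      by_cases hk : j + k ≤ i + M
      · exact hm _ (Finset.mem_Icc.2 ⟨by omega, hk⟩)
      · have b1 := hm i (by simp)
        have b2 : (100 : ℝ) ^ (j + k) * a (j + k) ≤ (1 / 2) ^ (j + k) := by
          refine (mul_le_mul_of_nonneg_left (h1 _) (by positivity)).trans (le_of_eq ?_)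
          rw [← mul_pow]; norm_num
        have b3 : (1 / 2 : ℝ) ^ (j + k) ≤ (1 / 2) ^ M :=
          pow_le_pow_of_le_one (by norm_num) (by norm_num) (by omega)
        linarith
    rw [pow_add, mul_assoc] at this
    exact le_of_mul_le_mul_left this (by positivity)
  by_contra hc
  simp only [not_exists, not_and, not_le] at hc
  have key : ∀ d, (∀ k, 100 ^ k * a (j₀ + d + k) ≤ a (j₀ + d)) →
      (2 * Λ) ^ d * a (j₀ + d) ≤ a j₀ := by
    intro d
    induction d with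
    | zero => simp
    | succ d ih =>
      intro h
      have b1 := hc (j₀ + d) (by omega) h
      have b2 := ih fun k => by
        rcases k with _ | k
        · simp
        · have := h k
          rw [show j₀ + (d + 1) + k = j₀ + d + (k + 1) by ring, ← add_assoc j₀ d 1] at this
          have := a0 (j₀ + d + 1)
          rw [pow_succ]
          nlinarith
      rw [pow_succ, ← add_assoc, mul_assoc]
      exact (mul_le_mul_of_nonneg_left b1.le (by positivity)).trans b2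
  obtain ⟨D, hD⟩ := pow_unbounded_of_one_lt (4 * Λ ^ j₀) (by norm_num : (1 : ℝ) < 2)
  obtain ⟨j, hj, h⟩ := hs (j₀ + D)
  obtain ⟨d, rfl⟩ : ∃ d, j = j₀ + d := ⟨j - j₀, by omega⟩
  have b1 := key d h
  have b2 := (h1 j₀).trans (pow_le_one₀ (by norm_num) (by norm_num))
  have b3 := mul_le_mul_of_nonneg_left (h2 (j₀ + d)) (by positivity : 0 ≤ (2 * Λ) ^ d)
  have b4 : (2 * Λ) ^ d * (1 / (4 * Λ ^ (j₀ + d))) = 2 ^ d / (4 * Λ ^ j₀) := by
    rw [mul_pow, pow_add]; field_simp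
  have b5 : (2 : ℝ) ^ D ≤ 2 ^ d := pow_le_pow_right₀ (by norm_num) (by omega)
  have b6 : 2 ^ d / (4 * Λ ^ j₀) ≤ 1 := by linarith
  rw [div_le_one (by positivity)] at b6
  linarith

lemma tail_lower {L u N : ℕ} (hN : (6 * L + 1) * u ≤ N) (hL : 10 * (6 * L + 1 : ℝ) < (6 / 5) ^ L)
    (h1 : 100 * vv N ≤ vv ((6 * L + 1) * u))
    (h2 : vv u ≤ 2 * (6 * L + 1) * vv ((6 * L + 1) * u)) :
    vv ((6 * L + 1) * u) / 20 ≤ mu (Tail N (6 * u : ℕ)) := by
  set a := vv ((6 * L + 1) * u) with ha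
  have a0 : 0 < a := vv_pos _
  have lo : ∀ s : ℕ, s ≤ L → 3 / 5 * a ≤ mu (dR N ((6 * s + 1) * u : ℕ)) := fun s hs => by
    have e : (6 * s + 1) * u ≤ (6 * L + 1) * u := Nat.mul_le_mul_right _ (by omega)
    have b1 := dR_ge (e.trans hN)
    have b2 := vv_anti e
    linarith
  by_contra hc
  rw [not_le] at hc
  have key : ∀ s : ℕ, s ≤ L →
      (6 / 5) ^ s * mu (dR N ((6 * s + 1) * u : ℕ)) ≤ mu (dR N u) := by
    intro s
    induction s with
    | zero => simp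
    | succ s ih =>
      intro hs
      have b1 := dR_rev N (6 * u) ((6 * (s + 1) + 1) * u : ℕ)
      rw [show (((6 * (s + 1) + 1) * u : ℕ) : ℤ) - (6 * u : ℕ) = ((6 * s + 1) * u : ℕ) by
        push_cast; ring] at b1
      have b2 := dL_le (N := N) (y := ((6 * s + 1) * u : ℕ)) (by omega) (by omega)
      have b3 := lo (s + 1) hs
      have b4 : 6 / 5 * mu (dR N ((6 * (s + 1) + 1) * u : ℕ)) ≤ mu (dR N ((6 * s + 1) * u : ℕ)) := by
        linarith
      rw [pow_succ, mul_assoc]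
      exact (mul_le_mul_of_nonneg_left b4 (by positivity)).trans (ih (by omega))
  have b1 := key L le_rfl
  have b2 := lo L le_rfl
  have b3 := dR_le N u
  have b4 := mul_le_mul_of_nonneg_left b2 (by positivity : (0 : ℝ) ≤ (6 / 5) ^ L)
  nlinarith

lemma exists_avg {I : Finset ℕ} {F t : ℕ → ℝ} {B B' C : ℝ} (hF : ∀ i, 0 ≤ F i)
    (h1 : ∑ i ∈ I, F i ≤ B) (h2 : B' ≤ ∑ i ∈ I, t i) (h0 : 0 < B') (hC : B + B' ≤ C * B')
    (hB : 0 ≤ B) : ∃ i ∈ I, 0 < t i ∧ F i ≤ C * t i := by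
  have hI : I.Nonempty := by
    rw [Finset.nonempty_iff_ne_empty]; rintro rfl; simp at h2; linarith
  have c0 : (0 : ℝ) < I.card := by exact_mod_cast hI.card_pos
  have C0 : 0 < C := by nlinarith
  obtain ⟨i, hi, h⟩ := Finset.exists_le_of_sum_le (f := fun i => F i + B' / I.card)
    (g := fun i => C * t i) hI (by
      rw [Finset.sum_add_distrib, ← Finset.mul_sum, Finset.sum_const, nsmul_eq_mul,
        mul_div_cancel₀ _ c0.ne']
      nlinarith)
  have : 0 < B' / I.card := by positivity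
  have := hF i
  exact ⟨i, hi, by nlinarith, by linarith⟩

lemma exists_forall_anti {I : Finset ℕ} {P : ℕ → ℕ → Prop} (h : ∀ N, ∃ i ∈ I, P i N)
    (ha : ∀ i N N', N ≤ N' → P i N' → P i N) : ∃ i ∈ I, ∀ N, P i N := by
  by_contra hc
  simp only [not_exists, not_and, not_forall] at hc
  choose! f hf using hc
  obtain ⟨i, hi, hp⟩ := h (I.sup f)
  exact hf i hi (ha i _ _ (Finset.le_sup hi) hp)

def At (S : Set (List V)) (β : ℕ) : Set (List V) := {l | l ∈ S ∧ (lv q0 l).i = 1 - β}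

lemma sum_At_le {S : Set (List V)} (hS : S.Finite) (I : Finset ℕ) :
    ∑ β ∈ I, mu (At S β) ≤ mu S :=
  sum_le_ms I (At S) hS (fun _ _ _ h => h.1) (fun β _ β' _ hne => Set.disjoint_left.2
    fun l a1 a2 => hne (by have := a1.2; have := a2.2; omega)) fun l _ => (wt_pos l).le

lemma geom_le (n : ℕ) : ∑ k ∈ Finset.range n, (1 / 2 : ℝ) ^ k ≤ 2 := sum_geometric_two_le n

lemma Thin_fin (N y h : ℤ) : (Thin N y h).Finite := (good_tri N).finB.subset fun _ h => h.1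

theorem exists_end : ∃ Λ : ℕ, 4 ≤ Λ ∧ ∃ C : ℕ, 1 ≤ C ∧ ∀ j₀, ∃ j, j₀ ≤ j ∧ ∃ β : ℕ,
    6 * Λ ^ j ≤ β ∧ β ≤ Λ ^ (j + 2) ∧ 0 < mu (At (Bot (tri (Λ ^ (j + 2) : ℕ)) p0 q0) β) ∧
    ∀ N : ℕ, (∀ k, k < N → 2 ^ k * mu (At (Far N (Λ ^ (j + 1 + k) : ℕ)) β) ≤
        C * mu (At (Bot (tri (Λ ^ (j + 2) : ℕ)) p0 q0) β)) ∧
      ∀ k, k ≤ j → 2 ^ k * mu (At (Thin N (6 * (Λ ^ j : ℕ)) (Λ ^ (j - k) : ℕ)) β) ≤
        C * mu (At (Bot (tri (Λ ^ (j + 2) : ℕ)) p0 q0) β) := by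
  obtain ⟨Λ₀, hΛ₀⟩ := decay_any (θ := 1 / 200) (by norm_num)
  obtain ⟨L, hL1, hL2⟩ : ∃ L : ℕ, Λ₀ + 10 ≤ L ∧ 10 * (6 * L + 1 : ℝ) < (6 / 5) ^ L := by
    refine ⟨2 * (Λ₀ + 4000), by omega, ?_⟩
    have h := one_add_mul_le_pow (show (-2 : ℝ) ≤ 1 / 5 by norm_num) (Λ₀ + 4000)
    have h0 : (0 : ℝ) ≤ Λ₀ := Nat.cast_nonneg _
    rw [mul_comm 2, pow_mul, show (6 / 5 : ℝ) = 1 + 1 / 5 by norm_num]
    push_cast at h ⊢
    nlinarith
  set Λ := 6 * L + 1 with hΛ
  have c1 : (Λ : ℝ) = 6 * L + 1 := by rw [hΛ]; push_cast; ring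
  have Λ4 : 4 ≤ Λ := by omega
  refine ⟨Λ, Λ4, 20 * (7 + 4 * Λ), by omega, fun j₀ => ?_⟩
  obtain ⟨j, hj, g1, g2⟩ := good_scale (a := fun j => vv (Λ ^ j)) (Λ := Λ)
    (by exact_mod_cast (by omega : 50 ≤ Λ)) (hΛ₀ Λ (by omega)) (fun j => by
      refine le_trans ?_ (vv_lower _)
      have : (1 : ℝ) ≤ Λ ^ j := one_le_pow₀ (by exact_mod_cast (by omega : 1 ≤ Λ))
      push_cast
      exact one_div_le_one_div_of_le (by positivity) (by linarith)) j₀
  refine ⟨j, hj, ?_⟩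
  set a := vv (Λ ^ (j + 1)) with ha
  have a0 : 0 < a := vv_pos _
  have u0 : 0 < Λ ^ j := by positivity
  have t1 : a / 20 ≤ mu (Tail (Λ ^ (j + 2) : ℕ) (6 * Λ ^ j : ℕ)) := by
    have e : (6 * L + 1) * Λ ^ j = Λ ^ (j + 1) := by rw [← hΛ]; ring
    have := tail_lower (L := L) (u := Λ ^ j) (N := Λ ^ (j + 2))
      (by rw [e]; exact Nat.pow_le_pow_right (by omega) (by omega)) hL2
      (by rw [e]; simpa using g1 1) (by rw [e, ← c1]; exact g2)
    rwa [e] at this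
  have t2 : a / 20 ≤ ∑ β ∈ Finset.Icc (6 * Λ ^ j) (Λ ^ (j + 2)),
      mu (At (Bot (tri (Λ ^ (j + 2) : ℕ)) p0 q0) β) := by
    refine t1.trans (mu_le_sum _ _ (fun β _ => (good_tri _).finB.subset fun _ h => h.1)
      fun l hl => ?_)
    obtain ⟨-, b2, -, -, b5, -⟩ := bot0 (good_tri _) hl.1
    have b6 := hl.2
    rw [b5, mem_tri] at b2
    dsimp only at b2
    exact ⟨(1 - (lv q0 l).i).toNat, Finset.mem_Icc.2 (by omega), hl.1, by omega⟩
  obtain ⟨β, hβ, h⟩ := exists_forall_anti (I := Finset.Icc (6 * Λ ^ j) (Λ ^ (j + 2)))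
    (P := fun β N => 0 < mu (At (Bot (tri (Λ ^ (j + 2) : ℕ)) p0 q0) β) ∧
      (∀ k, k < N → 2 ^ k * mu (At (Far N (Λ ^ (j + 1 + k) : ℕ)) β) ≤
        (20 * (7 + 4 * Λ) : ℕ) * mu (At (Bot (tri (Λ ^ (j + 2) : ℕ)) p0 q0) β)) ∧
      ∀ k, k ≤ j → 2 ^ k * mu (At (Thin N (6 * (Λ ^ j : ℕ)) (Λ ^ (j - k) : ℕ)) β) ≤
        (20 * (7 + 4 * Λ) : ℕ) * mu (At (Bot (tri (Λ ^ (j + 2) : ℕ)) p0 q0) β))
    (fun N => by
      obtain ⟨β, hβ, b1, b2⟩ := exists_avg (I := Finset.Icc (6 * Λ ^ j) (Λ ^ (j + 2)))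
        (F := fun β => ∑ k ∈ Finset.range N, 2 ^ k * mu (At (Far N (Λ ^ (j + 1 + k) : ℕ)) β) +
          ∑ k ∈ Finset.range (j + 1),
            2 ^ k * mu (At (Thin N (6 * (Λ ^ j : ℕ)) (Λ ^ (j - k) : ℕ)) β))
        (B := 6 * a + 4 * Λ * a) (C := (20 * (7 + 4 * Λ) : ℕ))
        (fun β => add_nonneg
          (Finset.sum_nonneg fun k _ => mul_nonneg (by positivity) (mu_nonneg _))
          (Finset.sum_nonneg fun k _ => mul_nonneg (by positivity) (mu_nonneg _)))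
        (by
          rw [Finset.sum_add_distrib, Finset.sum_comm, Finset.sum_comm (s := Finset.Icc _ _)]
          refine add_le_add ?_ ?_
          · refine le_trans (Finset.sum_le_sum (g := fun k => 3 * a * (1 / 2) ^ k) fun k _ => ?_) ?_
            · rw [← Finset.mul_sum]
              have d1 := (sum_At_le (Far_fin N (Λ ^ (j + 1 + k) : ℕ))
                (Finset.Icc (6 * Λ ^ j) (Λ ^ (j + 2)))).trans (Far_le N _)
              have d2 := g1 k
              have d3 : (4 : ℝ) ^ k ≤ 100 ^ k := pow_le_pow_left₀ (by norm_num) (by norm_num) k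
              have d4 : (2 : ℝ) ^ k = 4 ^ k * (1 / 2) ^ k := by rw [← mul_pow]; norm_num
              have d5 := vv_nonneg (Λ ^ (j + 1 + k))
              refine (mul_le_mul_of_nonneg_left d1 (by positivity)).trans ?_
              rw [d4]
              have d6 : 4 ^ k * vv (Λ ^ (j + 1 + k)) ≤ a := by nlinarith
              nlinarith [mul_le_mul_of_nonneg_right d6 (by positivity : (0 : ℝ) ≤ (1 / 2) ^ k)]
            · rw [← Finset.mul_sum]
              nlinarith [geom_le N]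
          · refine le_trans (Finset.sum_le_sum (g := fun k => 2 * Λ * a * (1 / 2) ^ k)
              fun k hk => ?_) ?_
            · rw [← Finset.mul_sum]
              have hk' := Finset.mem_range.1 hk
              have d1 := sum_At_le (Thin_fin N (6 * (Λ ^ j : ℕ)) (Λ ^ (j - k) : ℕ))
                (Finset.Icc (6 * Λ ^ j) (Λ ^ (j + 2)))
              have d2 := thin_le N (Λ ^ j) (Λ ^ (j - k))
              have d3 := (bb_le_vv (show 2 * Λ ^ j < 3 * Λ ^ j by omega)).trans g2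
              set x := mu (Thin N (6 * (Λ ^ j : ℕ)) (Λ ^ (j - k) : ℕ)) with hx
              have x0 : 0 ≤ x := mu_nonneg _
              have d4 : ((Λ ^ j : ℕ) : ℝ) = (Λ ^ (j - k) : ℕ) * Λ ^ k := by
                push_cast; rw [← pow_add]; congr 1; omega
              have d5 : (0 : ℝ) < (Λ ^ (j - k) : ℕ) := by positivity
              have d6 : (Λ : ℝ) ^ k * x ≤ 2 * Λ * a := by
                rw [d4, mul_assoc] at d2
                exact (le_of_mul_le_mul_left d2 d5).trans d3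
              have d7 : (4 : ℝ) ^ k ≤ Λ ^ k :=
                pow_le_pow_left₀ (by norm_num) (by exact_mod_cast Λ4) k
              have d8 : (2 : ℝ) ^ k = 4 ^ k * (1 / 2) ^ k := by rw [← mul_pow]; norm_num
              refine (mul_le_mul_of_nonneg_left d1 (by positivity)).trans ?_
              rw [d8]
              have d9 : 4 ^ k * x ≤ 2 * Λ * a := by nlinarith
              nlinarith [mul_le_mul_of_nonneg_right d9 (by positivity : (0 : ℝ) ≤ (1 / 2) ^ k)]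
            · rw [← Finset.mul_sum]
              nlinarith [geom_le (j + 1), (by positivity : 0 ≤ Λ * a)])
        t2 (by positivity) (by push_cast; nlinarith) (by positivity)
      have n1 : 0 ≤ ∑ k ∈ Finset.range N, 2 ^ k * mu (At (Far N (Λ ^ (j + 1 + k) : ℕ)) β) :=
        Finset.sum_nonneg fun k _ => mul_nonneg (by positivity) (mu_nonneg _)
      have n2 : 0 ≤ ∑ k ∈ Finset.range (j + 1),
          2 ^ k * mu (At (Thin N (6 * (Λ ^ j : ℕ)) (Λ ^ (j - k) : ℕ)) β) :=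
        Finset.sum_nonneg fun k _ => mul_nonneg (by positivity) (mu_nonneg _)
      refine ⟨β, hβ, b1, fun k hk => ?_, fun k hk => ?_⟩
      · have := Finset.single_le_sum
          (f := fun k => 2 ^ k * mu (At (Far N (Λ ^ (j + 1 + k) : ℕ)) β))
          (fun k _ => mul_nonneg (by positivity) (mu_nonneg _)) (Finset.mem_range.2 hk)
        linarith
      · have := Finset.single_le_sum
          (f := fun k => 2 ^ k * mu (At (Thin N (6 * (Λ ^ j : ℕ)) (Λ ^ (j - k) : ℕ)) β))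
          (fun k _ => mul_nonneg (by positivity) (mu_nonneg _))
          (Finset.mem_range.2 (Nat.lt_succ_of_le hk))
        linarith)
    (fun β N N' hN h => by
      have m := Bot_mono (good_tri (N' : ℤ)) (tri_mono (show (N : ℤ) ≤ N' by omega))
      refine ⟨h.1, fun k hk => le_trans (mul_le_mul_of_nonneg_left ?_ (by positivity))
        (h.2.1 k (by omega)), fun k hk => le_trans (mul_le_mul_of_nonneg_left ?_ (by positivity))
        (h.2.2 k hk)⟩
      · exact mu_mono ((Far_fin _ _).subset fun _ h => h.1) fun l a => ⟨⟨m a.1.1, a.1.2⟩, a.2⟩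
      · exact mu_mono ((Thin_fin _ _ _).subset fun _ h => h.1) fun l a => ⟨⟨m a.1.1, a.1.2⟩, a.2⟩)
  have hβ' := Finset.mem_Icc.1 hβ
  exact ⟨β, hβ'.1, hβ'.2, (h 0).1, fun N => (h N).2⟩

end Pool.Agent.Lib.MP_4960b8_pr.SAW
end

-- part Pool.Agent.Lib.MP_4960b8_pr.SAW.Final
section

/-!
From arcs to the law of the walk between two points of the bottom row.
-/

namespace Pool.Agent.Lib.MP_4960b8_pr.SAW

lemma getLast?_lv (q : V) (l : List V) : (q :: l).getLast? = some (lv q l) := by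
  induction l generalizing q with
  | nil => rfl
  | cons r l ih => rw [List.getLast?_cons_cons, ih]; rfl

lemma Inn_concat {D : Set V} {q z : V} {m : List V} :
    Inn D q (m ++ [z]) ↔ ∀ u ∈ q :: m, u ∈ D := by
  induction m generalizing q with
  | nil => simp
  | cons r m ih => simp only [List.cons_append, Inn_cons, ih, List.forall_mem_cons]

lemma saws_finite {Ω : Set V} (h : Ω.Finite) (a b : V) : (saws Ω a b).Finite :=
  (finite_nodup Ω h).subset fun _ hl => ⟨hl.2.1, hl.2.2.2.2⟩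

lemma mem_saws {Ω : Set V} {a b : V} {γ : List V} (h : γ ∈ saws Ω a b) :
    ∃ m, γ = a :: m ∧ lv a m = b := by
  obtain ⟨-, -, h3, h4, -⟩ := h
  rcases γ with _ | ⟨x, m⟩
  · simp at h3
  · obtain rfl : x = a := by simpa using h3
    rw [getLast?_lv] at h4
    exact ⟨m, rfl, by simpa using h4⟩

lemma mass_nonneg (S : Set (List V)) : 0 ≤ mass S := ms_nonneg fun _ _ => (pow_pos xc_pos _).le

lemma mass_eq {Ω : Set V} {a b : V} {S : Set (List V)} (hS : S ⊆ saws Ω a b) (hf : S.Finite)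
    (z : V) : mu ((fun γ => γ.tail ++ [z]) '' S) = xc * mass S := by
  unfold mu
  rw [ms_image _ fun x hx y hy e => by
    obtain ⟨m, rfl, -⟩ := mem_saws (hS hx)
    obtain ⟨m', rfl, -⟩ := mem_saws (hS hy)
    simpa using e]
  rw [show mass S = ms (fun γ => xc ^ (γ.length - 1)) S from rfl, ← ms_const_mul hf]
  exact ms_congr fun l _ => by simp [wt, pow_succ, mul_comm]

lemma prob_le_one {Ω : Set V} (h : Ω.Finite) (a b : V) (E : Set (List V)) : prob Ω a b E ≤ 1 :=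
  div_le_one_of_le₀ (ms_mono (saws_finite h a b) Set.inter_subset_left
    fun _ _ => (pow_pos xc_pos _).le) (mass_nonneg _)

lemma arc_of_saw {Ω : Set V} (hΩ : ∀ v ∈ Ω, 0 ≤ v.k) {β : ℕ} (hβ : 0 < β) {N : ℤ}
    (hN : ∀ u ∈ Ω, 1 - N ≤ u.i ∧ 1 - N ≤ u.j) {m : List V}
    (h : q0 :: m ∈ saws Ω q0 ⟨1 - β, 1 + β, 0⟩) :
    m ++ [(⟨1 - β, 1 + β, -1⟩ : V)] ∈ At (Bot (tri N) p0 q0) β := by
  obtain ⟨m', e, h4⟩ := mem_saws h
  obtain rfl : m = m' := by simpa using e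
  obtain ⟨h1, h2, -, -, h5⟩ := h
  have s1 : Saw p0 q0 m := ⟨List.isChain_cons_cons.2 ⟨up0.adj, h1⟩,
    List.nodup_cons.2 ⟨fun a => by have := hΩ _ (h5 _ a); simp [p0] at this, h2⟩⟩
  have nz : ∀ u ∈ p0 :: q0 :: m, u ≠ ⟨1 - β, 1 + β, -1⟩ := by
    intro u hu e
    rcases List.mem_cons.1 hu with a | a
    · rw [a, V.ext_iff] at e; dsimp only [p0] at e; omega
    · have := hΩ _ (h5 _ a); rw [e] at this; simp at this
  have s2 : Saw p0 q0 (m ++ [⟨1 - β, 1 + β, -1⟩]) := by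
    refine saw_append.2 ⟨s1, saw_cons.2 ⟨s1.adj_last, ?_, saw_nil.2 ?_⟩, fun u hu => by
      simpa using nz u hu⟩
    · simp only [List.mem_cons, List.not_mem_nil, or_false, not_or]
      exact ⟨s1.adj_last.ne, nz _ (pv_mem _ _ _)⟩
    · rw [h4, adj_iff]; dsimp only; omega
  refine ⟨⟨⟨s2, Inn_concat.2 fun u hu => ⟨s1.valid (List.mem_cons_of_mem _ hu), hΩ _ (h5 u hu),
    hN _ (h5 u hu)⟩, fun a => ?_⟩, by simp [q0]⟩, by simp⟩
  have := a.2.1
  simp at this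

lemma saw_of_arc {Ω : Set V} {β : ℕ} {N : ℤ} (hN : tri N ⊆ Ω) {l : List V}
    (h : l ∈ At (Bot (tri N) p0 q0) β) :
    ∃ γ ∈ saws Ω q0 ⟨1 - β, 1 + β, 0⟩, γ.tail ++ [(⟨1 - β, 1 + β, -1⟩ : V)] = l := by
  obtain ⟨b1, -, b3, b4, b5, -⟩ := bot0 (good_tri N) h.1
  have b6 := h.2
  obtain ⟨m, z, rfl⟩ := (List.eq_nil_or_concat' l).resolve_left b1
  have s1 := (saw_append.1 h.1.1.1).1
  have i1 := Inn_concat.1 h.1.1.2.1
  simp only [lv_append, lv_cons, lv_nil, pv_append, pv_cons, pv_nil] at b3 b4 b5 b6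
  refine ⟨q0 :: m, ⟨(List.isChain_cons_cons.1 s1.1).2, (List.nodup_cons.1 s1.2).2, rfl, ?_,
    fun v hv => hN (i1 v hv)⟩, ?_⟩
  · rw [getLast?_lv, b5, Option.some.injEq, V.ext_iff]; dsimp only; omega
  · have : z = ⟨1 - β, 1 + β, -1⟩ := by rw [V.ext_iff]; dsimp only; omega
    rw [this]; rfl

lemma rpow_ge {Λ x : ℝ} (hΛ : 1 < Λ) (m : ℕ) (h : 1 / Λ ^ m ≤ x) :
    1 / 2 ^ m ≤ x ^ (Real.log 2 / Real.log Λ) := by
  have l0 := Real.log_pos hΛ
  have k0 : 0 ≤ Real.log 2 / Real.log Λ := div_nonneg (Real.log_pos (by norm_num)).le l0.le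
  refine le_trans (le_of_eq ?_) (Real.rpow_le_rpow (by positivity) h k0)
  have : Λ ^ (Real.log 2 / Real.log Λ) = 2 := by
    rw [Real.rpow_def_of_pos (by linarith), mul_div_cancel₀ _ l0.ne', Real.exp_log (by norm_num)]
  rw [Real.div_rpow (by norm_num) (by positivity), Real.one_rpow, ← Real.rpow_natCast Λ,
    ← Real.rpow_mul (by linarith), mul_comm, Real.rpow_mul (by linarith), this, Real.rpow_natCast]

theorem scale_main : ∃ κ : ℝ, 0 < κ ∧ ∃ C : ℕ, ∀ m : ℕ, ∃ β : ℕ, m ≤ β ∧ ∀ Ω : Set V, Ω.Finite →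
    tri (C * β) ⊆ Ω → (∀ v ∈ Ω, 0 ≤ v.k) →
    0 < mass (saws Ω ⟨1, 1, 0⟩ ⟨1 - β, 1 + β, 0⟩) ∧
    (∀ h : ℕ, 1 ≤ h → prob Ω ⟨1, 1, 0⟩ ⟨1 - β, 1 + β, 0⟩ {γ | ∀ v ∈ γ, v.k < h} ≤
      C * ((h : ℝ) / β) ^ κ) ∧
    ∀ R : ℕ, 1 ≤ R → prob Ω ⟨1, 1, 0⟩ ⟨1 - β, 1 + β, 0⟩ {γ | ∃ v ∈ γ, v ∉ tri R} ≤
      C * ((β : ℝ) / R) ^ κ := by
  obtain ⟨Λ, Λ4, C, C1, H⟩ := exists_end
  have L1 : (1 : ℝ) < Λ := by exact_mod_cast (by omega : 1 < Λ)
  refine ⟨Real.log 2 / Real.log Λ, div_pos (Real.log_pos (by norm_num)) (Real.log_pos L1),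
    Λ ^ 2 + 8 * C, fun m => ?_⟩
  obtain ⟨j, hj, β, b1, b2, t0, H⟩ := H m
  have u1 : j < Λ ^ j := Nat.lt_pow_self (by omega)
  refine ⟨β, by omega, fun Ω f1 f2 f3 => ?_⟩
  obtain ⟨N₀, hN₀⟩ := exists_tri f1
  have β0 : 0 < β := by omega
  have β0' : (0 : ℝ) < β := by exact_mod_cast β0
  set t := mu (At (Bot (tri (Λ ^ (j + 2) : ℕ)) p0 q0) β) with ht
  set Z := mass (saws Ω ⟨1, 1, 0⟩ ⟨1 - β, 1 + β, 0⟩) with hZ
  have fS := saws_finite f1 q0 ⟨1 - β, 1 + β, 0⟩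
  have z1 : t ≤ xc * Z := by
    have e := mass_eq (Ω := Ω) subset_rfl fS ⟨1 - β, 1 + β, -1⟩
    refine le_trans (mu_mono (fS.image _) fun l hl => saw_of_arc
      ((tri_mono ?_).trans f2) hl) e.le
    have : Λ ^ (j + 2) ≤ (Λ ^ 2 + 8 * C) * β := by
      rw [pow_add, mul_comm]
      exact Nat.mul_le_mul (by omega) (by omega)
    exact_mod_cast this
  have Z0 : 0 < Z := by nlinarith [xc_pos]
  have key : ∀ (E T : Set (List V)) (k : ℕ), T.Finite → 2 ^ k * mu T ≤ C * t →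
      (∀ m, q0 :: m ∈ saws Ω q0 ⟨1 - β, 1 + β, 0⟩ → q0 :: m ∈ E →
        m ++ [(⟨1 - β, 1 + β, -1⟩ : V)] ∈ T) →
      prob Ω ⟨1, 1, 0⟩ ⟨1 - β, 1 + β, 0⟩ E ≤ C * (1 / 2 ^ k) := by
    intro E T k fT h1 h2
    have e := mass_eq (S := saws Ω q0 ⟨1 - β, 1 + β, 0⟩ ∩ E) Set.inter_subset_left
      (fS.subset Set.inter_subset_left) ⟨1 - β, 1 + β, -1⟩
    have e2 : mu ((fun γ => γ.tail ++ [(⟨1 - β, 1 + β, -1⟩ : V)]) ''
        (saws Ω q0 ⟨1 - β, 1 + β, 0⟩ ∩ E)) ≤ mu T := mu_mono fT (by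
      rintro _ ⟨γ, hγ, rfl⟩
      obtain ⟨m, rfl, -⟩ := mem_saws hγ.1
      exact h2 m hγ.1 hγ.2)
    rw [e] at e2
    show mass (saws Ω q0 ⟨1 - β, 1 + β, 0⟩ ∩ E) / Z ≤ _
    rw [div_le_iff₀ Z0, mul_one_div, div_mul_eq_mul_div, le_div_iff₀ (by positivity)]
    have c0 : (0 : ℝ) ≤ C := Nat.cast_nonneg C
    have e3 := mul_le_mul_of_nonneg_left e2 (by positivity : (0 : ℝ) ≤ 2 ^ k)
    have e4 := mul_le_mul_of_nonneg_left z1 c0
    refine le_of_mul_le_mul_left ?_ xc_pos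
    linarith
  have fin : ∀ (P x : ℝ) (k r : ℕ), P ≤ C * (1 / 2 ^ k) → r ≤ k + 3 → 1 / (Λ : ℝ) ^ r ≤ x →
      P ≤ (Λ ^ 2 + 8 * C : ℕ) * x ^ (Real.log 2 / Real.log Λ) := by
    intro P x k r h1 h2 h3
    have a1 := rpow_ge L1 r h3
    have a2 : (1 : ℝ) / 2 ^ (k + 3) ≤ 1 / 2 ^ r :=
      one_div_le_one_div_of_le (by positivity) (pow_le_pow_right₀ (by norm_num) h2)
    have a3 : (1 : ℝ) / 2 ^ k = 8 * (1 / 2 ^ (k + 3)) := by rw [pow_add]; field_simp; norm_num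
    have c0 : (0 : ℝ) ≤ C := Nat.cast_nonneg C
    have a4 : (0 : ℝ) ≤ 1 / 2 ^ r := by positivity
    rw [a3] at h1
    push_cast
    nlinarith [mul_le_mul_of_nonneg_left (a2.trans a1) c0, sq_nonneg (Λ : ℝ),
      mul_nonneg (sq_nonneg (Λ : ℝ)) (a4.trans a1)]
  have triv : ∀ E, prob Ω ⟨1, 1, 0⟩ ⟨1 - β, 1 + β, 0⟩ E ≤ C * (1 / 2 ^ 0) := fun E => by
    have := prob_le_one f1 ⟨1, 1, 0⟩ ⟨1 - β, 1 + β, 0⟩ E
    have : (1 : ℝ) ≤ C := by exact_mod_cast C1
    simp only [pow_zero, div_one, mul_one]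
    linarith
  refine ⟨Z0, fun h hh => ?_, fun R hR => ?_⟩
  · have i1 := Nat.pow_log_le_self Λ (show h ≠ 0 by omega)
    have i2 := Nat.lt_pow_succ_log_self (show 1 < Λ by omega) h
    set i := Nat.log Λ h
    have x1 : ∀ r, j + 2 ≤ i + r → 1 / (Λ : ℝ) ^ r ≤ (h : ℝ) / β := fun r hr => by
      rw [div_le_div_iff₀ (by positivity) β0', one_mul]
      have : β ≤ h * Λ ^ r := b2.trans ((Nat.pow_le_pow_right (by omega) hr).trans (by
        rw [pow_add]; exact Nat.mul_le_mul_right _ i1))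
      exact_mod_cast this
    by_cases hi : i < j
    · refine fin _ _ (j - i - 1) (j - i + 2) (key _ _ _ ((Thin_fin _ _ _).subset fun _ h => h.1)
        ((H N₀.toNat).2 (j - i - 1) (by omega)) fun m h1 h2 => ?_) (by omega) (x1 _ (by omega))
      have a := arc_of_saw f3 β0 (N := N₀.toNat) (fun u hu => by have := hN₀ u hu; omega) h1
      refine ⟨⟨a.1, by rw [a.2]; omega, Inn_concat.2 fun u hu => ?_⟩, a.2⟩
      have := h2 u hu
      rw [show j - (j - i - 1) = i.succ by omega]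
      show u.k < _
      omega
    · exact fin _ _ 0 2 (triv _) (by omega) (x1 _ (by omega))
  · have i1 := Nat.pow_log_le_self Λ (show R ≠ 0 by omega)
    have i2 := Nat.lt_pow_succ_log_self (show 1 < Λ by omega) R
    set i := Nat.log Λ R
    have R0 : (0 : ℝ) < R := by exact_mod_cast hR
    have x1 : ∀ r, i + 1 ≤ j + r → 1 / (Λ : ℝ) ^ r ≤ (β : ℝ) / R := fun r hr => by
      rw [div_le_div_iff₀ (by positivity) R0, one_mul]
      have : R ≤ β * Λ ^ r := i2.le.trans ((Nat.pow_le_pow_right (by omega) hr).trans (by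
        rw [pow_add]; exact Nat.mul_le_mul_right _ (by omega)))
      exact_mod_cast this
    by_cases hi : j < i
    · refine fin _ _ (i - j - 1) (i - j + 1) (key _ _ _ ((Far_fin _ _).subset fun _ h => h.1)
        ((H (N₀.toNat + i)).1 (i - j - 1) (by omega)) fun m h1 h2 => ?_) (by omega)
        (x1 _ (by omega))
      have a := arc_of_saw f3 β0 (N := (N₀.toNat + i : ℕ))
        (fun u hu => by have := hN₀ u hu; omega) h1
      refine ⟨⟨a.1, fun c => ?_⟩, a.2⟩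
      obtain ⟨v, v1, v2⟩ := h2
      rw [show j + 1 + (i - j - 1) = i by omega] at c
      exact v2 (tri_mono (by exact_mod_cast i1) (Inn_concat.1 c v v1))
    · exact fin _ _ 0 1 (triv _) (by omega) (x1 _ (by omega))

end Pool.Agent.Lib.MP_4960b8_pr.SAW
end
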