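import Pool.Agent.Lib.MP_4960b8_pr.SAW.Ident

-- part Pool.Agent.Lib.MP_4960b8_pr.SAW.Mass
section

/-!
Masses of finite sets of walks.
-/

namespace Pool.Agent.Lib.MP_4960b8_pr.SAW

noncomputable def wt (l : List V) : ℝ := xc ^ l.length

noncomputable def ms (f : List V → ℝ) (S : Set (List V)) : ℝ := ∑ᶠ l ∈ S, f l

noncomputable def mu (S : Set (List V)) : ℝ := ms wt S

lemma wt_pos (l : List V) : 0 < wt l := pow_pos xc_pos _

lemma wt_append (a b : List V) : wt (a ++ b) = wt a * wt b := by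
  simp [wt, pow_add]

variable {f g : List V → ℝ} {S T : Set (List V)}

lemma ms_eq_sum (hS : S.Finite) : ms f S = ∑ l ∈ hS.toFinset, f l :=
  finsum_mem_eq_finite_toFinset_sum f hS

lemma ms_empty : ms f ∅ = 0 := finsum_mem_empty

lemma ms_singleton (a : List V) : ms f {a} = f a := finsum_mem_singleton

lemma ms_union (hd : Disjoint S T) (hS : S.Finite) (hT : T.Finite) :
    ms f (S ∪ T) = ms f S + ms f T := finsum_mem_union hd hS hT

lemma ms_split (hS : S.Finite) (P : List V → Prop) :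
    ms f S = ms f {l | l ∈ S ∧ P l} + ms f {l | l ∈ S ∧ ¬ P l} := by
  rw [← ms_union (Set.disjoint_left.2 fun l h h' => h'.2 h.2) (hS.subset fun l h => h.1)
    (hS.subset fun l h => h.1)]
  congr 1
  ext l
  simp only [Set.mem_union, Set.mem_ofPred_eq]
  tauto

lemma ms_congr (h : ∀ l ∈ S, f l = g l) : ms f S = ms g S := finsum_mem_congr rfl h

lemma ms_le_ms (hS : S.Finite) (h : ∀ l ∈ S, f l ≤ g l) : ms f S ≤ ms g S := by
  rw [ms_eq_sum hS, ms_eq_sum hS]
  exact Finset.sum_le_sum fun l hl => h l (hS.mem_toFinset.1 hl)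

lemma ms_nonneg (h : ∀ l ∈ S, 0 ≤ f l) : 0 ≤ ms f S :=
  finsum_nonneg fun l => finsum_nonneg fun hl => h l hl

lemma ms_mono (hT : T.Finite) (hST : S ⊆ T) (h : ∀ l ∈ T, 0 ≤ f l) : ms f S ≤ ms f T := by
  rw [ms_eq_sum hT, ms_eq_sum (hT.subset hST)]
  refine Finset.sum_le_sum_of_subset_of_nonneg (fun l hl => ?_) fun l hl _ =>
    h l (hT.mem_toFinset.1 hl)
  exact hT.mem_toFinset.2 (hST ((hT.subset hST).mem_toFinset.1 hl))

lemma ms_const_mul (hS : S.Finite) (c : ℝ) : ms (fun l => c * f l) S = c * ms f S := by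
  rw [ms_eq_sum hS, ms_eq_sum hS, Finset.mul_sum]

lemma ms_eq_mul (hS : S.Finite) {c : ℝ} (h : ∀ l ∈ S, f l = c * wt l) : ms f S = c * mu S := by
  rw [ms_congr h, ms_const_mul hS]; rfl

lemma ms_image (e : List V → List V) (he : Set.InjOn e S) :
    ms f (e '' S) = ms (fun l => f (e l)) S := finsum_mem_image he

lemma mu_nonneg (S : Set (List V)) : 0 ≤ mu S := ms_nonneg fun l _ => (wt_pos l).le

lemma mu_mono (hT : T.Finite) (hST : S ⊆ T) : mu S ≤ mu T :=
  ms_mono hT hST fun l _ => (wt_pos l).le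

lemma mu_split (hS : S.Finite) (P : List V → Prop) :
    mu S = mu {l | l ∈ S ∧ P l} + mu {l | l ∈ S ∧ ¬ P l} := ms_split hS P

lemma mu_le_of_inj (hT : T.Finite) (e : List V → List V) (hm : Set.MapsTo e S T)
    (he : Set.InjOn e S) (hl : ∀ l ∈ S, (e l).length = l.length) : mu S ≤ mu T := by
  have : mu S = mu (e '' S) := by
    unfold mu
    rw [ms_image e he]
    exact ms_congr fun l h => by simp [wt, hl l h]
  rw [this]
  exact mu_mono hT hm.image_subset

lemma ms_biUnion {ι : Type*} (I : Finset ι) (B : ι → Set (List V)) (hB : ∀ i ∈ I, (B i).Finite)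
    (hd : ∀ i ∈ I, ∀ j ∈ I, i ≠ j → Disjoint (B i) (B j)) :
    ms f (⋃ i ∈ I, B i) = ∑ i ∈ I, ms f (B i) := by
  have := finsum_mem_biUnion (f := f) (I := (I : Set ι)) (t := B)
    (fun i hi j hj hij => hd i hi j hj hij) I.finite_toSet hB
  rw [finsum_mem_coe_finset] at this
  exact this

lemma sum_le_ms {ι : Type*} (I : Finset ι) (B : ι → Set (List V)) (hS : S.Finite)
    (hB : ∀ i ∈ I, B i ⊆ S) (hd : ∀ i ∈ I, ∀ j ∈ I, i ≠ j → Disjoint (B i) (B j))
    (h : ∀ l ∈ S, 0 ≤ f l) : ∑ i ∈ I, ms f (B i) ≤ ms f S := by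
  rw [← ms_biUnion I B (fun i hi => hS.subset (hB i hi)) hd]
  exact ms_mono hS (Set.iUnion₂_subset hB) h

lemma mu_union_le (hS : S.Finite) (hT : T.Finite) : mu (S ∪ T) ≤ mu S + mu T := by
  rw [← Set.union_sdiff_self]
  unfold mu
  rw [ms_union Set.disjoint_sdiff_right hS (hT.subset Set.sdiff_subset)]
  have := mu_mono hT (Set.sdiff_subset (t := S))
  unfold mu at this
  linarith

lemma mu_le_sum {ι : Type*} (I : Finset ι) (B : ι → Set (List V)) (hB : ∀ i ∈ I, (B i).Finite)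
    (h : ∀ l ∈ S, ∃ i ∈ I, l ∈ B i) : mu S ≤ ∑ i ∈ I, mu (B i) := by
  classical
  induction I using Finset.induction_on generalizing S with
  | empty =>
    have : S = ∅ := Set.eq_empty_of_forall_notMem fun l hl => by simpa using h l hl
    rw [this]; simp [mu, ms_empty]
  | insert a I ha ih =>
    rw [Finset.sum_insert ha]
    have h1 := ih (S := ⋃ i ∈ I, B i) (fun i hi => hB i (Finset.mem_insert_of_mem hi))
      (fun l hl => by simpa using hl)
    have f1 := hB a (Finset.mem_insert_self _ _)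
    have f2 : (⋃ i ∈ I, B i).Finite :=
      Set.Finite.biUnion I.finite_toSet fun i hi => hB i (Finset.mem_insert_of_mem hi)
    have h2 := mu_union_le f1 f2
    have h3 := mu_mono (S := S) (f1.union f2) (fun l hl => by
      obtain ⟨i, hi, hl⟩ := h l hl
      rcases Finset.mem_insert.1 hi with rfl | hi
      · exact Or.inl hl
      · exact Or.inr (Set.mem_biUnion hi hl))
    linarith

lemma mu_image_append (a : List V) (hS : S.Finite) : mu ((a ++ ·) '' S) = wt a * mu S := by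
  unfold mu
  rw [ms_image _ (fun _ _ _ _ h => List.append_cancel_left h), ← ms_const_mul hS]
  exact ms_congr fun l _ => wt_append _ _

lemma mu_concat_le {A : Set (List V)} (hA : A.Finite) (B : List V → Set (List V))
    (hB : ∀ a ∈ A, (B a).Finite) {K : ℝ} (hK : ∀ a ∈ A, mu (B a) ≤ K)
    (h : ∀ l ∈ S, ∃ a ∈ A, ∃ b ∈ B a, l = a ++ b) : mu S ≤ mu A * K := by
  refine (mu_le_sum hA.toFinset (fun a => (a ++ ·) '' B a)
    (fun a ha => (hB a (hA.mem_toFinset.1 ha)).image _) fun l hl => ?_).trans ?_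
  · obtain ⟨a, ha, b, hb, e⟩ := h l hl
    exact ⟨a, hA.mem_toFinset.2 ha, b, hb, e.symm⟩
  · unfold mu at *
    rw [ms_eq_sum hA, Finset.sum_mul]
    refine Finset.sum_le_sum fun a ha => ?_
    have ha' := hA.mem_toFinset.1 ha
    have := mu_image_append a (hB a ha')
    unfold mu at this
    rw [this]
    exact mul_le_mul_of_nonneg_left (hK a ha') (wt_pos a).le

lemma ms_concat_ge {A : Set (List V)} (hA : A.Finite) (hS : S.Finite) (B : List V → Set (List V))
    (g : List V → List V → ℝ) {K : ℝ} (hK : ∀ a ∈ A, K ≤ ms (g a) (B a))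
    (h : ∀ a ∈ A, ∀ b ∈ B a, a ++ b ∈ S) (hg : ∀ a ∈ A, ∀ b ∈ B a, f (a ++ b) = wt a * g a b)
    (hi : ∀ a ∈ A, ∀ b ∈ B a, ∀ a' ∈ A, ∀ b' ∈ B a', a ++ b = a' ++ b' → a = a')
    (hf : ∀ l ∈ S, 0 ≤ f l) : mu A * K ≤ ms f S := by
  refine le_trans ?_ (sum_le_ms hA.toFinset (fun a => (a ++ ·) '' B a) hS ?_ ?_ hf)
  · unfold mu
    rw [ms_eq_sum hA, Finset.sum_mul]
    refine Finset.sum_le_sum fun a ha => ?_
    have ha' := hA.mem_toFinset.1 ha
    have fB : (B a).Finite := by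
      refine Set.Finite.of_finite_image (f := (a ++ ·)) (hS.subset ?_)
        fun _ _ _ _ h => List.append_cancel_left h
      rintro _ ⟨b, hb, rfl⟩
      exact h a ha' b hb
    rw [ms_image _ (fun _ _ _ _ h => List.append_cancel_left h), ms_congr (hg a ha'),
      ms_const_mul fB]
    exact mul_le_mul_of_nonneg_left (hK a ha') (wt_pos a).le
  · rintro a ha _ ⟨b, hb, rfl⟩
    exact h a (hA.mem_toFinset.1 ha) b hb
  · intro a ha a' ha' hne
    refine Set.disjoint_left.2 ?_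
    rintro _ ⟨b, hb, rfl⟩ ⟨b', hb', e⟩
    exact hne (hi a (hA.mem_toFinset.1 ha) b hb a' (hA.mem_toFinset.1 ha') b' hb' e.symm)

lemma mu_concat_ge {A : Set (List V)} (hA : A.Finite) (hS : S.Finite) (B : List V → Set (List V))
    {K : ℝ} (hK : ∀ a ∈ A, K ≤ mu (B a)) (h : ∀ a ∈ A, ∀ b ∈ B a, a ++ b ∈ S)
    (hi : ∀ a ∈ A, ∀ b ∈ B a, ∀ a' ∈ A, ∀ b' ∈ B a', a ++ b = a' ++ b' → a = a') :
    mu A * K ≤ mu S :=
  ms_concat_ge hA hS B (fun _ => wt) hK h (fun a _ b _ => wt_append a b) hi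
    fun l _ => (wt_pos l).le

/-- `b` is a fresh continuation of `q :: a` for the level function `lev` -/
def Fresh (lev : V → ℤ) (q : V) (a b : List V) : Prop := ∀ u ∈ b, lev (lv q a) ≤ lev u

/-- members of `A` with no earlier renewal in `A` -/
def First (lev : V → ℤ) (q : V) (A : Set (List V)) : Set (List V) :=
  {l | l ∈ A ∧ ∀ a b, l = a ++ b → a ∈ A → Fresh lev q a b → b = []}

lemma first_exists {lev : V → ℤ} {q : V} {A : Set (List V)} {l : List V} (hl : l ∈ A) :
    ∃ a ∈ First lev q A, ∃ b, Fresh lev q a b ∧ l = a ++ b := by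
  induction hn : l.length using Nat.strong_induction_on generalizing l with
  | _ n ih =>
    by_cases h : l ∈ First lev q A
    · exact ⟨l, h, [], fun u hu => by simp at hu, by simp⟩
    · simp only [First, Set.mem_ofPred_eq, not_and, not_forall] at h
      obtain ⟨a, b, e, ha, hf, hb⟩ := h hl
      have : a.length < n := by
        rw [← hn, e, List.length_append]
        have := List.length_pos_iff.2 hb
        omega
      obtain ⟨a', ha', b', hf', e'⟩ := ih _ this ha rfl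
      refine ⟨a', ha', b' ++ b, fun u hu => ?_, by rw [e, e', List.append_assoc]⟩
      rcases List.mem_append.1 hu with hu | hu
      · exact hf' u hu
      · refine le_trans ?_ (hf u hu)
        rw [e', lv_append]
        by_cases hb' : b' = []
        · rw [hb']; exact le_rfl
        · exact hf' _ (lv_mem_of_ne hb')

lemma first_unique {lev : V → ℤ} {q : V} {A : Set (List V)} {a b a' b' : List V}
    (ha : a ∈ First lev q A) (ha' : a' ∈ First lev q A) (hb : Fresh lev q a b)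
    (hb' : Fresh lev q a' b') (e : a ++ b = a' ++ b') : a = a' := by
  rcases List.append_eq_append_iff.1 e with ⟨c, e1, e2⟩ | ⟨c, e1, e2⟩
  · have := ha'.2 a c e1 ha.1 fun u hu => hb u (by rw [e2]; exact List.mem_append_left _ hu)
    rw [e1, this]; simp
  · have := ha.2 a' c e1 ha'.1 fun u hu => hb' u (by rw [e2]; exact List.mem_append_left _ hu)
    rw [e1, this]; simp

lemma mu_le_first {lev : V → ℤ} {q : V} {A : Set (List V)} (hA : A.Finite) {K : ℝ}
    (hK : ∀ a ∈ A, mu {b | Fresh lev q a b ∧ a ++ b ∈ A} ≤ K) :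
    mu A ≤ mu (First lev q A) * K := by
  refine mu_concat_le (hA.subset fun l h => h.1) (fun a => {b | Fresh lev q a b ∧ a ++ b ∈ A})
    (fun a _ => ?_) (fun a ha => hK a ha.1) fun l hl => ?_
  · refine Set.Finite.of_finite_image (f := (a ++ ·)) (hA.subset ?_)
      fun _ _ _ _ h => List.append_cancel_left h
    rintro _ ⟨b, hb, rfl⟩
    exact hb.2
  · obtain ⟨a, ha, b, hf, e⟩ := first_exists (lev := lev) (q := q) hl
    exact ⟨a, ha, b, ⟨hf, e ▸ hl⟩, e⟩

end Pool.Agent.Lib.MP_4960b8_pr.SAW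
end

-- part Pool.Agent.Lib.MP_4960b8_pr.SAW.Comp
section

/-!
Real forms of the identity, comparison of domains, symmetries and reversal.
-/

namespace Pool.Agent.Lib.MP_4960b8_pr.SAW

noncomputable def c8 : ℝ := Real.cos (Real.pi / 8)
noncomputable def s8 : ℝ := Real.sin (Real.pi / 8)

lemma sq2_bounds : (1.414 : ℝ) < Real.sqrt 2 ∧ Real.sqrt 2 < 1.415 := by
  constructor
  · exact Real.lt_sqrt_of_sq_lt (by norm_num)
  · exact (Real.sqrt_lt' (by norm_num)).2 (by norm_num)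

lemma c8_sq : c8 ^ 2 = (2 + Real.sqrt 2) / 4 := by
  rw [c8, Real.cos_pi_div_eight, div_pow, Real.sq_sqrt (by positivity)]; norm_num

lemma s8_sq : s8 ^ 2 = (2 - Real.sqrt 2) / 4 := by
  have := Real.sin_sq_add_cos_sq (Real.pi / 8)
  have h := c8_sq
  unfold c8 at h
  unfold s8
  linarith

lemma c8_pos : 0 < c8 := by rw [c8, Real.cos_pi_div_eight]; have := sqrt_pos'; positivity

lemma s8_pos : 0 < s8 :=
  Real.sin_pos_of_pos_of_lt_pi (by have := Real.pi_pos; positivity) (by linarith [Real.pi_pos])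

lemma c8_ge : 9 / 10 ≤ c8 := by nlinarith [c8_sq, c8_pos, sq2_bounds.1]
lemma c8_le : c8 ≤ 1 := Real.cos_le_one _
lemma s8_ge : 1 / 3 ≤ s8 := by nlinarith [s8_sq, s8_pos, sq2_bounds.2]
lemma s8_le : s8 ≤ 2 / 5 := by nlinarith [s8_sq, s8_pos, sq2_bounds.1]
lemma xc_le : xc ≤ 1 := by
  have h := xc_cos
  have := c8_ge
  unfold c8 at this
  nlinarith [xc_pos]

lemma xc_ge : 1 / 2 ≤ xc := by
  have h := xc_cos
  have := c8_le
  unfold c8 at this
  nlinarith [xc_pos]

lemma cos_three : Real.cos (Real.pi / 8 * 3) = s8 := by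
  rw [s8, ← Real.cos_pi_div_two_sub]; congr 1; ring

lemma sin_three : Real.sin (Real.pi / 8 * 3) = c8 := by
  rw [c8, ← Real.sin_pi_div_two_sub]; congr 1; ring

noncomputable def om (p q : V) (l : List V) : ℝ := Real.cos (Real.pi / 8 * wind p q l) * wt l
noncomputable def im (p q : V) (l : List V) : ℝ := Real.sin (Real.pi / 8 * wind p q l) * wt l

lemma om_le (p q : V) (l : List V) : om p q l ≤ wt l := by
  have := Real.cos_le_one (Real.pi / 8 * wind p q l)
  have := wt_pos l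
  unfold om
  nlinarith

def Conv (D : Set V) : Prop := ∀ a ∈ D, ∀ b ∈ D, ∀ z, Valid a → Valid b → Valid z →
  cY a = cY z → cY b = cY z → cX a < cX z → cX z < cX b → z ∈ D

lemma Conv.inter {D D' : Set V} (h : Conv D) (h' : Conv D') : Conv (D ∩ D') :=
  fun a ha b hb z v1 v2 v3 e1 e2 e3 e4 =>
    ⟨h a ha.1 b hb.1 z v1 v2 v3 e1 e2 e3 e4, h' a ha.2 b hb.2 z v1 v2 v3 e1 e2 e3 e4⟩

structure Good (D : Set V) (p q : V) : Prop where
  up : UpE p q
  fin : D.Finite
  conv : Conv D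
  ab : ∀ u ∈ D, q.k ≤ u.k

lemma Good.inter {D D' : Set V} {p q : V} (h : Good D p q) (h' : Conv D') : Good (D ∩ D') p q :=
  ⟨h.up, h.fin.subset Set.inter_subset_left, h.conv.inter h', fun u hu => h.ab u hu.1⟩

section
variable {D D' : Set V} {p q : V} {l : List V}

lemma Good.finE (h : Good D p q) : (Exit D p q).Finite := finite_exit h.fin p q

lemma Good.finP (h : Good D p q) (P : List V → Prop) : {l | l ∈ Exit D p q ∧ P l}.Finite :=
  h.finE.subset fun _ h => h.1

theorem Good.ident_re (h : Good D p q) : ms (om p q) (Exit D p q) = 1 := by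
  have := ident_complex h.up h.ab h.fin
  rw [finsum_mem_eq_finite_toFinset_sum _ h.finE] at this
  rw [ms_eq_sum h.finE]
  have h2 := congrArg Complex.re this
  rw [Complex.re_sum, Complex.one_re] at h2
  rw [← h2]
  refine Finset.sum_congr rfl fun l _ => ?_
  rw [cf, ← Complex.ofReal_pow, Complex.re_ofReal_mul, ph_re, om, wt, mul_comm]

theorem Good.ident_im (h : Good D p q) : ms (im p q) (Exit D p q) = 0 := by
  have := ident_complex h.up h.ab h.fin
  rw [finsum_mem_eq_finite_toFinset_sum _ h.finE] at this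
  rw [ms_eq_sum h.finE]
  have h2 := congrArg Complex.im this
  rw [Complex.im_sum, Complex.one_im] at h2
  rw [← h2]
  refine Finset.sum_congr rfl fun l _ => ?_
  rw [cf, ← Complex.ofReal_pow, Complex.im_ofReal_mul, ph_im, im, wt, mul_comm]

lemma Good.cY_lt (h : Good D p q) {u : V} (hu : u ∈ D) (hv : Valid u) : cY p < cY u := by
  have h1 := h.up.1
  have h2 : q.k = p.k + 1 := by rw [h.up.2]
  have h3 := h.ab u hu
  unfold Valid at hv
  unfold cY
  omega

lemma Exit.cases (hl : l ∈ Exit D p q) {u : V} (hu : u ∈ p :: q :: l) :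
    u = p ∨ u ∈ D ∨ u = lv q l := by
  rcases List.mem_cons.1 hu with e | hu
  · exact Or.inl e
  · exact Or.inr (hl.2.1.mem hu)

lemma Good.wind_bound (h : Good D p q) (hl : l ∈ Exit D p q) :
    -4 ≤ wind p q l ∧ wind p q l ≤ 4 := by
  have hY := cY_le_inn h.up h.ab hl.1 hl.2.1
  by_cases h1 : ∀ u ∈ p :: q :: l, ¬ (cY u = cY (lv q l) ∧ cX (lv q l) < cX u)
  · have := wind_right h.up hl.1 hY h1; omega
  by_cases h2 : ∀ u ∈ p :: q :: l, ¬ (cY u = cY (lv q l) ∧ cX u < cX (lv q l))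
  · have := wind_left h.up hl.1 hY h2; omega
  exfalso
  simp only [not_forall, not_not] at h1 h2
  obtain ⟨b, hb, b1, b2⟩ := h1
  obtain ⟨a, ha, a1, a2⟩ := h2
  have va := hl.1.valid ha
  have vb := hl.1.valid hb
  rcases Exit.cases hl ha with ea | ha' | ea
  · rcases Exit.cases hl hb with eb | hb' | eb
    · rw [ea] at a2; rw [eb] at b2; omega
    · have := h.cY_lt hb' vb; rw [ea] at a1; omega
    · rw [eb] at b2; omega
  · rcases Exit.cases hl hb with eb | hb' | eb
    · have := h.cY_lt ha' va; rw [eb] at b1; omega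
    · exact hl.2.2 (h.conv a ha' b hb' _ va vb hl.1.adj_last.valid_right a1 b1 a2 b2)
    · rw [eb] at b2; omega
  · rw [ea] at a2; omega

lemma Good.om_nonneg (h : Good D p q) (hl : l ∈ Exit D p q) : 0 ≤ om p q l := by
  obtain ⟨h1, h2⟩ := h.wind_bound hl
  have h1' : (-4 : ℝ) ≤ wind p q l := by exact_mod_cast h1
  have h2' : (wind p q l : ℝ) ≤ 4 := by exact_mod_cast h2
  have := Real.pi_pos
  refine mul_nonneg (Real.cos_nonneg_of_mem_Icc ⟨?_, ?_⟩) (wt_pos l).le <;> nlinarith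

lemma UpE.dirI (h : UpE p q) : dirI p q = 0 := by rw [h.2]; simp [SAW.dirI]

lemma Good.wind_top (h : Good D p q) (hl : l ∈ Exit D p q)
    (e : (lv q l).k = (pv p q l).k + 1) : wind p q l = 0 := by
  have h1 := h.wind_bound hl
  have h2 := hl.1.wind_mod
  rw [h.up.dirI, dirI, if_pos e] at h2
  omega

lemma Good.wind_l (h : Good D p q) (hl : l ∈ Exit D p q)
    (e : (lv q l).j = (pv p q l).j - 1) : wind p q l = 1 := by
  have h1 := h.wind_bound hl
  have h2 := hl.1.wind_mod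
  have h3 := adj_iff.1 hl.1.adj_last
  rw [h.up.dirI, dirI, if_neg (by omega), if_pos e] at h2
  omega

lemma Good.wind_r (h : Good D p q) (hl : l ∈ Exit D p q)
    (e : (lv q l).i = (pv p q l).i - 1) : wind p q l = -1 := by
  have h1 := h.wind_bound hl
  have h2 := hl.1.wind_mod
  have h3 := adj_iff.1 hl.1.adj_last
  rw [h.up.dirI, dirI, if_neg (by omega), if_neg (by omega), if_neg (by omega), if_neg (by omega),
    if_neg (by omega)] at h2
  omega

lemma Good.bot (h : Good D p q) (hl : l ∈ Exit D p q) (e : (lv q l).k < q.k) :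
    l ≠ [] ∧ pv p q l ∈ D ∧ (lv q l).k = p.k ∧ (lv q l).i + (lv q l).j = p.i + p.j ∧
      pv p q l = ⟨(lv q l).i, (lv q l).j, q.k⟩ ∧ (lv q l).i ≠ p.i := by
  have h0 : l ≠ [] := by rintro rfl; simp at e
  have h1 := hl.2.1.pv_mem (p := p) h0
  have h2 := h.ab _ h1
  have h3 := adj_iff.1 hl.1.adj_last
  have h4 := h.up.1
  have h5 : q.k = p.k + 1 := by rw [h.up.2]
  have h6 : p ≠ lv q l := fun e => (List.nodup_cons.1 hl.1.2).1 (e ▸ lv_mem q l)
  refine ⟨h0, h1, by omega, by omega, ?_, fun e' => h6 ?_⟩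
  · rw [V.ext_iff]; dsimp only; omega
  · rw [V.ext_iff]; omega

lemma Good.wind_bot (h : Good D p q) (hl : l ∈ Exit D p q) (e : (lv q l).k < q.k) :
    ((lv q l).i < p.i → wind p q l = -3) ∧ (p.i ≤ (lv q l).i → wind p q l = 3) := by
  obtain ⟨-, -, b1, b2, b3, b4⟩ := h.bot hl e
  have hY := cY_le_inn h.up h.ab hl.1 hl.2.1
  have h2 := hl.1.wind_mod
  have h5 : q.k = p.k + 1 := by rw [h.up.2]
  rw [h.up.dirI, b3, dirI, if_neg (by dsimp only; omega), if_neg (by dsimp only; omega),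
    if_neg (by dsimp only; omega), if_pos (by dsimp only; omega)] at h2
  have yz : cY (lv q l) = cY p := by unfold cY; omega
  constructor
  · intro hi
    have := wind_right h.up hl.1 hY fun u hu hh => by
      rcases Exit.cases hl hu with rfl | hu' | rfl
      · have := hh.2; unfold cX at this; omega
      · have := h.cY_lt hu' (hl.1.valid hu); omega
      · omega
    omega
  · intro hi
    have := wind_left h.up hl.1 hY fun u hu hh => by
      rcases Exit.cases hl hu with rfl | hu' | rfl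
      · have := hh.2; unfold cX at this; omega
      · have := h.cY_lt hu' (hl.1.valid hu); omega
      · omega
    omega

lemma Good.om_top (h : Good D p q) (hl : l ∈ Exit D p q)
    (e : (lv q l).k = (pv p q l).k + 1) : om p q l = 1 * wt l := by
  simp [om, h.wind_top hl e]

lemma Good.om_l (h : Good D p q) (hl : l ∈ Exit D p q)
    (e : (lv q l).j = (pv p q l).j - 1) : om p q l = c8 * wt l ∧ im p q l = s8 * wt l := by
  simp [om, im, h.wind_l hl e, c8, s8]

lemma Good.om_r (h : Good D p q) (hl : l ∈ Exit D p q)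
    (e : (lv q l).i = (pv p q l).i - 1) : om p q l = c8 * wt l ∧ im p q l = -s8 * wt l := by
  simp [om, im, h.wind_r hl e, c8, s8]

lemma Good.om_bot (h : Good D p q) (hl : l ∈ Exit D p q) (e : (lv q l).k < q.k) :
    om p q l = s8 * wt l := by
  obtain ⟨h1, h2⟩ := h.wind_bot hl e
  rcases lt_or_ge (lv q l).i p.i with e | e
  · simp [om, h1 e, cos_three]
  · simp [om, h2 e, cos_three]

lemma Good.im_bot (h : Good D p q) (hl : l ∈ Exit D p q) (e : (lv q l).k < q.k) :
    ((lv q l).i < p.i → im p q l = -c8 * wt l) ∧ (p.i ≤ (lv q l).i → im p q l = c8 * wt l) := by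
  obtain ⟨h1, h2⟩ := h.wind_bot hl e
  exact ⟨fun e => by simp [im, h1 e, sin_three], fun e => by simp [im, h2 e, sin_three]⟩

/-- the mass leaving `D` into `D'` equals the mass of the exits of `D'` that leave `D` -/
theorem transfer (h : Good D p q) (h' : Good D' p q) (hs : D ⊆ D') :
    ms (om p q) {l | l ∈ Exit D p q ∧ lv q l ∈ D'} =
      ms (om p q) {l | l ∈ Exit D' p q ∧ ¬ Inn D q l} := by
  have e1 := ms_split (f := om p q) h.finE fun l => lv q l ∈ D'
  have e2 := ms_split (f := om p q) h'.finE fun l => Inn D q l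
  rw [h.ident_re] at e1
  rw [h'.ident_re] at e2
  have : {l | l ∈ Exit D p q ∧ ¬ lv q l ∈ D'} = {l | l ∈ Exit D' p q ∧ Inn D q l} := by
    ext l
    exact ⟨fun a => ⟨⟨a.1.1, a.1.2.1.mono hs, a.2⟩, a.1.2.1⟩,
      fun a => ⟨⟨a.1.1, a.2, fun b => a.1.2.2 (hs b)⟩, a.1.2.2⟩⟩
  rw [this] at e1
  linarith

/-- walks leaving `D` through the bottom row -/
def Bot (D : Set V) (p q : V) : Set (List V) := {l | l ∈ Exit D p q ∧ (lv q l).k < q.k}

/-- escape mass -/
noncomputable def esc (D : Set V) (p q : V) : ℝ :=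
  ms (om p q) {l | l ∈ Exit D p q ∧ ¬ (lv q l).k < q.k}

lemma Good.finB (h : Good D p q) : (Bot D p q).Finite := h.finP _

lemma Good.esc_eq (h : Good D p q) : esc D p q + s8 * mu (Bot D p q) = 1 := by
  have e1 := ms_split (f := om p q) h.finE fun l => (lv q l).k < q.k
  rw [h.ident_re, ms_eq_mul (c := s8) (h.finP _) fun l hl => h.om_bot hl.1 hl.2] at e1
  unfold esc Bot
  linarith

lemma Good.esc_nonneg (h : Good D p q) : 0 ≤ esc D p q := ms_nonneg fun _ hl => h.om_nonneg hl.1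

lemma Good.esc_le_one (h : Good D p q) : esc D p q ≤ 1 := by
  have := h.esc_eq
  nlinarith [s8_pos, mu_nonneg (Bot D p q)]

lemma Bot_mono (h' : Good D' p q) (hs : D ⊆ D') : Bot D p q ⊆ Bot D' p q :=
  fun _ a => ⟨⟨a.1.1, a.1.2.1.mono hs, fun b => absurd (h'.ab _ b) (not_le.2 a.2)⟩, a.2⟩

lemma esc_sub (h : Good D p q) (h' : Good D' p q) (hs : D ⊆ D') :
    esc D p q = esc D' p q + s8 * mu {l | l ∈ Bot D' p q ∧ ¬ Inn D q l} := by
  have e1 := h.esc_eq
  have e2 := h'.esc_eq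
  have e3 := mu_split h'.finB fun l => Inn D q l
  have : {l | l ∈ Bot D' p q ∧ Inn D q l} = Bot D p q := by
    ext l
    exact ⟨fun a => ⟨⟨a.1.1.1, a.2, fun b => a.1.1.2.2 (hs b)⟩, a.1.2⟩,
      fun a => ⟨Bot_mono h' hs a, a.1.2.1⟩⟩
  rw [this] at e3
  rw [e3] at e2
  linarith

lemma esc_anti (h : Good D p q) (h' : Good D' p q) (hs : D ⊆ D') : esc D' p q ≤ esc D p q := by
  rw [esc_sub h h' hs]
  nlinarith [s8_pos, mu_nonneg {l | l ∈ Bot D' p q ∧ ¬ Inn D q l}]

end

/-- lattice symmetries -/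
def IsSym (g : V → V) : Prop := Function.Injective g ∧ ∀ u v, Adj u v → Adj (g u) (g v)

@[simp] lemma lv_map (g : V → V) (q : V) (l : List V) : lv (g q) (l.map g) = g (lv q l) := by
  induction l generalizing q with
  | nil => rfl
  | cons r l ih => exact ih r

@[simp] lemma pv_map (g : V → V) (p q : V) (l : List V) :
    pv (g p) (g q) (l.map g) = g (pv p q l) := by
  induction l generalizing p q with
  | nil => rfl
  | cons r l ih => exact ih q r

lemma Inn.map {D D' : Set V} {g : V → V} (h : ∀ u ∈ D, g u ∈ D') {q : V} {l : List V}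
    (hl : Inn D q l) : Inn D' (g q) (l.map g) := by
  induction l generalizing q with
  | nil => trivial
  | cons r l ih => exact ⟨h q hl.1, ih hl.2⟩

lemma Inn.of_map {D D' : Set V} {g : V → V} (h : ∀ u, g u ∈ D' → u ∈ D) {q : V} {l : List V}
    (hl : Inn D' (g q) (l.map g)) : Inn D q l := by
  induction l generalizing q with
  | nil => trivial
  | cons r l ih => exact ⟨h q hl.1, ih hl.2⟩

lemma Saw.map {g : V → V} (hg : IsSym g) {p q : V} {l : List V} (h : Saw p q l) :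
    Saw (g p) (g q) (l.map g) :=
  ⟨List.isChain_map_of_isChain g hg.2 h.1, (List.Nodup.map hg.1 h.2 : ((p :: q :: l).map g).Nodup)⟩

lemma mu_le_map {g : V → V} (hg : IsSym g) {S T : Set (List V)} (hT : T.Finite)
    (h : ∀ l ∈ S, l.map g ∈ T) : mu S ≤ mu T :=
  mu_le_of_inj hT (List.map g) h (fun _ _ _ _ e => List.map_injective_iff.2 hg.1 e)
    fun l _ => List.length_map g

/-- the reversed walk, started from the reversed last edge -/
def rev : V → V → List V → List V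
  | _, _, [] => []
  | p, q, r :: l => rev q r l ++ [p]

lemma rev_eq (p q : V) (l : List V) :
    (p :: q :: l).reverse = lv q l :: pv p q l :: rev p q l := by
  induction l generalizing p q with
  | nil => rfl
  | cons r l ih => rw [List.reverse_cons, ih]; rfl

lemma lv_rev (p q : V) (l : List V) : lv (pv p q l) (rev p q l) = p := by
  rcases l with _ | ⟨r, l⟩
  · rfl
  · simp [rev]

lemma pv_rev (p q : V) (l : List V) : pv (lv q l) (pv p q l) (rev p q l) = q := by
  rcases l with _ | ⟨r, l⟩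
  · rfl
  · simp [rev, lv_rev]

lemma Inn.rev {D : Set V} {p q : V} {l : List V} (h : Inn D q l) :
    Inn D (pv p q l) (rev p q l) := by
  induction l generalizing p q with
  | nil => trivial
  | cons r l ih =>
    simp only [SAW.rev, pv_cons, Inn_append, lv_rev]
    exact ⟨ih h.2, h.1, trivial⟩

lemma Inn.of_rev {D : Set V} {p q : V} {l : List V} (h : Inn D (pv p q l) (SAW.rev p q l)) :
    Inn D q l := by
  induction l generalizing p q with
  | nil => trivial
  | cons r l ih =>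
    simp only [SAW.rev, pv_cons, Inn_append, lv_rev] at h
    exact ⟨h.2.1, ih h.1⟩

lemma Saw.rev {p q : V} {l : List V} (h : Saw p q l) : Saw (lv q l) (pv p q l) (rev p q l) := by
  unfold Saw
  rw [← rev_eq]
  exact ⟨List.isChain_reverse.2 (h.1.imp fun _ _ a => a.symm), List.nodup_reverse.2 h.2⟩

lemma length_rev (p q : V) (l : List V) : (rev p q l).length = l.length := by
  induction l generalizing p q with
  | nil => rfl
  | cons r l ih => simp [rev, ih]

lemma mu_le_rev {g : V → V} (hg : IsSym g) {p q p' q' : V} {S T : Set (List V)} (hT : T.Finite)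
    (he : ∀ l ∈ S, pv p q l = p' ∧ lv q l = q') (h : ∀ l ∈ S, (rev p q l).map g ∈ T) :
    mu S ≤ mu T := by
  refine mu_le_of_inj hT (fun l => (rev p q l).map g) h (fun a ha b hb e => ?_)
    fun l _ => by simp [length_rev]
  have e1 : rev p q a = rev p q b := List.map_injective_iff.2 hg.1 e
  have e2 : (p :: q :: a).reverse = (p :: q :: b).reverse := by
    rw [rev_eq, rev_eq, e1, (he a ha).1, (he a ha).2, (he b hb).1, (he b hb).2]
  simpa using e2

def gT (a b c : ℤ) (v : V) : V := ⟨v.i + a, v.j + b, v.k + c⟩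
def gM (a b c : ℤ) (v : V) : V := ⟨v.j + a, v.i + b, v.k + c⟩
def gS (a b c : ℤ) (v : V) : V := ⟨v.k + a, v.j + b, v.i + c⟩
def gC (a b c : ℤ) (v : V) : V := ⟨v.j + a, v.k + b, v.i + c⟩
def gR (a b c : ℤ) (v : V) : V := ⟨a - v.i, b - v.j, c - v.k⟩
def gH (a b c : ℤ) (v : V) : V := ⟨a - v.j, b - v.i, c - v.k⟩
def gD (a b c : ℤ) (v : V) : V := ⟨a - v.k, b - v.i, c - v.j⟩
def gE (a b c : ℤ) (v : V) : V := ⟨a - v.j, b - v.k, c - v.i⟩

lemma sym_T {a b c : ℤ} (h : a + b + c = 0) : IsSym (gT a b c) := by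
  refine ⟨fun u v e => ?_, fun u v e => ?_⟩
  · simp only [gT, V.ext_iff] at e ⊢; omega
  · rcases e with ⟨h0, rfl | rfl | rfl⟩ | ⟨h0, rfl | rfl | rfl⟩ <;> rw [adj_iff] <;>
      dsimp only [gT] <;> omega

lemma sym_M {a b c : ℤ} (h : a + b + c = 0) : IsSym (gM a b c) := by
  refine ⟨fun u v e => ?_, fun u v e => ?_⟩
  · simp only [gM, V.ext_iff] at e ⊢; omega
  · rcases e with ⟨h0, rfl | rfl | rfl⟩ | ⟨h0, rfl | rfl | rfl⟩ <;> rw [adj_iff] <;>
      dsimp only [gM] <;> omega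

lemma sym_S {a b c : ℤ} (h : a + b + c = 0) : IsSym (gS a b c) := by
  refine ⟨fun u v e => ?_, fun u v e => ?_⟩
  · simp only [gS, V.ext_iff] at e ⊢; omega
  · rcases e with ⟨h0, rfl | rfl | rfl⟩ | ⟨h0, rfl | rfl | rfl⟩ <;> rw [adj_iff] <;>
      dsimp only [gS] <;> omega

lemma sym_C {a b c : ℤ} (h : a + b + c = 0) : IsSym (gC a b c) := by
  refine ⟨fun u v e => ?_, fun u v e => ?_⟩
  · simp only [gC, V.ext_iff] at e ⊢; omega
  · rcases e with ⟨h0, rfl | rfl | rfl⟩ | ⟨h0, rfl | rfl | rfl⟩ <;> rw [adj_iff] <;>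
      dsimp only [gC] <;> omega

lemma sym_R {a b c : ℤ} (h : a + b + c = 3) : IsSym (gR a b c) := by
  refine ⟨fun u v e => ?_, fun u v e => ?_⟩
  · simp only [gR, V.ext_iff] at e ⊢; omega
  · rcases e with ⟨h0, rfl | rfl | rfl⟩ | ⟨h0, rfl | rfl | rfl⟩ <;> rw [adj_iff] <;>
      dsimp only [gR] <;> omega

lemma sym_H {a b c : ℤ} (h : a + b + c = 3) : IsSym (gH a b c) := by
  refine ⟨fun u v e => ?_, fun u v e => ?_⟩
  · simp only [gH, V.ext_iff] at e ⊢; omega
  · rcases e with ⟨h0, rfl | rfl | rfl⟩ | ⟨h0, rfl | rfl | rfl⟩ <;> rw [adj_iff] <;>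
      dsimp only [gH] <;> omega

lemma sym_D {a b c : ℤ} (h : a + b + c = 3) : IsSym (gD a b c) := by
  refine ⟨fun u v e => ?_, fun u v e => ?_⟩
  · simp only [gD, V.ext_iff] at e ⊢; omega
  · rcases e with ⟨h0, rfl | rfl | rfl⟩ | ⟨h0, rfl | rfl | rfl⟩ <;> rw [adj_iff] <;>
      dsimp only [gD] <;> omega

lemma sym_E {a b c : ℤ} (h : a + b + c = 3) : IsSym (gE a b c) := by
  refine ⟨fun u v e => ?_, fun u v e => ?_⟩
  · simp only [gE, V.ext_iff] at e ⊢; omega
  · rcases e with ⟨h0, rfl | rfl | rfl⟩ | ⟨h0, rfl | rfl | rfl⟩ <;> rw [adj_iff] <;>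
      dsimp only [gE] <;> omega

end Pool.Agent.Lib.MP_4960b8_pr.SAW
end

-- part Pool.Agent.Lib.MP_4960b8_pr.SAW.Bridge
section

/-!
Triangles, bridges and the lower bound on the escape mass.
-/

namespace Pool.Agent.Lib.MP_4960b8_pr.SAW

def Tr (a b c : ℤ) : Set V := {v | Valid v ∧ a ≤ v.i ∧ b ≤ v.j ∧ c ≤ v.k}

lemma mem_Tr {a b c : ℤ} {v : V} : v ∈ Tr a b c ↔
    (v.i + v.j + v.k = 1 ∨ v.i + v.j + v.k = 2) ∧ a ≤ v.i ∧ b ≤ v.j ∧ c ≤ v.k := Iff.rfl

lemma mem_tri {n : ℤ} {v : V} : v ∈ tri n ↔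
    (v.i + v.j + v.k = 1 ∨ v.i + v.j + v.k = 2) ∧ 0 ≤ v.k ∧ 1 - n ≤ v.i ∧ 1 - n ≤ v.j := Iff.rfl

lemma Tr_finite (a b c : ℤ) : (Tr a b c).Finite := by
  refine Set.Finite.subset (Set.Finite.image (fun x : ℤ × ℤ × ℤ => (⟨x.1, x.2.1, x.2.2⟩ : V))
    ((Set.finite_Icc a (2 - b - c)).prod ((Set.finite_Icc b (2 - a - c)).prod
      (Set.finite_Icc c (2 - a - b))))) fun v hv => ⟨(v.i, v.j, v.k), ?_, rfl⟩
  rw [mem_Tr] at hv
  simp only [Set.mem_prod, Set.mem_Icc]
  omega

lemma Tr_conv (a b c : ℤ) : Conv (Tr a b c) := by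
  intro x hx y hy z v1 v2 v3 e1 e2 e3 e4
  rw [mem_Tr] at *
  unfold Valid cX cY at *
  omega

lemma tri_finite (n : ℤ) : (tri n).Finite :=
  (Tr_finite (1 - n) (1 - n) 0).subset fun v hv => by rw [mem_Tr]; rw [mem_tri] at hv; tauto

lemma tri_conv (n : ℤ) : Conv (tri n) := by
  intro x hx y hy z v1 v2 v3 e1 e2 e3 e4
  rw [mem_tri] at *
  unfold Valid cX cY at *
  omega

lemma conv_k (P : ℤ → Prop) : Conv {v | P v.k} := by
  intro x hx y hy z v1 v2 v3 e1 e2 e3 e4
  have : z.k = x.k := by unfold Valid cY at *; omega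
  show P z.k
  rw [this]; exact hx

lemma conv_i_ge (c : ℤ) : Conv {v | c ≤ v.i} := by
  intro x hx y hy z v1 v2 v3 e1 e2 e3 e4
  simp only [Set.mem_ofPred_eq] at *
  unfold Valid cX cY at *
  omega

lemma conv_j_le (c : ℤ) : Conv {v | v.j ≤ c} := by
  intro x hx y hy z v1 v2 v3 e1 e2 e3 e4
  simp only [Set.mem_ofPred_eq] at *
  unfold Valid cX cY at *
  omega

def p0 : V := ⟨1, 1, -1⟩
def q0 : V := ⟨1, 1, 0⟩

lemma up0 : UpE p0 q0 := ⟨by simp [p0], by simp [p0, q0]⟩

lemma good_tri (n : ℤ) : Good (tri n) p0 q0 := ⟨up0, tri_finite n, tri_conv n, fun _ h => h.2.1⟩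

lemma tri_mono {n m : ℤ} (h : n ≤ m) : tri n ⊆ tri m := by
  intro v hv; rw [mem_tri] at *; omega

lemma q0_mem {n : ℤ} (h : 0 ≤ n) : q0 ∈ tri n := by rw [mem_tri]; simp only [q0]; omega

/-- escape mass of the triangle of size `n` -/
noncomputable def vv (n : ℕ) : ℝ := esc (tri n) p0 q0

lemma vv_anti {n m : ℕ} (h : n ≤ m) : vv m ≤ vv n :=
  esc_anti (good_tri _) (good_tri _) (tri_mono (by exact_mod_cast h))

lemma vv_le_one (n : ℕ) : vv n ≤ 1 := (good_tri _).esc_le_one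
lemma vv_nonneg (n : ℕ) : 0 ≤ vv n := (good_tri _).esc_nonneg

lemma Exit.pv_mem {D : Set V} {p q : V} {l : List V} (hl : l ∈ Exit D p q) (hq : q ∈ D) :
    pv p q l ∈ D := hl.2.1.pv_mem fun e => hl.2.2 (by rw [e]; exact hq)

lemma exists_tri {A : Set V} (hA : A.Finite) :
    ∃ N : ℤ, ∀ u ∈ A, 1 - N ≤ u.i ∧ 1 - N ≤ u.j := by
  obtain ⟨a, ha⟩ := (hA.image V.i).bddBelow
  obtain ⟨b, hb⟩ := (hA.image V.j).bddBelow
  refine ⟨1 - min a b, fun u hu => ?_⟩
  have h1 := ha ⟨u, hu, rfl⟩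
  have h2 := hb ⟨u, hu, rfl⟩
  omega

def Brg (t : ℤ) (l : List V) : Prop :=
  Saw p0 q0 l ∧ Inn {u | 0 ≤ u.k ∧ u.k < t} q0 l ∧ (lv q0 l).k = t

lemma Inn.imp {D D' : Set V} {p q : V} {l : List V} (hs : Saw p q l) (hl : Inn D q l)
    (h : ∀ u ∈ q :: l, Valid u → u ∈ D → u ∈ D') : Inn D' q l := by
  rw [hs.Inn_iff] at *
  exact fun u hu hne => h u hu (hs.valid (List.mem_cons_of_mem _ hu)) (hl u hu hne)

lemma top_step {p q : V} {l : List V} {t : ℤ} (hu : UpE p q) (hs : Saw p q l)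
    (hi : Inn {u | u.k < t} q l) (ht : (lv q l).k = t) : (lv q l).k = (pv p q l).k + 1 := by
  by_cases hl : l = []
  · subst hl; rw [hu.2]; rfl
  · have h1 : (pv p q l).k < t := hi.pv_mem hl
    have h2 := adj_iff.1 hs.adj_last
    omega

lemma brg_le {t : ℤ} (ht : 0 ≤ t) {S : Set (List V)} (hS : S.Finite) (h : ∀ l ∈ S, Brg t l)
    {D : Set V} (hD : Good D p0 q0) (hv : ∀ u ∈ D, Valid u ∧ u.k < t) : mu S ≤ esc D p0 q0 := by
  obtain ⟨N, hN⟩ := exists_tri (hD.fin.union (hS.biUnion fun l _ => (q0 :: l).finite_toSet))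
  have g : Good (tri N ∩ {u | u.k < t}) p0 q0 := (good_tri N).inter (conv_k (· < t))
  have hs : D ⊆ tri N ∩ {u | u.k < t} := fun u hu =>
    ⟨⟨(hv u hu).1, hD.ab u hu, hN u (Or.inl hu)⟩, (hv u hu).2⟩
  refine le_trans ?_ (esc_anti hD g hs)
  have he : ∀ l ∈ S, l ∈ Exit (tri N ∩ {u | u.k < t}) p0 q0 := by
    intro l hl
    obtain ⟨h1, h2, h3⟩ := h l hl
    refine ⟨h1, h2.imp h1 fun u hu v1 v2 => ⟨⟨v1, v2.1, hN u (Or.inr ?_)⟩, v2.2⟩, fun e => ?_⟩
    · exact Set.mem_biUnion hl hu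
    · exact absurd e.2 (by simp [h3])
  have e1 : ms (om p0 q0) S = 1 * mu S := ms_eq_mul hS fun l hl =>
    g.om_top (he l hl) (top_step up0 (h l hl).1 ((h l hl).2.1.mono fun u hu => hu.2) (h l hl).2.2)
  rw [one_mul] at e1
  rw [← e1]
  refine ms_mono (g.finP _) (fun l hl => ⟨he l hl, ?_⟩) fun l hl => g.om_nonneg hl.1
  rw [(h l hl).2.2]; simp only [q0]; omega

lemma brg_le_frame {g : V → V} (hg : IsSym g) {p q : V} (e1 : g p = p0) (e2 : g q = q0)
    {t : ℤ} (ht : 0 ≤ t) {S : Set (List V)} (hS : S.Finite)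
    (h : ∀ l ∈ S, Saw p q l ∧ Inn {u | 0 ≤ (g u).k ∧ (g u).k < t} q l ∧ (g (lv q l)).k = t)
    {D : Set V} (hD : Good D p0 q0) (hv : ∀ u ∈ D, Valid u ∧ u.k < t) : mu S ≤ esc D p0 q0 := by
  refine (mu_le_map hg (hS.image _) fun l hl => Set.mem_image_of_mem _ hl).trans
    (brg_le ht (hS.image _) ?_ hD hv)
  rintro _ ⟨l, hl, rfl⟩
  obtain ⟨h1, h2, h3⟩ := h l hl
  rw [Brg, ← e1, ← e2, lv_map]
  exact ⟨h1.map hg, Inn.map (g := g) (D' := {u | 0 ≤ u.k ∧ u.k < t}) (fun u hu => hu) h2, h3⟩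

/-- bound for the mass of bridges of height `t` -/
noncomputable def bb (t : ℕ) : ℝ := if t = 0 then 1 else vv ((t - 1) / 2)

lemma bb_anti {s t : ℕ} (h : s ≤ t) : bb t ≤ bb s := by
  unfold bb
  split_ifs with h1 h2 h2
  · exact le_rfl
  · omega
  · exact vv_le_one _
  · exact vv_anti (by omega)

lemma bb_le_vv {n t : ℕ} (h : 2 * n < t) : bb t ≤ vv n := by
  unfold bb
  rw [if_neg (by omega)]
  exact vv_anti (by omega)

lemma vv_le_bb (t : ℕ) : vv t ≤ bb t := by
  unfold bb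
  split_ifs
  · exact vv_le_one _
  · exact vv_anti (by omega)

lemma bb_nonneg (t : ℕ) : 0 ≤ bb t := (vv_nonneg t).trans (vv_le_bb t)

lemma bb_le_one (t : ℕ) : bb t ≤ 1 := (bb_anti (Nat.zero_le t)).trans (by simp [bb])

lemma brg_le_bb {g : V → V} (hg : IsSym g) {p q : V} (e1 : g p = p0) (e2 : g q = q0)
    (t : ℕ) {S : Set (List V)} (hS : S.Finite)
    (h : ∀ l ∈ S, Saw p q l ∧ Inn {u | 0 ≤ (g u).k ∧ (g u).k < t} q l ∧ (g (lv q l)).k = t) :
    mu S ≤ bb t := by
  unfold bb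
  split_ifs with ht
  · have g0 : Good ∅ p0 q0 := ⟨up0, Set.finite_empty, fun a ha => ha.elim, fun a ha => ha.elim⟩
    exact (brg_le_frame hg e1 e2 (by omega) hS h g0 fun u hu => hu.elim).trans g0.esc_le_one
  · refine brg_le_frame hg e1 e2 (by omega) hS h (good_tri _) fun u hu => ⟨hu.1, ?_⟩
    rw [mem_tri] at hu
    omega

lemma first_entry {D : Set V} {q : V} {l : List V} (h : ¬ Inn D q l) :
    ∃ a b, l = a ++ b ∧ Inn D q a ∧ lv q a ∉ D ∧ b ≠ [] := by
  induction l generalizing q with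
  | nil => exact absurd trivial h
  | cons r l ih =>
    by_cases hq : q ∈ D
    · obtain ⟨a, b, e1, e2, e3, e4⟩ := ih (q := r) fun e => h ⟨hq, e⟩
      exact ⟨r :: a, b, by rw [e1]; rfl, ⟨hq, e2⟩, e3, e4⟩
    · exact ⟨[], r :: l, rfl, trivial, hq, by simp⟩

lemma Inn.head {D : Set V} {q : V} {l : List V} (h : Inn D q l) (hl : l ≠ []) : q ∈ D := by
  rcases l with _ | ⟨r, l⟩
  · exact absurd rfl hl
  · exact h.1

lemma Saw.replace {a b r : V} {l : List V} (h : Saw a r l) (hb : Adj b r) (hn : b ∉ r :: l) :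
    Saw b r l :=
  ⟨List.isChain_cons_cons.2 ⟨hb, (List.isChain_cons_cons.1 h.1).2⟩,
    List.nodup_cons.2 ⟨hn, (List.nodup_cons.1 h.2).2⟩⟩

lemma finite_suffix {S : Set (List V)} (hS : S.Finite) (a : List V) : {b | a ++ b ∈ S}.Finite := by
  refine Set.Finite.of_finite_image (f := (a ++ ·)) (hS.subset ?_)
    fun _ _ _ _ h => List.append_cancel_left h
  rintro _ ⟨b, hb, rfl⟩
  exact hb

lemma strip_step (N : ℤ) (T : ℕ) :
    esc (tri N ∩ {u | u.k < T}) p0 q0 ≤ esc (tri N ∩ {u | u.k < T + 1}) p0 q0 *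
      (1 + esc (tri N ∩ {u | u.k < T}) p0 q0) := by
  have g : Good (tri N ∩ {u | u.k < T}) p0 q0 := (good_tri N).inter (conv_k (· < (T : ℤ)))
  have g' : Good (tri N ∩ {u | u.k < T + 1}) p0 q0 := (good_tri N).inter (conv_k (· < (T : ℤ) + 1))
  set D := tri N ∩ {u | u.k < T} with hD
  set D' := tri N ∩ {u | u.k < T + 1} with hD'
  have hs : D ⊆ D' := fun u hu => ⟨hu.1, by have : u.k < T := hu.2; show u.k < T + 1; omega⟩
  have e := esc_sub g g' hs
  have hA : mu {l | l ∈ Exit D p0 q0 ∧ (lv q0 l).k = T} ≤ esc D p0 q0 :=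
    brg_le (t := T) (by omega) (g.finP _)
      (fun l hl => ⟨hl.1.1, Inn.mono (D := D) (fun u hu => And.intro hu.1.2.1 hu.2) hl.1.2.1, hl.2⟩) g
      fun u hu => ⟨hu.1.1, hu.2⟩
  have hB : mu {l | l ∈ Bot D' p0 q0 ∧ ¬ Inn D q0 l} ≤
      mu {l | l ∈ Exit D p0 q0 ∧ (lv q0 l).k = T} * (2 * esc D' p0 q0) := by
    refine mu_concat_le (g.finP _) (fun a => {b | a ++ b ∈ Bot D' p0 q0})
      (fun a _ => finite_suffix g'.finB a) (fun a ha => ?_) fun l hl => ?_
    · have up := top_step up0 ha.1.1 (ha.1.2.1.mono fun u hu => hu.2) ha.2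
      have ad := ha.1.1.adj_last
      have key : ∀ r, Adj (lv q0 a) r → pv p0 q0 a ≠ r →
          mu ((([r] : List V) ++ ·) '' {c | a ++ [r] ++ c ∈ Bot D' p0 q0}) ≤ esc D' p0 q0 := by
        intro r h1 h2
        have fC := finite_suffix g'.finB (a ++ [r])
        have hr : r.k = T ∧ r.i + r.j + r.k = 1 := by
          have b1 := adj_iff.1 ad
          have b2 := adj_iff.1 h1
          have b3 := ha.2
          rw [Ne, V.ext_iff] at h2
          omega
        have : mu {c | a ++ [r] ++ c ∈ Bot D' p0 q0} ≤ esc D' p0 q0 := by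
          refine brg_le_frame (sym_R (a := 1 + r.i) (b := 1 + r.j) (c := r.k) (by omega))
            (p := ⟨r.i, r.j, r.k + 1⟩) (q := r) (by simp [gR, p0]) (by simp [gR, q0])
            (t := T + 1) (by omega) fC (fun c hc => ?_) g' fun u hu => ⟨hu.1.1, hu.2⟩
          obtain ⟨c1, c2⟩ := hc
          have c3 := (g'.bot c1 c2).2.2.1
          obtain ⟨-, s2, -⟩ := saw_append.1 c1.1
          have i2 := ((Inn_append _ _ _ _).1 c1.2.1).2
          simp only [lv_append, lv_cons, lv_nil, p0] at s2 i2 c3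
          refine ⟨s2.replace (Adj.symm (Or.inl ⟨hr.2, Or.inr (Or.inr rfl)⟩)) fun hm => ?_,
            i2.mono fun u hu => ?_, by simp only [gR]; omega⟩
          · rcases i2.mem hm with h | h
            · have : r.k + 1 < T + 1 := h.2
              omega
            · have := congrArg V.k h
              dsimp only at this
              omega
          · have u1 : u.k < T + 1 := hu.2
            have u2 := hu.1.2.1
            simp only [Set.mem_ofPred_eq, gR]
            omega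
        rw [mu_image_append _ fC]
        have w : wt [r] ≤ 1 := by simpa [wt] using xc_le
        nlinarith [mu_nonneg {c | a ++ [r] ++ c ∈ Bot D' p0 q0}, wt_pos [r]]
      have k1 := key _ (adj_Lf ad) (Lf_ne ad).symm
      have k2 := key _ (adj_Rt ad) (Rt_ne ad).symm
      have f1 := (finite_suffix g'.finB (a ++ [Lf (pv p0 q0 a) (lv q0 a)])).image
        (([Lf (pv p0 q0 a) (lv q0 a)] : List V) ++ ·)
      have f2 := (finite_suffix g'.finB (a ++ [Rt (pv p0 q0 a) (lv q0 a)])).image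
        (([Rt (pv p0 q0 a) (lv q0 a)] : List V) ++ ·)
      refine le_trans (mu_mono (f1.union f2) fun b hb => ?_)
        ((mu_union_le f1 f2).trans (by linarith))
      rcases b with _ | ⟨r, c⟩
      · have := hb.2
        have := ha.2
        simp only [List.append_nil, q0] at *
        omega
      · obtain ⟨-, s2, s3'⟩ := saw_append.1 hb.1.1
        rcases adj_cases ad s2.tail.adj (fun e => s3' _ (pv_mem p0 q0 a) (by simp [e])) with e | e
        · subst e; exact Or.inl ⟨c, by simpa using hb, rfl⟩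
        · subst e; exact Or.inr ⟨c, by simpa using hb, rfl⟩
    · obtain ⟨a, b, e1, e2, e3, e4⟩ := first_entry hl.2
      subst e1
      have i1 := (((Inn_append _ _ _ _).1 hl.1.1.2.1).2).head e4
      refine ⟨a, ⟨⟨(saw_append.1 hl.1.1.1).1, e2, e3⟩, ?_⟩, b, hl.1, rfl⟩
      have j1 : (lv q0 a).k < T + 1 := i1.2
      have j2 : ¬ (lv q0 a).k < T := fun h => e3 ⟨i1.1, h⟩
      omega
  have n1 := g.esc_nonneg
  have n2 := g'.esc_nonneg
  have n3 := mul_le_mul_of_nonneg_right hA (by linarith : 0 ≤ 2 * esc D' p0 q0)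
  have n4 := mu_nonneg {l | l ∈ Bot D' p0 q0 ∧ ¬ Inn D q0 l}
  nlinarith [s8_le, s8_pos, mul_nonneg n1 n2]

lemma strip_lower (N : ℤ) (T : ℕ) : 1 / ((T : ℝ) + 1) ≤ esc (tri N ∩ {u | u.k < T}) p0 q0 := by
  induction T with
  | zero =>
    have g : Good (tri N ∩ {u | u.k < ((0 : ℕ) : ℤ)}) p0 q0 :=
      (good_tri N).inter (conv_k (· < ((0 : ℕ) : ℤ)))
    have e := g.esc_eq
    have : Bot (tri N ∩ {u | u.k < ((0 : ℕ) : ℤ)}) p0 q0 = ∅ := by
      refine Set.eq_empty_of_forall_notMem fun l hl => ?_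
      have h := (g.bot hl.1 hl.2).2.1
      have h1 := h.1.2.1
      have h2 : (pv p0 q0 l).k < ((0 : ℕ) : ℤ) := h.2
      omega
    rw [this, mu, ms_empty] at e
    norm_num at e ⊢
    exact e.ge
  | succ T ih =>
    have h := strip_step N T
    have g' : Good (tri N ∩ {u | u.k < T + 1}) p0 q0 :=
      (good_tri N).inter (conv_k (· < (T : ℤ) + 1))
    have n2 := g'.esc_nonneg
    have g : Good (tri N ∩ {u | u.k < T}) p0 q0 := (good_tri N).inter (conv_k (· < (T : ℤ)))
    have n3 := g'.esc_le_one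
    push_cast
    have hT : (0 : ℝ) ≤ T := Nat.cast_nonneg T
    rw [div_le_iff₀ (by positivity)] at ih ⊢
    by_contra hc
    rw [not_le] at hc
    nlinarith

theorem vv_lower (n : ℕ) : 1 / (2 * (n : ℝ) + 2) ≤ vv n := by
  have h := strip_lower n (2 * n + 1)
  have g : Good (tri n ∩ {u | u.k < ((2 * n + 1 : ℕ) : ℤ)}) p0 q0 :=
    (good_tri n).inter (conv_k (· < ((2 * n + 1 : ℕ) : ℤ)))
  have h2 := esc_anti (good_tri n) g fun u hu => ⟨hu, by
    rw [mem_tri] at hu; show u.k < _; omega⟩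
  push_cast at h h2
  unfold vv
  refine le_trans (le_of_eq ?_) (h.trans h2)
  ring

lemma vv_pos (n : ℕ) : 0 < vv n := lt_of_lt_of_le (by positivity) (vv_lower n)

/-- exits of the triangle through the right side -/
def RE (n : ℤ) : Set (List V) := {l | l ∈ Exit (tri n) p0 q0 ∧ (lv q0 l).i < 1 - n}

/-- exits of the triangle through the left side -/
def LE (n : ℤ) : Set (List V) := {l | l ∈ Exit (tri n) p0 q0 ∧ (lv q0 l).j < 1 - n}

lemma RE_fin (n : ℤ) : (RE n).Finite := (good_tri n).finP _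
lemma LE_fin (n : ℤ) : (LE n).Finite := (good_tri n).finP _

lemma mirror_exit {n : ℤ} {l : List V} (h : l ∈ Exit (tri n) p0 q0) :
    l.map (gM 0 0 0) ∈ Exit (tri n) p0 q0 ∧ lv q0 (l.map (gM 0 0 0)) = gM 0 0 0 (lv q0 l) := by
  have e1 : gM 0 0 0 p0 = p0 := by simp [gM, p0]
  have e2 : gM 0 0 0 q0 = q0 := by simp [gM, q0]
  have e3 : lv q0 (l.map (gM 0 0 0)) = gM 0 0 0 (lv q0 l) := by
    have := lv_map (gM 0 0 0) q0 l; rwa [e2] at this
  refine ⟨⟨?_, ?_, ?_⟩, e3⟩
  · have := h.1.map (sym_M (a := 0) (b := 0) (c := 0) rfl)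
    rwa [e1, e2] at this
  · have := h.2.1.map (D' := tri n) (g := gM 0 0 0) fun u hu => by
      rw [mem_tri] at *; dsimp only [gM]; omega
    rwa [e2] at this
  · rw [e3]
    intro hm
    apply h.2.2
    rw [mem_tri] at *
    dsimp only [gM] at hm
    omega

lemma LE_le_RE (n : ℤ) : mu (LE n) ≤ mu (RE n) :=
  mu_le_map (sym_M (a := 0) (b := 0) (c := 0) rfl) (RE_fin n) fun l hl =>
    ⟨(mirror_exit hl.1).1, by rw [(mirror_exit hl.1).2]; simpa [gM] using hl.2⟩

lemma RE_step {n : ℤ} (hn : 0 ≤ n) {l : List V} (h : l ∈ RE n) :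
    (pv p0 q0 l) ∈ tri n ∧ (lv q0 l).i = -n ∧ (pv p0 q0 l) = ⟨1 - n, (lv q0 l).j, (lv q0 l).k⟩ ∧
      (lv q0 l).j + (lv q0 l).k = 1 + n := by
  have h1 := Exit.pv_mem h.1 (q0_mem hn)
  have h2 := adj_iff.1 h.1.1.adj_last
  have h3 := h.2
  refine ⟨h1, ?_⟩
  rw [mem_tri] at h1
  rw [V.ext_iff]
  dsimp only
  omega

lemma vv_le_RE (n : ℕ) : vv n ≤ 2 * mu (RE n) := by
  have g := good_tri n
  have h1 : vv n ≤ mu {l | l ∈ Exit (tri n) p0 q0 ∧ ¬ (lv q0 l).k < q0.k} :=
    ms_le_ms (g.finP _) fun l _ => om_le _ _ _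
  have h2 := mu_mono ((RE_fin n).union (LE_fin n))
    (S := {l | l ∈ Exit (tri n) p0 q0 ∧ ¬ (lv q0 l).k < q0.k}) fun l hl => by
      have a1 := hl.1.2.2
      have a2 := hl.2
      have a3 := hl.1.1.adj_last.valid_right
      rw [mem_tri] at a1
      unfold Valid at a3
      have : q0.k = 0 := rfl
      by_cases a4 : (lv q0 l).i < 1 - n
      · exact Or.inl ⟨hl.1, a4⟩
      · exact Or.inr ⟨hl.1, by omega⟩
  have h3 := mu_union_le (RE_fin n) (LE_fin n)
  have h4 := LE_le_RE n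
  linarith

end Pool.Agent.Lib.MP_4960b8_pr.SAW
end
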