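import Mathlib

/-!
The hexagonal lattice in symmetric coordinates and the critical self-avoiding walk measure.
-/

namespace Pool.Agent.Lib.MP_4960b8_pr.SAW

/-- Integer triples. The vertices of the hexagonal lattice are the triples with `i + j + k` equal
to `1` or `2`; the triple `(i, j, k)` sits at the point
`i e(210 deg) + j e(330 deg) + k e(90 deg)` of the plane. -/
@[ext] structure V where
  i : ℤ
  j : ℤ
  k : ℤ
deriving DecidableEq

/-- Adjacency in the hexagonal lattice: a triple of sum `1` is joined to the three triples of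
sum `2` obtained by adding `1` to one coordinate (and conversely). -/
def Adj (u v : V) : Prop :=
  (u.i + u.j + u.k = 1 ∧
    (v = ⟨u.i + 1, u.j, u.k⟩ ∨ v = ⟨u.i, u.j + 1, u.k⟩ ∨ v = ⟨u.i, u.j, u.k + 1⟩)) ∨
  (u.i + u.j + u.k = 2 ∧
    (v = ⟨u.i - 1, u.j, u.k⟩ ∨ v = ⟨u.i, u.j - 1, u.k⟩ ∨ v = ⟨u.i, u.j, u.k - 1⟩))

/-- The critical weight `x_c(0) = (2 + sqrt 2)^(-1/2)`. -/
noncomputable def xc : ℝ := (Real.sqrt (2 + Real.sqrt 2))⁻¹

/-- Self-avoiding walks from `a` to `b` with all vertices in `Ω`, as lists of vertices. -/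
def saws (Ω : Set V) (a b : V) : Set (List V) :=
  {γ | γ.IsChain Adj ∧ γ.Nodup ∧ γ.head? = some a ∧ γ.getLast? = some b ∧ ∀ v ∈ γ, v ∈ Ω}

/-- Total critical weight of a set of walks: the sum of `x_c ^ (number of edges)`. -/
noncomputable def mass (S : Set (List V)) : ℝ := ∑ᶠ γ ∈ S, xc ^ (γ.length - 1)

/-- Probability of the event `E` under the critical self-avoiding walk from `a` to `b` in `Ω`. -/
noncomputable def prob (Ω : Set V) (a b : V) (E : Set (List V)) : ℝ :=
  mass (saws Ω a b ∩ E) / mass (saws Ω a b)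

/-- The up-pointing equilateral triangle whose base is the part of the row `k = 0` centred at
`(1, 1, 0)` with `2 n + 1` lower vertices. -/
def tri (n : ℤ) : Set V :=
  {v | (v.i + v.j + v.k = 1 ∨ v.i + v.j + v.k = 2) ∧ 0 ≤ v.k ∧ 1 - n ≤ v.i ∧ 1 - n ≤ v.j}

end Pool.Agent.Lib.MP_4960b8_pr.SAW
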