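import Pool.Agent.Lib.MP_4960b8_pr.SAW.Defs

-- part Pool.Agent.Lib.MP_4960b8_pr.SAW.Basic
section

/-!
Walks started from an oriented edge, turns and windings.
-/

namespace Pool.Agent.Lib.MP_4960b8_pr.SAW

def Valid (v : V) : Prop := v.i + v.j + v.k = 1 ∨ v.i + v.j + v.k = 2

lemma adj_iff {u v : V} : Adj u v ↔
    (u.i + u.j + u.k = 1 ∧
      ((v.i = u.i + 1 ∧ v.j = u.j ∧ v.k = u.k) ∨ (v.i = u.i ∧ v.j = u.j + 1 ∧ v.k = u.k) ∨
        (v.i = u.i ∧ v.j = u.j ∧ v.k = u.k + 1))) ∨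
    (u.i + u.j + u.k = 2 ∧
      ((v.i = u.i - 1 ∧ v.j = u.j ∧ v.k = u.k) ∨ (v.i = u.i ∧ v.j = u.j - 1 ∧ v.k = u.k) ∨
        (v.i = u.i ∧ v.j = u.j ∧ v.k = u.k - 1))) := by
  simp only [Adj, V.ext_iff]

lemma Adj.symm {u v : V} (h : Adj u v) : Adj v u := by
  rcases h with ⟨h0, rfl | rfl | rfl⟩ | ⟨h0, rfl | rfl | rfl⟩ <;> rw [adj_iff] <;> simp <;> omega

lemma Adj.ne {u v : V} (h : Adj u v) : u ≠ v := by
  rcases h with ⟨h0, rfl | rfl | rfl⟩ | ⟨h0, rfl | rfl | rfl⟩ <;> simp [V.ext_iff] <;> omega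

lemma Adj.valid_left {u v : V} (h : Adj u v) : Valid u := by
  rcases h with ⟨h0, -⟩ | ⟨h0, -⟩
  · exact Or.inl h0
  · exact Or.inr h0

lemma Adj.valid_right {u v : V} (h : Adj u v) : Valid v := h.symm.valid_left

/-- the vertex reached by turning left -/
def Lf (p q : V) : V := ⟨q.i - (q.j - p.j), q.j - (q.k - p.k), q.k - (q.i - p.i)⟩

/-- the vertex reached by turning right -/
def Rt (p q : V) : V := ⟨q.i - (q.k - p.k), q.j - (q.i - p.i), q.k - (q.j - p.j)⟩

def turn (p q r : V) : ℤ := if r = Lf p q then 1 else -1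

lemma adj_Lf {p q : V} (h : Adj p q) : Adj q (Lf p q) := by
  rcases h with ⟨h0, rfl | rfl | rfl⟩ | ⟨h0, rfl | rfl | rfl⟩ <;> rw [adj_iff] <;>
    simp [Lf] <;> omega

lemma adj_Rt {p q : V} (h : Adj p q) : Adj q (Rt p q) := by
  rcases h with ⟨h0, rfl | rfl | rfl⟩ | ⟨h0, rfl | rfl | rfl⟩ <;> rw [adj_iff] <;>
    simp [Rt] <;> omega

lemma Lf_ne_Rt {p q : V} (h : Adj p q) : Lf p q ≠ Rt p q := by
  rcases h with ⟨h0, rfl | rfl | rfl⟩ | ⟨h0, rfl | rfl | rfl⟩ <;>
    simp [Lf, Rt, V.ext_iff]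

lemma Lf_ne {p q : V} (h : Adj p q) : Lf p q ≠ p := by
  rcases h with ⟨h0, rfl | rfl | rfl⟩ | ⟨h0, rfl | rfl | rfl⟩ <;>
    simp [Lf, V.ext_iff]

lemma Rt_ne {p q : V} (h : Adj p q) : Rt p q ≠ p := by
  rcases h with ⟨h0, rfl | rfl | rfl⟩ | ⟨h0, rfl | rfl | rfl⟩ <;>
    simp [Rt, V.ext_iff]

lemma adj_cases {p q r : V} (h : Adj p q) (h' : Adj q r) (hne : p ≠ r) :
    r = Lf p q ∨ r = Rt p q := by
  rcases h with ⟨h0, rfl | rfl | rfl⟩ | ⟨h0, rfl | rfl | rfl⟩ <;>
    rcases h' with ⟨h1, rfl | rfl | rfl⟩ | ⟨h1, rfl | rfl | rfl⟩ <;>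
    simp [Lf, Rt, V.ext_iff] at h1 hne ⊢ <;> omega

lemma turn_Lf (p q : V) : turn p q (Lf p q) = 1 := by simp [turn]

lemma turn_Rt {p q : V} (h : Adj p q) : turn p q (Rt p q) = -1 := by
  simp [turn, (Lf_ne_Rt h).symm]

lemma turn_cases (p q r : V) : turn p q r = 1 ∨ turn p q r = -1 := by
  unfold turn; split_ifs <;> simp

lemma Rt_Lf {p q : V} (h : Adj p q) : Rt (Lf p q) q = p ∧ Lf (Lf p q) q = Rt p q := by
  rcases h with ⟨h0, rfl | rfl | rfl⟩ | ⟨h0, rfl | rfl | rfl⟩ <;>
    simp [Lf, Rt, V.ext_iff]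

lemma Lf_Rt {p q : V} (h : Adj p q) : Lf (Rt p q) q = p ∧ Rt (Rt p q) q = Lf p q := by
  rcases h with ⟨h0, rfl | rfl | rfl⟩ | ⟨h0, rfl | rfl | rfl⟩ <;>
    simp [Lf, Rt, V.ext_iff]

lemma turn_rev {p q r : V} (h : Adj p q) (h' : Adj q r) (hne : p ≠ r) :
    turn r q p = - turn p q r := by
  rcases adj_cases h h' hne with rfl | rfl
  · have := turn_Rt (adj_Lf h).symm
    rw [(Rt_Lf h).1] at this
    rw [this, turn_Lf]
  · have := turn_Lf (Rt p q) q
    rw [(Lf_Rt h).1] at this
    rw [this, turn_Rt h]; simp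

lemma turn_other {p q r s : V} (h : Adj p q) (hr : Adj q r) (hs : Adj q s) (hpr : p ≠ r)
    (hps : p ≠ s) (hrs : r ≠ s) : turn p q s = - turn p q r ∧ turn s q r = - turn p q r := by
  rcases adj_cases h hr hpr with rfl | rfl <;> rcases adj_cases h hs hps with rfl | rfl
  · exact absurd rfl hrs
  · have := turn_Rt (adj_Rt h).symm
    rw [(Lf_Rt h).2] at this
    rw [this, turn_Lf, turn_Rt h]; simp
  · have := turn_Lf (Lf p q) q
    rw [(Rt_Lf h).2] at this
    rw [this, turn_Lf, turn_Rt h]; simp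
  · exact absurd rfl hrs

/-- index of the direction of an edge: 0 is up, then counterclockwise in steps of 60 degrees -/
def dirI (p q : V) : ℤ :=
  if q.k = p.k + 1 then 0 else if q.j = p.j - 1 then 1 else if q.i = p.i + 1 then 2
  else if q.k = p.k - 1 then 3 else if q.j = p.j + 1 then 4 else 5

lemma dirI_turn {p q r : V} (h : Adj p q) (h' : Adj q r) (hne : p ≠ r) :
    (dirI q r - dirI p q - turn p q r) % 6 = 0 := by
  rcases adj_cases h h' hne with rfl | rfl
  · rw [turn_Lf]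
    rcases h with ⟨h0, rfl | rfl | rfl⟩ | ⟨h0, rfl | rfl | rfl⟩ <;>
      simp only [dirI, Lf] <;> split_ifs <;> omega
  · rw [turn_Rt h]
    rcases h with ⟨h0, rfl | rfl | rfl⟩ | ⟨h0, rfl | rfl | rfl⟩ <;>
      simp only [dirI, Rt] <;> split_ifs <;> omega

/-- last vertex of `q :: l` -/
def lv : V → List V → V
  | q, [] => q
  | _, r :: l => lv r l

/-- last but one vertex of `p :: q :: l` -/
def pv : V → V → List V → V
  | p, _, [] => p
  | _, q, r :: l => pv q r l

/-- all vertices of `q :: l` but the last one satisfy `P` -/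
def Inn (D : Set V) : V → List V → Prop
  | _, [] => True
  | q, r :: l => q ∈ D ∧ Inn D r l

/-- winding of `p :: q :: l` in units of 60 degrees -/
def wind : V → V → List V → ℤ
  | _, _, [] => 0
  | p, q, r :: l => turn p q r + wind q r l

def Saw (p q : V) (l : List V) : Prop := (p :: q :: l).IsChain Adj ∧ (p :: q :: l).Nodup

/-- self-avoiding walks started from the edge `(p, q)` and stopped when they leave `D` -/
def Exit (D : Set V) (p q : V) : Set (List V) := {l | Saw p q l ∧ Inn D q l ∧ lv q l ∉ D}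

@[simp] lemma lv_nil (q : V) : lv q [] = q := rfl
@[simp] lemma lv_cons (q r : V) (l : List V) : lv q (r :: l) = lv r l := rfl
@[simp] lemma pv_nil (p q : V) : pv p q [] = p := rfl
@[simp] lemma pv_cons (p q r : V) (l : List V) : pv p q (r :: l) = pv q r l := rfl
@[simp] lemma Inn_nil (D : Set V) (q : V) : Inn D q [] := trivial
@[simp] lemma Inn_cons (D : Set V) (q r : V) (l : List V) :
    Inn D q (r :: l) ↔ q ∈ D ∧ Inn D r l := Iff.rfl
@[simp] lemma wind_nil (p q : V) : wind p q [] = 0 := rfl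
@[simp] lemma wind_cons (p q r : V) (l : List V) :
    wind p q (r :: l) = turn p q r + wind q r l := rfl

@[simp] lemma lv_append (q : V) (l₁ l₂ : List V) : lv q (l₁ ++ l₂) = lv (lv q l₁) l₂ := by
  induction l₁ generalizing q with
  | nil => rfl
  | cons r l ih => simp [ih]

@[simp] lemma pv_append (p q : V) (l₁ l₂ : List V) :
    pv p q (l₁ ++ l₂) = pv (pv p q l₁) (lv q l₁) l₂ := by
  induction l₁ generalizing p q with
  | nil => rfl
  | cons r l ih => simp [ih]

lemma Inn_append (D : Set V) (q : V) (l₁ l₂ : List V) :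
    Inn D q (l₁ ++ l₂) ↔ Inn D q l₁ ∧ Inn D (lv q l₁) l₂ := by
  induction l₁ generalizing q with
  | nil => simp
  | cons r l ih => simp [ih, and_assoc]

lemma wind_append (p q : V) (l₁ l₂ : List V) :
    wind p q (l₁ ++ l₂) = wind p q l₁ + wind (pv p q l₁) (lv q l₁) l₂ := by
  induction l₁ generalizing p q with
  | nil => simp
  | cons r l ih => simp [ih, add_assoc]

lemma lv_mem (q : V) (l : List V) : lv q l ∈ q :: l := by
  induction l generalizing q with
  | nil => simp
  | cons r l ih => exact List.mem_cons_of_mem _ (ih r)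

lemma pv_mem (p q : V) (l : List V) : pv p q l ∈ p :: q :: l := by
  induction l generalizing p q with
  | nil => simp
  | cons r l ih => exact List.mem_cons_of_mem _ (ih q r)

lemma pv_eq_lv (p q : V) (l : List V) (r : V) : pv p q (l ++ [r]) = lv q l := by simp

lemma Inn.mono {D D' : Set V} (h : D ⊆ D') {q : V} {l : List V} (hl : Inn D q l) : Inn D' q l := by
  induction l generalizing q with
  | nil => trivial
  | cons r l ih => exact ⟨h hl.1, ih hl.2⟩

lemma Inn_inter {D D' : Set V} {q : V} {l : List V} :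
    Inn (D ∩ D') q l ↔ Inn D q l ∧ Inn D' q l := by
  induction l generalizing q with
  | nil => simp
  | cons r l ih => simp [ih]; tauto

lemma Inn.mem {D : Set V} {q : V} {l : List V} (hl : Inn D q l) {u : V} (hu : u ∈ q :: l) :
    u ∈ D ∨ u = lv q l := by
  induction l generalizing q with
  | nil => right; simpa using hu
  | cons r l ih =>
    rcases List.mem_cons.1 hu with rfl | hu
    · exact Or.inl hl.1
    · exact ih hl.2 hu

lemma Inn_of_forall {D : Set V} {q : V} {l : List V} (h : ∀ u ∈ q :: l, u ∈ D) : Inn D q l := by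
  induction l generalizing q with
  | nil => trivial
  | cons r l ih => exact ⟨h q (by simp), ih fun u hu => h u (List.mem_cons_of_mem _ hu)⟩

lemma Inn.pv_mem {D : Set V} {p q : V} {l : List V} (hl : Inn D q l) (hne : l ≠ []) :
    pv p q l ∈ D := by
  induction l generalizing p q with
  | nil => exact absurd rfl hne
  | cons r l ih =>
    rcases l with _ | ⟨s, l⟩
    · exact hl.1
    · exact ih (p := q) hl.2 (by simp)

lemma Saw.adj {p q : V} {l : List V} (h : Saw p q l) : Adj p q :=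
  (List.isChain_cons_cons.1 h.1).1

lemma Saw.tail {p q r : V} {l : List V} (h : Saw p q (r :: l)) : Saw q r l :=
  ⟨(List.isChain_cons_cons.1 h.1).2, (List.nodup_cons.1 h.2).2⟩

lemma saw_cons {p q r : V} {l : List V} :
    Saw p q (r :: l) ↔ Adj p q ∧ p ∉ q :: r :: l ∧ Saw q r l := by
  simp only [Saw, List.isChain_cons_cons, List.nodup_cons (a := p)]
  tauto

lemma saw_nil {p q : V} : Saw p q [] ↔ Adj p q := by
  constructor
  · exact Saw.adj
  · intro h
    exact ⟨by simpa using h, by simpa using h.ne⟩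

lemma Saw.adj_last {p q : V} {l : List V} (h : Saw p q l) : Adj (pv p q l) (lv q l) := by
  induction l generalizing p q with
  | nil => exact h.adj
  | cons r l ih => exact ih h.tail

lemma Saw.valid {p q : V} {l : List V} (h : Saw p q l) {u : V} (hu : u ∈ p :: q :: l) :
    Valid u := by
  induction l generalizing p q with
  | nil =>
    rcases List.mem_cons.1 hu with rfl | hu
    · exact h.adj.valid_left
    · rw [List.mem_singleton.1 hu]; exact h.adj.valid_right
  | cons r l ih =>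
    rcases List.mem_cons.1 hu with rfl | hu
    · exact h.adj.valid_left
    · exact ih h.tail hu

lemma saw_append {p q : V} {l₁ l₂ : List V} :
    Saw p q (l₁ ++ l₂) ↔
      Saw p q l₁ ∧ Saw (pv p q l₁) (lv q l₁) l₂ ∧ ∀ u ∈ p :: q :: l₁, u ∉ l₂ := by
  induction l₁ generalizing p q with
  | nil =>
    simp only [List.nil_append, pv_nil, lv_nil, saw_nil]
    constructor
    · intro h
      refine ⟨h.adj, h, ?_⟩
      have := h.2
      simp only [List.nodup_cons, List.mem_cons, not_or] at this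
      intro u hu
      simp only [List.mem_cons, List.not_mem_nil, or_false] at hu
      rcases hu with rfl | rfl
      · exact this.1.2
      · exact this.2.1
    · exact fun h => h.2.1
  | cons r l ih =>
    rw [List.cons_append, saw_cons, saw_cons, ih]
    simp only [List.mem_cons, List.mem_append, pv_cons, lv_cons, not_or, forall_eq_or_imp]
    tauto

lemma Saw.wind_mod {p q : V} {l : List V} (h : Saw p q l) :
    (dirI (pv p q l) (lv q l) - dirI p q - wind p q l) % 6 = 0 := by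
  induction l generalizing p q with
  | nil => simp
  | cons r l ih =>
    have h1 := ih h.tail
    have h2 := dirI_turn h.adj h.tail.adj (by
      have := (saw_cons.1 h).2.1
      simp only [List.mem_cons, not_or] at this
      exact this.2.1)
    simp only [pv_cons, lv_cons, wind_cons]
    omega

/-- an interior vertex of a self-avoiding walk -/
lemma Saw.Inn_iff {D : Set V} {p q : V} {l : List V} (h : Saw p q l) :
    Inn D q l ↔ ∀ u ∈ q :: l, u ≠ lv q l → u ∈ D := by
  constructor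
  · intro hl u hu hne
    exact (hl.mem hu).resolve_right hne
  · intro H
    induction l generalizing p q with
    | nil => trivial
    | cons r l ih =>
      refine ⟨H q (by simp) ?_, ih h.tail fun u hu hne => H u (List.mem_cons_of_mem _ hu) hne⟩
      intro e
      have h1 := lv_mem r l
      have h2 := h.tail.2
      rw [List.nodup_cons] at h2
      apply h2.1
      rw [e]; exact h1

lemma finite_nbr (D : Set V) (hD : D.Finite) : {v | ∃ u ∈ D, Adj u v}.Finite := by
  have : {v | ∃ u ∈ D, Adj u v} ⊆ ⋃ u ∈ D, ({⟨u.i + 1, u.j, u.k⟩, ⟨u.i, u.j + 1, u.k⟩,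
      ⟨u.i, u.j, u.k + 1⟩, ⟨u.i - 1, u.j, u.k⟩, ⟨u.i, u.j - 1, u.k⟩, ⟨u.i, u.j, u.k - 1⟩} : Set V) := by
    rintro v ⟨u, hu, h⟩
    simp only [Set.mem_iUnion, Set.mem_insert_iff, Set.mem_singleton_iff]
    refine ⟨u, hu, ?_⟩
    unfold Adj at h
    tauto
  exact Set.Finite.subset (hD.biUnion fun u _ => Set.toFinite _) this

lemma finite_nodup (A : Set V) (hA : A.Finite) : {l : List V | l.Nodup ∧ ∀ u ∈ l, u ∈ A}.Finite := by
  classical
  have : {l : List V | l.Nodup ∧ ∀ u ∈ l, u ∈ A} ⊆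
      ⋃ s ∈ hA.toFinset.powerset, {l | l ∈ s.toList.permutations} := by
    rintro l ⟨h1, h2⟩
    simp only [Set.mem_iUnion, Finset.mem_powerset, Set.mem_ofPred_eq, List.mem_permutations]
    refine ⟨l.toFinset, fun u hu => by simpa using h2 u (by simpa using hu), ?_⟩
    exact (List.toFinset_toList h1).symm
  exact Set.Finite.subset (Set.Finite.biUnion (Finset.finite_toSet _)
    fun s _ => List.finite_toSet _) this

lemma finite_inn {D : Set V} (hD : D.Finite) (p q : V) : {l | Saw p q l ∧ Inn D q l}.Finite := by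
  refine (finite_nodup _ (finite_nbr D hD)).subset ?_
  rintro l ⟨h1, h2⟩
  refine ⟨(List.nodup_cons.1 (List.nodup_cons.1 h1.2).2).2, ?_⟩
  induction l generalizing p q with
  | nil => simp
  | cons r l ih =>
    intro u hu
    rcases List.mem_cons.1 hu with rfl | hu
    · exact ⟨q, h2.1, h1.tail.adj⟩
    · exact ih q r h1.tail h2.2 u hu

lemma finite_exit {D : Set V} (hD : D.Finite) (p q : V) : (Exit D p q).Finite :=
  (finite_inn hD p q).subset fun _ h => ⟨h.1, h.2.1⟩

end Pool.Agent.Lib.MP_4960b8_pr.SAW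
end

-- part Pool.Agent.Lib.MP_4960b8_pr.SAW.Wind
section

/-!
Discrete Hopf secant argument: windings of self-avoiding walks.
-/

namespace Pool.Agent.Lib.MP_4960b8_pr.SAW

open Complex

noncomputable def s3 : ℝ := Real.sqrt 3

lemma s3_sq : s3 ^ 2 = 3 := Real.sq_sqrt (by norm_num)
lemma s3_pos : 0 < s3 := Real.sqrt_pos.2 (by norm_num)

def cX (v : V) : ℤ := v.j - v.i
def cY (v : V) : ℤ := 2 * v.k - v.i - v.j

noncomputable def pos (v : V) : ℂ := ⟨s3 / 2 * cX v, (cY v : ℝ) / 2⟩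

@[simp] lemma pos_re (v : V) : (pos v).re = s3 / 2 * cX v := rfl
@[simp] lemma pos_im (v : V) : (pos v).im = (cY v : ℝ) / 2 := rfl

lemma normSq_sub (u v : V) : normSq (pos u - pos v) =
    (3 * ((cX u - cX v : ℤ) : ℝ) ^ 2 + ((cY u - cY v : ℤ) : ℝ) ^ 2) / 4 := by
  rw [normSq_apply]
  simp only [sub_re, sub_im, pos_re, pos_im]
  push_cast
  have := s3_sq
  linear_combination ((cX u : ℝ) - cX v) ^ 2 / 4 * this

lemma int_far {u v : V} (hu : Valid u) (hv : Valid v) (h : u ≠ v) :
    4 ≤ 3 * (cX u - cX v) ^ 2 + (cY u - cY v) ^ 2 := by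
  have h' : ¬ (u.i = v.i ∧ u.j = v.j ∧ u.k = v.k) := fun e => h (V.ext e.1 e.2.1 e.2.2)
  unfold Valid at hu hv
  obtain ⟨a, ha⟩ : ∃ a, a = cX u - cX v := ⟨_, rfl⟩
  obtain ⟨b, hb⟩ : ∃ b, b = cY u - cY v := ⟨_, rfl⟩
  rw [← ha, ← hb]
  unfold cX at ha
  unfold cY at hb
  have h1 : a ≤ -2 ∨ 2 ≤ a ∨ b ≤ -2 ∨ 2 ≤ b ∨ ((a = 1 ∨ a = -1) ∧ (b = 1 ∨ b = -1)) := by omega
  rcases h1 with h1 | h1 | h1 | h1 | ⟨h1 | h1, h2 | h2⟩
  · nlinarith [sq_nonneg b]
  · nlinarith [sq_nonneg b]
  · nlinarith [sq_nonneg a]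
  · nlinarith [sq_nonneg a]
  all_goals (rw [h1, h2]; norm_num)

lemma far {u v : V} (hu : Valid u) (hv : Valid v) (h : u ≠ v) : 1 ≤ normSq (pos u - pos v) := by
  rw [normSq_sub]
  have : (4 : ℝ) ≤ 3 * ((cX u - cX v : ℤ) : ℝ) ^ 2 + ((cY u - cY v : ℤ) : ℝ) ^ 2 := by
    exact_mod_cast int_far hu hv h
  linarith

lemma pos_sub_ne {u v : V} (hu : Valid u) (hv : Valid v) (h : u ≠ v) : pos u - pos v ≠ 0 := by
  intro e
  have := far hu hv h
  rw [e] at this
  norm_num at this

lemma near {u v : V} (h : Adj u v) : normSq (pos u - pos v) = 1 := by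
  rw [normSq_sub]
  have : 3 * (cX u - cX v) ^ 2 + (cY u - cY v) ^ 2 = 4 := by
    rcases h with ⟨h0, rfl | rfl | rfl⟩ | ⟨h0, rfl | rfl | rfl⟩ <;> simp only [cX, cY] <;> ring
  have h2 : (3 : ℝ) * ((cX u - cX v : ℤ) : ℝ) ^ 2 + ((cY u - cY v : ℤ) : ℝ) ^ 2 = 4 := by
    exact_mod_cast this
  linarith

/-- angle under which the oriented segment `a b` is seen from `z` -/
noncomputable def A (z a b : V) : ℝ := arg ((pos b - pos z) / (pos a - pos z))

lemma A_small {z a b : V} (hz : Valid z) (h : Adj a b) (ha : a ≠ z) (hb : b ≠ z) :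
    |A z a b| < Real.pi / 2 := by
  unfold A
  rw [abs_arg_lt_pi_div_two_iff]
  left
  have h1 := far h.valid_left hz ha
  have h2 := far h.valid_right hz hb
  have h3 := near h
  rw [div_re, ← add_div]
  apply div_pos _ (by linarith)
  simp only [normSq_apply, sub_re, sub_im] at h1 h2 h3 ⊢
  nlinarith

lemma A_coe {z a b : V} (hz : Valid z) (h : Adj a b) (ha : a ≠ z) (hb : b ≠ z) :
    (A z a b : Real.Angle) = (arg (pos b - pos z) : Real.Angle) - (arg (pos a - pos z) : ℝ) :=
  arg_div_coe_angle (pos_sub_ne h.valid_right hz hb) (pos_sub_ne h.valid_left hz ha)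

lemma A_coe' {z a b : V} (hz : Valid z) (h : Adj a b) (ha : a ≠ z) (hb : b ≠ z) :
    (A z a b : Real.Angle) = (arg (pos z - pos b) : Real.Angle) - (arg (pos z - pos a) : ℝ) := by
  have : A z a b = arg ((pos z - pos b) / (pos z - pos a)) := by
    unfold A; rw [← neg_sub (pos z) (pos b), ← neg_sub (pos z) (pos a), neg_div_neg_eq]
  rw [this]
  exact arg_div_coe_angle (pos_sub_ne hz h.valid_right hb.symm) (pos_sub_ne hz h.valid_left ha.symm)

lemma eq_of_coe {x y : ℝ} (h : (x : Real.Angle) = y) (hb : |x - y| < 2 * Real.pi) : x = y := by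
  obtain ⟨k, hk⟩ := Real.Angle.angle_eq_iff_two_pi_dvd_sub.1 h
  have hp := Real.pi_pos
  rw [hk, abs_lt] at hb
  have h1 : (k : ℝ) < 1 := by nlinarith [hb.2]
  have h2 : (-1 : ℝ) < k := by nlinarith [hb.1]
  have h3 : k < 1 := by exact_mod_cast h1
  have h4 : -1 < k := by exact_mod_cast h2
  have : k = 0 := by omega
  rw [this] at hk
  simp at hk
  linarith

lemma A_square {z z' a b : V} (hz : Adj z z') (h : Adj a b) (h1 : a ≠ z) (h2 : b ≠ z)
    (h3 : a ≠ z') (h4 : b ≠ z') : A z a b + A b z z' = A a z z' + A z' a b := by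
  apply eq_of_coe
  · rw [Real.Angle.coe_add, Real.Angle.coe_add, A_coe hz.valid_left h h1 h2,
      A_coe hz.valid_right h h3 h4, A_coe' h.valid_right hz h2.symm h4.symm,
      A_coe' h.valid_left hz h1.symm h3.symm]
    abel
  · have a1 := abs_lt.1 (A_small hz.valid_left h h1 h2)
    have a2 := abs_lt.1 (A_small hz.valid_right h h3 h4)
    have a3 := abs_lt.1 (A_small h.valid_right hz h2.symm h4.symm)
    have a4 := abs_lt.1 (A_small h.valid_left hz h1.symm h3.symm)
    rw [abs_lt]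
    constructor <;> linarith [a1.1, a1.2, a2.1, a2.2, a3.1, a3.2, a4.1, a4.2]

lemma A_swap {z a b : V} (hz : Valid z) (h : Adj a b) (ha : a ≠ z) (hb : b ≠ z) :
    A z b a = - A z a b := by
  apply eq_of_coe
  · rw [Real.Angle.coe_neg, A_coe hz h ha hb, A_coe hz h.symm hb ha]; abel
  · have a1 := abs_lt.1 (A_small hz h ha hb)
    have a2 := abs_lt.1 (A_small hz h.symm hb ha)
    rw [abs_lt]
    constructor <;> linarith [a1.1, a1.2, a2.1, a2.2, Real.pi_pos]

lemma turn_int {p q r : V} (h : Adj p q) (h' : Adj q r) (hne : p ≠ r) :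
    2 * (cX r - cX q) = (cX q - cX p) - turn p q r * (cY q - cY p) ∧
    2 * (cY r - cY q) = (cY q - cY p) + 3 * turn p q r * (cX q - cX p) := by
  rcases adj_cases h h' hne with rfl | rfl
  · rw [turn_Lf]; simp only [cX, cY, Lf]; constructor <;> ring
  · rw [turn_Rt h]; simp only [cX, cY, Rt]; constructor <;> ring

lemma arg_half {t : ℝ} (ht : t = 1 ∨ t = -1) {c : ℝ} (hc : 0 < c) {w : ℂ}
    (hw : w = (c : ℂ) * ⟨s3 / 2, t / 2⟩) : arg w = Real.pi / 6 * t := by
  rw [hw, arg_real_mul _ hc]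
  have hp := Real.pi_pos
  have : (⟨s3 / 2, t / 2⟩ : ℂ) = Complex.cos ((Real.pi / 6 * t : ℝ) : ℂ) +
      Complex.sin ((Real.pi / 6 * t : ℝ) : ℂ) * I := by
    rw [← ofReal_cos, ← ofReal_sin]
    apply Complex.ext
    · rcases ht with rfl | rfl <;> simp [s3, -ofReal_cos, -ofReal_sin]
    · rcases ht with rfl | rfl <;> simp [-ofReal_cos, -ofReal_sin] <;> norm_num
  rw [this]
  apply arg_cos_add_sin_mul_I
  rcases ht with rfl | rfl <;> constructor <;> linarith

lemma A_half {p q r : V} (h : Adj p q) (h' : Adj q r) (hne : p ≠ r) :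
    A p q r = Real.pi / 6 * turn p q r ∧ A r p q = Real.pi / 6 * turn p q r := by
  obtain ⟨e1, e2⟩ := turn_int h h' hne
  have ht : (turn p q r : ℝ) = 1 ∨ (turn p q r : ℝ) = -1 := by
    rcases turn_cases p q r with e | e <;> rw [e] <;> simp
  have f1 : (2 : ℝ) * (cX r - cX q) = (cX q - cX p) - turn p q r * (cY q - cY p) := by
    exact_mod_cast e1
  have f2 : (2 : ℝ) * (cY r - cY q) = (cY q - cY p) + 3 * turn p q r * (cX q - cX p) := by
    exact_mod_cast e2
  generalize (turn p q r : ℝ) = t at ht f1 f2 ⊢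
  have ht2 : t ^ 2 = 1 := by rcases ht with e | e <;> rw [e] <;> norm_num
  have hs := s3_sq
  have g1 : (cX r : ℝ) = cX q + ((cX q - cX p) - t * (cY q - cY p)) / 2 := by linarith
  have g2 : (cY r : ℝ) = cY q + ((cY q - cY p) + 3 * t * (cX q - cX p)) / 2 := by linarith
  unfold A
  constructor
  · apply arg_half ht s3_pos
    rw [div_eq_iff (pos_sub_ne h.valid_right h.valid_left h.ne.symm)]
    apply Complex.ext
    · simp only [sub_re, sub_im, pos_re, pos_im, mul_re, mul_im, ofReal_re, ofReal_im]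
      rw [g1]
      linear_combination (-(s3 * ((cX q : ℝ) - cX p) / 4)) * hs
    · simp only [sub_re, sub_im, pos_re, pos_im, mul_re, mul_im, ofReal_re, ofReal_im]
      rw [g2]
      linear_combination (-(((cY q : ℝ) - cY p) / 4) - t * ((cX q : ℝ) - cX p) / 4) * hs
  · apply arg_half ht (c := s3 / 3) (by have := s3_pos; positivity)
    rw [div_eq_iff (pos_sub_ne h.valid_left h'.valid_right hne)]
    apply Complex.ext
    · simp only [sub_re, sub_im, pos_re, pos_im, mul_re, mul_im, ofReal_re, ofReal_im]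
      rw [g1, g2]
      linear_combination (s3 * (3 * ((cX q : ℝ) - cX p) - t * (cY q - cY p)) / 24) * hs
        - (s3 * ((cX q : ℝ) - cX p) / 8) * ht2
    · simp only [sub_re, sub_im, pos_re, pos_im, mul_re, mul_im, ofReal_re, ofReal_im]
      rw [g1, g2]
      linear_combination ((3 * ((cY q : ℝ) - cY p) + 3 * t * (cX q - cX p)) / 24
        + t * (3 * ((cX q : ℝ) - cX p) - t * (cY q - cY p)) / 24) * hs
        - (((cY q : ℝ) - cY p) / 8) * ht2

/-- angle swept by `q :: l` seen from `z` -/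
noncomputable def sw (z : V) : V → List V → ℝ
  | _, [] => 0
  | q, r :: l => A z q r + sw z r l

/-- angle swept by `p :: q :: l` without its last edge, seen from `z` -/
noncomputable def swE (z : V) : V → V → List V → ℝ
  | _, _, [] => 0
  | p, q, r :: l => A z p q + swE z q r l

@[simp] lemma sw_nil (z q : V) : sw z q [] = 0 := rfl
@[simp] lemma sw_cons (z q r : V) (l : List V) : sw z q (r :: l) = A z q r + sw z r l := rfl
@[simp] lemma swE_nil (z p q : V) : swE z p q [] = 0 := rfl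
@[simp] lemma swE_cons (z p q r : V) (l : List V) :
    swE z p q (r :: l) = A z p q + swE z q r l := rfl

lemma sw_append (z q : V) (l₁ l₂ : List V) :
    sw z q (l₁ ++ l₂) = sw z q l₁ + sw z (lv q l₁) l₂ := by
  induction l₁ generalizing q with
  | nil => simp
  | cons r l ih => simp [ih, add_assoc]

lemma swE_concat (z p q : V) (l : List V) (w : V) :
    swE z p q (l ++ [w]) = A z p q + sw z q l := by
  induction l generalizing p q with
  | nil => simp
  | cons r l ih => simp [ih]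

lemma sw_move {z z' b : V} {l : List V} (hz : Adj z z') (hc : (b :: l).IsChain Adj)
    (h1 : z ∉ b :: l) (h2 : z' ∉ b :: l) :
    sw z b l + A (lv b l) z z' = A b z z' + sw z' b l := by
  induction l generalizing b with
  | nil => simp
  | cons r l ih =>
    rw [List.isChain_cons_cons] at hc
    have := ih hc.2 (fun h => h1 (List.mem_cons_of_mem _ h))
      (fun h => h2 (List.mem_cons_of_mem _ h))
    simp only [List.mem_cons, not_or] at h1 h2
    have sq := A_square hz hc.1 (Ne.symm h1.1) (Ne.symm h1.2.1) (Ne.symm h2.1) (Ne.symm h2.2.1)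
    simp only [sw_cons, lv_cons]
    linarith

lemma sw_move_all {z b : V} {m l : List V} (hm : (z :: m).IsChain Adj) (hc : (b :: l).IsChain Adj)
    (hd : ∀ u ∈ z :: m, u ∉ b :: l) :
    sw z b l + sw (lv b l) z m = sw b z m + sw (lv z m) b l := by
  induction m generalizing z with
  | nil => simp
  | cons z' m ih =>
    rw [List.isChain_cons_cons] at hm
    have h1 := ih hm.2 fun u hu => hd u (List.mem_cons_of_mem _ hu)
    have h2 := sw_move hm.1 hc (hd z (by simp)) (hd z' (by simp))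
    simp only [sw_cons, lv_cons]
    linarith

theorem hopf {p q : V} {l : List V} (h : Saw p q l) :
    Real.pi / 3 * wind p q l = sw p q l + swE (lv q l) p q l := by
  induction l generalizing p q with
  | nil => simp
  | cons r l ih =>
    have h1 := ih h.tail
    obtain ⟨a1, a2, a3⟩ := saw_cons.1 h
    have hq : q ∉ r :: l := (List.nodup_cons.1 a3.2).1
    have hp : p ∉ r :: l := fun e => a2 (List.mem_cons_of_mem _ e)
    have h2 := sw_move a1 (List.isChain_cons_cons.1 a3.1).2 hp hq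
    have h3 := A_half a1 a3.adj (fun e => hp (by simp [e]))
    simp only [wind_cons, sw_cons, swE_cons, lv_cons]
    push_cast
    linarith [h3.1, h3.2]

lemma A_eq_sub {z a b : V} (hz : Valid z) (h : Adj a b) (ha : a ≠ z) (hb : b ≠ z)
    (hd : |arg (pos b - pos z) - arg (pos a - pos z)| ≤ Real.pi) :
    A z a b = arg (pos b - pos z) - arg (pos a - pos z) := by
  apply eq_of_coe
  · rw [A_coe hz h ha hb, Real.Angle.coe_sub]
  · have a1 := abs_lt.1 (A_small hz h ha hb)
    have a2 := abs_le.1 hd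
    rw [abs_lt]
    constructor <;> linarith [a1.1, a1.2, a2.1, a2.2, Real.pi_pos]

lemma A_eq_sub' {z a b : V} (hz : Valid z) (h : Adj a b) (ha : a ≠ z) (hb : b ≠ z)
    (hd : |arg (pos z - pos b) - arg (pos z - pos a)| ≤ Real.pi) :
    A z a b = arg (pos z - pos b) - arg (pos z - pos a) := by
  apply eq_of_coe
  · rw [A_coe' hz h ha hb, Real.Angle.coe_sub]
  · have a1 := abs_lt.1 (A_small hz h ha hb)
    have a2 := abs_le.1 hd
    rw [abs_lt]
    constructor <;> linarith [a1.1, a1.2, a2.1, a2.2, Real.pi_pos]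

lemma arg_close {w w' : ℂ} (h : (0 ≤ w.im ∧ 0 ≤ w'.im) ∨
    (w.im ≤ 0 ∧ w'.im ≤ 0 ∧ ¬ (w.im = 0 ∧ w.re < 0) ∧ ¬ (w'.im = 0 ∧ w'.re < 0))) :
    |arg w' - arg w| ≤ Real.pi := by
  have key : ∀ x : ℂ, x.im ≤ 0 → ¬ (x.im = 0 ∧ x.re < 0) → arg x ≤ 0 := by
    intro x h1 h2
    rcases h1.lt_or_eq with h1 | h1
    · exact (arg_neg_iff.2 h1).le
    · exact (arg_eq_zero_iff.2 ⟨not_lt.1 fun e => h2 ⟨h1, e⟩, h1⟩).le
  rw [abs_le]
  rcases h with ⟨h1, h2⟩ | ⟨h1, h2, h3, h4⟩
  · have := arg_nonneg_iff.2 h1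
    have := arg_nonneg_iff.2 h2
    constructor <;> linarith [arg_le_pi w, arg_le_pi w']
  · have := key w h1 h3
    have := key w' h2 h4
    constructor <;> linarith [neg_pi_lt_arg w, neg_pi_lt_arg w']

lemma sw_up {z b : V} {l : List V} (hz : Valid z) (hc : (b :: l).IsChain Adj)
    (hu : ∀ u ∈ b :: l, u ≠ z ∧ cY z ≤ cY u) :
    sw z b l = arg (pos (lv b l) - pos z) - arg (pos b - pos z) := by
  induction l generalizing b with
  | nil => simp
  | cons r l ih =>
    rw [List.isChain_cons_cons] at hc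
    have h1 := ih hc.2 fun u h => hu u (List.mem_cons_of_mem _ h)
    have hb := hu b (by simp)
    have hr := hu r (by simp)
    have i1 : (cY z : ℝ) ≤ cY b := by exact_mod_cast hb.2
    have i2 : (cY z : ℝ) ≤ cY r := by exact_mod_cast hr.2
    have h2 := A_eq_sub hz hc.1 hb.1 hr.1 (arg_close (Or.inl
      ⟨by simp only [sub_im, pos_im]; linarith, by simp only [sub_im, pos_im]; linarith⟩))
    simp only [sw_cons, lv_cons]
    linarith

lemma no_straddle {z a b : V} (hz : Valid z) (h : Adj a b) :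
    (cY a ≤ cY z ∧ cY b ≤ cY z) ∨ (cY z ≤ cY a ∧ cY z ≤ cY b) := by
  unfold Valid at hz
  rcases h with ⟨h0, rfl | rfl | rfl⟩ | ⟨h0, rfl | rfl | rfl⟩ <;> simp only [cY] <;> omega

lemma A_right {z a b : V} (hz : Valid z) (h : Adj a b) (ha : a ≠ z) (hb : b ≠ z)
    (fa : ¬ (cY a = cY z ∧ cX z < cX a)) (fb : ¬ (cY b = cY z ∧ cX z < cX b)) :
    A z a b = arg (pos z - pos b) - arg (pos z - pos a) := by
  have key : ∀ u : V, ¬ (cY u = cY z ∧ cX z < cX u) →
      ¬ ((pos z - pos u).im = 0 ∧ (pos z - pos u).re < 0) := by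
    rintro u hu ⟨e1, e2⟩
    simp only [sub_im, sub_re, pos_im, pos_re] at e1 e2
    apply hu
    constructor
    · have : (cY u : ℝ) = cY z := by linarith
      exact_mod_cast this
    · have : (cX z : ℝ) < cX u := by nlinarith [s3_pos]
      exact_mod_cast this
  apply A_eq_sub' hz h ha hb
  apply arg_close
  rcases no_straddle hz h with ⟨h1, h2⟩ | ⟨h1, h2⟩
  · have i1 : (cY a : ℝ) ≤ cY z := by exact_mod_cast h1
    have i2 : (cY b : ℝ) ≤ cY z := by exact_mod_cast h2
    left
    simp only [sub_im, pos_im]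
    constructor <;> linarith
  · have i1 : (cY z : ℝ) ≤ cY a := by exact_mod_cast h1
    have i2 : (cY z : ℝ) ≤ cY b := by exact_mod_cast h2
    right
    refine ⟨?_, ?_, key a fa, key b fb⟩ <;> simp only [sub_im, pos_im] <;> linarith

lemma A_left {z a b : V} (hz : Valid z) (h : Adj a b) (ha : a ≠ z) (hb : b ≠ z)
    (fa : ¬ (cY a = cY z ∧ cX a < cX z)) (fb : ¬ (cY b = cY z ∧ cX b < cX z)) :
    A z a b = arg (pos b - pos z) - arg (pos a - pos z) := by
  have key : ∀ u : V, ¬ (cY u = cY z ∧ cX u < cX z) →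
      ¬ ((pos u - pos z).im = 0 ∧ (pos u - pos z).re < 0) := by
    rintro u hu ⟨e1, e2⟩
    simp only [sub_im, sub_re, pos_im, pos_re] at e1 e2
    apply hu
    constructor
    · have : (cY u : ℝ) = cY z := by linarith
      exact_mod_cast this
    · have : (cX u : ℝ) < cX z := by nlinarith [s3_pos]
      exact_mod_cast this
  apply A_eq_sub hz h ha hb
  apply arg_close
  rcases no_straddle hz h with ⟨h1, h2⟩ | ⟨h1, h2⟩
  · have i1 : (cY a : ℝ) ≤ cY z := by exact_mod_cast h1
    have i2 : (cY b : ℝ) ≤ cY z := by exact_mod_cast h2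
    right
    refine ⟨?_, ?_, key a fa, key b fb⟩ <;> simp only [sub_im, pos_im] <;> linarith
  · have i1 : (cY z : ℝ) ≤ cY a := by exact_mod_cast h1
    have i2 : (cY z : ℝ) ≤ cY b := by exact_mod_cast h2
    left
    simp only [sub_im, pos_im]
    constructor <;> linarith

lemma swE_tel {z : V} {θ : V → ℝ} {P : V → Prop}
    (hθ : ∀ a b, Adj a b → P a → P b → A z a b = θ b - θ a) {p q : V} {l : List V}
    (h : Saw p q l) (hP : ∀ u ∈ p :: q :: l, u ≠ lv q l → P u) :
    swE z p q l = θ (pv p q l) - θ p := by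
  induction l generalizing p q with
  | nil => simp
  | cons r l ih =>
    obtain ⟨a1, a2, a3⟩ := saw_cons.1 h
    have h1 := ih h.tail fun u hu => hP u (List.mem_cons_of_mem _ hu)
    have hq : q ∉ r :: l := (List.nodup_cons.1 a3.2).1
    have m := lv_mem r l
    have h2 := hθ p q a1 (hP p (by simp) fun e => a2 (List.mem_cons_of_mem _ (e ▸ m)))
      (hP q (by simp) fun e => hq (e ▸ m))
    simp only [swE_cons, pv_cons]
    linarith

/-- an edge pointing up -/
def UpE (p q : V) : Prop := p.i + p.j + p.k = 1 ∧ q = ⟨p.i, p.j, p.k + 1⟩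

lemma UpE.adj {p q : V} (h : UpE p q) : Adj p q := Or.inl ⟨h.1, Or.inr (Or.inr h.2)⟩

lemma UpE.arg {p q : V} (h : UpE p q) : arg (pos q - pos p) = Real.pi / 2 := by
  have : pos q - pos p = I := by
    rw [h.2]
    apply Complex.ext
    · simp [cX]
    · simp [cY]; ring
  rw [this, arg_I]

lemma sw_start {p q : V} {l : List V} (hu : UpE p q) (h : Saw p q l)
    (hY : ∀ u ∈ q :: l, cY p ≤ cY u) :
    sw p q l = arg (pos (lv q l) - pos p) - Real.pi / 2 := by
  rw [← hu.arg]
  refine sw_up hu.adj.valid_left (List.isChain_cons_cons.1 h.1).2 fun u hm => ⟨?_, hY u hm⟩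
  rintro rfl
  exact (List.nodup_cons.1 h.2).1 hm

theorem wind_right {p q : V} {l : List V} (hu : UpE p q) (h : Saw p q l)
    (hY : ∀ u ∈ q :: l, cY p ≤ cY u)
    (hf : ∀ u ∈ p :: q :: l, ¬ (cY u = cY (lv q l) ∧ cX (lv q l) < cX u)) :
    -4 ≤ wind p q l ∧ wind p q l ≤ 1 := by
  have hz : Valid (lv q l) := h.adj_last.valid_right
  have h1 := hopf h
  have h2 := sw_start hu h hY
  have h3 := swE_tel (z := lv q l) (θ := fun u => arg (pos (lv q l) - pos u))
    (P := fun u => u ≠ lv q l ∧ ¬ (cY u = cY (lv q l) ∧ cX (lv q l) < cX u))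
    (fun a b hab pa pb => A_right hz hab pa.1 pb.1 pa.2 pb.2) h
    (fun u hu hne => ⟨hne, hf u hu⟩)
  have hp := Real.pi_pos
  have b1 := arg_le_pi (pos (lv q l) - pos (pv p q l))
  have b2 := neg_pi_lt_arg (pos (lv q l) - pos (pv p q l))
  have c1 : (wind p q l : ℝ) < 2 := by nlinarith
  have c2 : (-5 : ℝ) < wind p q l := by nlinarith
  have d1 : wind p q l < 2 := by exact_mod_cast c1
  have d2 : -5 < wind p q l := by exact_mod_cast c2
  omega

theorem wind_left {p q : V} {l : List V} (hu : UpE p q) (h : Saw p q l)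
    (hY : ∀ u ∈ q :: l, cY p ≤ cY u)
    (hf : ∀ u ∈ p :: q :: l, ¬ (cY u = cY (lv q l) ∧ cX u < cX (lv q l))) :
    -1 ≤ wind p q l ∧ wind p q l ≤ 4 := by
  have hz : Valid (lv q l) := h.adj_last.valid_right
  have h1 := hopf h
  have h2 := sw_start hu h hY
  have h3 := swE_tel (z := lv q l) (θ := fun u => arg (pos u - pos (lv q l)))
    (P := fun u => u ≠ lv q l ∧ ¬ (cY u = cY (lv q l) ∧ cX u < cX (lv q l)))
    (fun a b hab pa pb => A_left hz hab pa.1 pb.1 pa.2 pb.2) h
    (fun u hu hne => ⟨hne, hf u hu⟩)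
  have hne : p ≠ lv q l := fun e => (List.nodup_cons.1 h.2).1 (e ▸ lv_mem q l)
  have h4 : arg (pos p - pos (lv q l)) = arg (pos (lv q l) - pos p) - Real.pi := by
    rw [← neg_sub (pos (lv q l)) (pos p), arg_neg_eq_arg_sub_pi_iff]
    have y1 := hY _ (lv_mem q l)
    have y2 := hf p (by simp)
    have y3 := int_far hu.adj.valid_left hz hne
    simp only [sub_im, sub_re, pos_im, pos_re]
    rcases y1.lt_or_eq with y1 | y1
    · left
      have : (cY p : ℝ) < cY (lv q l) := by exact_mod_cast y1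
      linarith
    · right
      have y4 : cX (lv q l) < cX p := by
        rcases lt_trichotomy (cX (lv q l)) (cX p) with e | e | e
        · exact e
        · rw [e, y1] at y3; norm_num at y3
        · exact absurd ⟨y1, e⟩ y2
      have y5 : (cX (lv q l) : ℝ) < cX p := by exact_mod_cast y4
      rw [y1]
      constructor
      · ring
      · nlinarith [s3_pos]
  have hp := Real.pi_pos
  have b1 := arg_le_pi (pos (pv p q l) - pos (lv q l))
  have b2 := neg_pi_lt_arg (pos (pv p q l) - pos (lv q l))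
  have c1 : (wind p q l : ℝ) < 5 := by nlinarith
  have c2 : (-2 : ℝ) < wind p q l := by nlinarith
  have d1 : wind p q l < 5 := by exact_mod_cast c1
  have d2 : -2 < wind p q l := by exact_mod_cast c2
  omega

/-- winding of a walk closing a loop -/
theorem wind_close {p q : V} {l₁ : List V} {a : V} {c : List V} (hu : UpE p q)
    (h : Saw p q (l₁ ++ a :: c)) (hY : ∀ u ∈ q :: (l₁ ++ a :: c), cY p ≤ cY u) (hc : c ≠ [])
    (hcl : Adj (lv a c) (lv q l₁)) :
    wind (pv p q l₁) (lv q l₁) (a :: c ++ [lv q l₁]) = -4 * turn (pv p q l₁) (lv q l₁) a := by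
  obtain ⟨c, r, rfl⟩ : ∃ c' r, c = c' ++ [r] := ⟨c.dropLast, c.getLast hc, by
    rw [List.dropLast_append_getLast]⟩
  obtain ⟨s1, s2, s3'⟩ := saw_append.1 h
  obtain ⟨l0, hl0⟩ : ∃ l0, q :: l₁ = l0 ++ [lv q l₁] ∧ lv p l0 = pv p q l₁ := by
    clear h hY hcl s1 s2 s3' hu
    induction l₁ generalizing p q with
    | nil => exact ⟨[], rfl, rfl⟩
    | cons x l ih =>
      obtain ⟨l0, e1, e2⟩ := ih (p := q) (q := x)
      exact ⟨q :: l0, by rw [List.cons_append, lv_cons, ← e1], e2⟩
  have huv := s1.adj_last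
  simp only [lv_append, lv_cons, lv_nil] at hcl
  generalize hv : lv q l₁ = v at *
  generalize hu' : pv p q l₁ = u at *
  obtain ⟨-, n1, t1⟩ := saw_cons.1 s2
  have hva : Adj v a := t1.adj
  obtain ⟨t2, t3, t4⟩ := saw_append.1 t1
  have hpr : Adj (lv a c) r := by simpa using t1.adj_last
  have nv : v ∉ a :: (c ++ [r]) := (List.nodup_cons.1 t1.2).1
  have nr : r ∉ a :: c := fun e => t4 r (List.mem_cons_of_mem _ e) (by simp)
  have nvc : v ∉ a :: c := fun e => nv (by
    rcases List.mem_cons.1 e with e | e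
    · simp [e]
    · simp [e])
  have hra : r ≠ a := fun e => nr (by simp [e])
  have hua : u ≠ a := fun e => n1 (by simp [e])
  have hur : u ≠ r := fun e => n1 (by simp [e])
  have hwv : lv a c ≠ v := fun e => nvc (e ▸ lv_mem a c)
  have ch : (a :: (c ++ [r])).IsChain Adj := (List.isChain_cons_cons.1 t1.1).2
  have chc : (a :: c).IsChain Adj := (List.isChain_cons_cons.1 t2.1).2
  have H1 := hopf t1
  rw [swE_concat, sw_append] at H1
  simp only [lv_append, lv_cons, lv_nil, sw_cons, sw_nil] at H1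
  have H2 := sw_move hcl.symm chc nvc nr
  have L1 := A_half hcl hva hra
  have L2 := A_half hpr hcl hwv
  have L3 := A_half huv hva hua
  have L4 := A_half huv hcl.symm hur
  have S1 := A_swap hva.valid_right hcl hra hva.ne
  have S2 := A_swap hpr.valid_left hcl hpr.ne.symm hwv.symm
  have S3 := A_swap huv.valid_left hva huv.ne.symm hua.symm
  obtain ⟨T1, T2⟩ := turn_other huv hva hcl.symm hua hur hra.symm
  have chp : (p :: (l0 ++ [v])).IsChain Adj := by rw [← hl0.1]; exact s1.1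
  have chp0 : (p :: l0).IsChain Adj := List.IsChain.left_of_append (l₁ := p :: l0) chp
  have dis : ∀ x ∈ p :: (l0 ++ [v]), x ∉ a :: (c ++ [r]) := by rw [← hl0.1]; exact s3'
  have nd : (p :: (l0 ++ [v])).Nodup := by rw [← hl0.1]; exact s1.2
  have H3 := sw_move_all chp ch dis
  have dis' : ∀ x ∈ p :: l0, x ∉ [a, v, r] := by
    intro x hx hm
    have hx' : x ∈ p :: (l0 ++ [v]) := List.mem_append_left (bs := [v]) hx
    have d1 := dis x hx'
    have d2 : x ≠ v := by
      rintro rfl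
      exact (List.nodup_append.1 (show ((p :: l0) ++ [x]).Nodup from nd)).2.2 x hx x (by simp) rfl
    simp only [List.mem_cons, List.mem_append, List.not_mem_nil, or_false, not_or] at hm d1
    tauto
  have ch3 : [a, v, r].IsChain Adj := by simp [hva.symm, hcl.symm]
  have H4 := sw_move_all chp0 ch3 dis'
  have hvq : v ∈ q :: l₁ := hv ▸ lv_mem q l₁
  have P1 := sw_up hu.adj.valid_left ch fun x hx =>
    ⟨fun e => dis p (by simp) (e ▸ hx), hY x (List.mem_cons_of_mem _ (List.mem_append_right _ hx))⟩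
  have P2 := sw_up hu.adj.valid_left ch3 fun x hx =>
    ⟨fun e => dis' p (by simp) (e ▸ hx), hY x (by
      simp only [List.mem_cons, List.mem_append, List.not_mem_nil, or_false] at hx hvq ⊢
      rcases hx with rfl | rfl | rfl <;> tauto)⟩
  rw [sw_append, sw_append, sw_append, sw_append] at H3
  rw [sw_append] at P1
  simp only [lv_append, lv_cons, lv_nil, sw_cons, sw_nil, hl0.2] at H3 H4 P1 P2
  have W : wind u v (a :: (c ++ [r]) ++ [v]) =
      turn u v a + wind v a (c ++ [r]) + turn (lv a c) r v := by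
    rw [List.cons_append, wind_cons, wind_append]
    simp [add_assoc]
  rw [W]
  have T1' : (turn u v r : ℝ) = - turn u v a := by exact_mod_cast T1
  have T2' : (turn r v a : ℝ) = - turn u v a := by exact_mod_cast T2
  have hp := Real.pi_pos
  have F : Real.pi / 3 * ((turn u v a : ℝ) + wind v a (c ++ [r]) + turn (lv a c) r v) =
      Real.pi / 3 * (-4 * turn u v a) := by
    rw [T1'] at L4
    rw [T2'] at L1
    linarith [L1.1, L1.2, L2.1, L2.2, L3.1, L3.2, L4.1, L4.2]
  have F2 := mul_left_cancel₀ (by positivity) F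
  exact_mod_cast F2

end Pool.Agent.Lib.MP_4960b8_pr.SAW
end

-- part Pool.Agent.Lib.MP_4960b8_pr.SAW.Ident
section

/-!
The parafermionic identity of Duminil-Copin and Smirnov.
-/

namespace Pool.Agent.Lib.MP_4960b8_pr.SAW

open Complex

lemma sqrt_pos' : 0 < Real.sqrt (2 + Real.sqrt 2) := Real.sqrt_pos.2 (by positivity)

lemma xc_pos : 0 < xc := inv_pos.2 sqrt_pos'

lemma xc_cos : xc * (2 * Real.cos (Real.pi / 8)) = 1 := by
  rw [Real.cos_pi_div_eight, xc]
  have := sqrt_pos'
  field_simp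

noncomputable def ph (w : ℤ) : ℂ := exp ((Real.pi / 8 * w : ℝ) * I)

lemma ph_add (a b : ℤ) : ph (a + b) = ph a * ph b := by
  unfold ph; rw [← Complex.exp_add]; congr 1; push_cast; ring

lemma ph_re (w : ℤ) : (ph w).re = Real.cos (Real.pi / 8 * w) := exp_ofReal_mul_I_re _
lemma ph_im (w : ℤ) : (ph w).im = Real.sin (Real.pi / 8 * w) := exp_ofReal_mul_I_im _

lemma ph_one : (xc : ℂ) * (ph 1 + ph (-1)) = 1 := by
  have : ph 1 + ph (-1) = ((2 * Real.cos (Real.pi / 8) : ℝ) : ℂ) := by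
    apply Complex.ext
    · rw [add_re, ph_re, ph_re, ofReal_re]; simp; ring
    · rw [add_im, ph_im, ph_im, ofReal_im]; simp
  rw [this, ← ofReal_mul, xc_cos, ofReal_one]

lemma ph_four : ph 4 + ph (-4) = 0 := by
  have e : Real.pi / 8 * 4 = Real.pi / 2 := by ring
  apply Complex.ext
  · rw [add_re, ph_re, ph_re]; simp [e]
  · rw [add_im, ph_im, ph_im]; simp

noncomputable def cf (p q : V) (l : List V) : ℂ := (xc : ℂ) ^ l.length * ph (wind p q l)

lemma cf_concat (p q : V) (l : List V) (r : V) :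
    cf p q (l ++ [r]) = cf p q l * (xc * ph (turn (pv p q l) (lv q l) r)) := by
  simp only [cf, wind_append, ph_add, List.length_append, List.length_singleton, pow_succ,
    wind_cons, wind_nil, add_zero]
  ring

lemma mem_split {q u : V} {l : List V} (h : u ∈ q :: l) : ∃ l₁ c, l = l₁ ++ c ∧ lv q l₁ = u := by
  induction l generalizing q with
  | nil => exact ⟨[], [], rfl, (List.mem_singleton.1 h).symm⟩
  | cons r l ih =>
    rcases List.mem_cons.1 h with rfl | h
    · exact ⟨[], r :: l, rfl, rfl⟩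
    · obtain ⟨l₁, c, e1, e2⟩ := ih h
      exact ⟨r :: l₁, c, by rw [e1]; rfl, e2⟩

lemma lv_mem_of_ne {q : V} {l : List V} (h : l ≠ []) : lv q l ∈ l := by
  rcases l with _ | ⟨r, l⟩
  · exact absurd rfl h
  · exact lv_mem r l

lemma prefix_unique {q : V} {l₁ c l₂ d : List V} (hn : (q :: (l₁ ++ c)).Nodup)
    (e : l₁ ++ c = l₂ ++ d) (hl : lv q l₁ = lv q l₂) : l₁ = l₂ := by
  have key : ∀ a b m : List V, (q :: (a ++ b ++ m)).Nodup → lv q a = lv q (a ++ b) → b = [] := by
    intro a b m hn hl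
    by_contra hb
    rw [lv_append] at hl
    have h1 := lv_mem_of_ne (q := lv q a) hb
    rw [← hl] at h1
    have : ((q :: a) ++ (b ++ m)).Nodup := by simpa using hn
    exact (List.nodup_append.1 this).2.2 _ (lv_mem q a) _ (List.mem_append_left _ h1) rfl
  rcases List.append_eq_append_iff.1 e with ⟨a, e1, e2⟩ | ⟨a, e1, e2⟩
  · subst e1 e2
    rw [key l₁ a d (by simpa using hn) hl]; simp
  · subst e1 e2
    rw [key l₂ a c hn hl.symm]; simp

lemma reverse_cons_lv (a : V) (c : List V) :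
    ∃ d, (a :: c).reverse = lv a c :: d ∧ lv (lv a c) d = a ∧ d.length = c.length := by
  induction c generalizing a with
  | nil => exact ⟨[], rfl, rfl, rfl⟩
  | cons b c ih =>
    obtain ⟨d, e1, e2, e3⟩ := ih b
    exact ⟨d ++ [a], by rw [List.reverse_cons, e1]; rfl, by simp, by simp [e3]⟩

section
variable {D : Set V} {p q : V}

lemma cY_le_of_mem (hu : UpE p q) {u : V} (hv : Valid u) (hk : q.k ≤ u.k) : cY p ≤ cY u := by
  have h1 := hu.1
  have h2 : q.k = p.k + 1 := by rw [hu.2]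
  unfold Valid at hv
  unfold cY
  omega

lemma cY_le_inn (hu : UpE p q) (hD : ∀ u ∈ D, q.k ≤ u.k) {l : List V} (h : Saw p q l)
    (hi : Inn D q l) : ∀ u ∈ q :: l, cY p ≤ cY u := by
  intro u hm
  rcases hi.mem hm with h1 | h1
  · exact cY_le_of_mem hu (h.valid (List.mem_cons_of_mem _ hm)) (hD u h1)
  · by_cases hl : l = []
    · subst hl
      rw [h1]
      exact cY_le_of_mem hu hu.adj.valid_right le_rfl
    · have a1 := hD _ (hi.pv_mem (p := p) hl)
      have a2 := h.adj_last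
      rw [← h1, adj_iff] at a2
      have h1 := hu.1
      have h2 : q.k = p.k + 1 := by rw [hu.2]
      unfold cY
      omega

/-- walks closing a loop -/
def Clos (D : Set V) (p q : V) : Set (List V × List V) :=
  {x | Saw p q (x.1 ++ x.2) ∧ (∀ u ∈ q :: (x.1 ++ x.2), u ∈ D) ∧ 2 ≤ x.2.length ∧
    Adj (lv q (x.1 ++ x.2)) (lv q x.1)}

lemma clos_rev (hu : UpE p q) (hD : ∀ u ∈ D, q.k ≤ u.k) {x : List V × List V}
    (hx : x ∈ Clos D p q) : (x.1, x.2.reverse) ∈ Clos D p q ∧
      cf p q (x.1 ++ x.2.reverse ++ [lv q x.1]) = - cf p q (x.1 ++ x.2 ++ [lv q x.1]) := by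
  obtain ⟨l₁, c⟩ := x
  obtain ⟨h1, h2, h3, h4⟩ := hx
  dsimp only at *
  rcases c with _ | ⟨a, c⟩
  · simp at h3
  have hc : c ≠ [] := by rintro rfl; simp at h3
  obtain ⟨d, e1, e2, e3⟩ := reverse_cons_lv a c
  have hd : d ≠ [] := by
    rintro rfl
    exact hc (List.length_eq_zero_iff.1 e3.symm)
  obtain ⟨s1, s2, s3'⟩ := saw_append.1 h1
  simp only [lv_append, lv_cons] at h4
  have hva : Adj (lv q l₁) a := s2.tail.adj
  have hs : Saw p q (l₁ ++ (a :: c).reverse) := by
    refine saw_append.2 ⟨s1, ⟨?_, ?_⟩, fun u hu hm => s3' u hu (List.mem_reverse.1 hm)⟩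
    · have : ((a :: c).reverse).IsChain Adj := by
        rw [List.isChain_reverse]
        exact ((List.isChain_cons_cons.1 s2.tail.1).2).imp fun _ _ h => h.symm
      rw [e1] at this ⊢
      exact List.isChain_cons_cons.2 ⟨s2.adj, List.isChain_cons_cons.2 ⟨h4.symm, this⟩⟩
    · exact (((List.reverse_perm (a :: c)).cons _).cons _).nodup_iff.2 s2.2
  have hm : ∀ u ∈ q :: (l₁ ++ (a :: c).reverse), u ∈ D := by
    intro u hu
    apply h2 u
    simp only [List.mem_cons, List.mem_append, List.mem_reverse] at hu ⊢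
    exact hu
  refine ⟨⟨hs, hm, by simpa using h3, ?_⟩, ?_⟩
  · dsimp only
    rw [e1, lv_append, lv_cons, e2]
    exact hva.symm
  · have w1 := wind_close hu h1 (cY_le_inn hu hD h1 (Inn_of_forall h2)) hc h4
    rw [e1] at hs hm ⊢
    have w2 := wind_close hu hs (cY_le_inn hu hD hs (Inn_of_forall hm)) hd
      (by rw [e2]; exact hva.symm)
    have n1 := (saw_cons.1 s2).2.1
    have hr := lv_mem_of_ne (q := a) hc
    have t := (turn_other s1.adj_last hva h4.symm (fun e => n1 (by simp [e]))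
      (fun e => n1 (by simp [e, hr]))
      (fun e => (List.nodup_cons.1 (List.nodup_cons.1 s2.tail.2).2).1 (e ▸ hr))).1
    unfold cf
    rw [List.append_assoc, List.append_assoc, wind_append, wind_append p q l₁, w1, w2, t, ph_add,
      ph_add]
    have hl : (l₁ ++ (lv a c :: d ++ [lv q l₁])).length = (l₁ ++ (a :: c ++ [lv q l₁])).length := by
      simp [e3]
    rw [hl]
    have f := ph_four
    rcases turn_cases (pv p q l₁) (lv q l₁) a with e | e <;> rw [e] <;> norm_num
    · linear_combination (xc : ℂ) ^ (l₁.length + (c.length + 1 + 1)) * ph (wind p q l₁) * f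
    · linear_combination (xc : ℂ) ^ (l₁.length + (c.length + 1 + 1)) * ph (wind p q l₁) * f

lemma clos_finite (hf : D.Finite) : (Clos D p q).Finite := by
  have h := finite_nodup D hf
  refine (h.prod h).subset ?_
  rintro ⟨l₁, c⟩ ⟨h1, h2, -, -⟩
  have n := List.nodup_append.1 (List.nodup_cons.1 (List.nodup_cons.1 h1.2).2).2
  exact ⟨⟨n.1, fun u hu => h2 u (by simp [hu])⟩, n.2.1, fun u hu => h2 u (by simp [hu])⟩

lemma clos_sum (hu : UpE p q) (hD : ∀ u ∈ D, q.k ≤ u.k) (hf : D.Finite) :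
    ∑ᶠ x ∈ Clos D p q, cf p q (x.1 ++ x.2 ++ [lv q x.1]) = 0 := by
  have hb : Set.BijOn (fun x : List V × List V => (x.1, x.2.reverse)) (Clos D p q) (Clos D p q) := by
    refine Set.InvOn.bijOn (f' := fun x : List V × List V => (x.1, x.2.reverse)) ?_ ?_ ?_
    · constructor <;> intro x _ <;> simp
    · exact fun x hx => (clos_rev hu hD hx).1
    · exact fun x hx => (clos_rev hu hD hx).1
  have h1 := finsum_mem_eq_of_bijOn (f := fun x => - cf p q (x.1 ++ x.2 ++ [lv q x.1]))
    (g := fun x => cf p q (x.1 ++ x.2 ++ [lv q x.1])) _ hb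
    (fun x hx => (clos_rev hu hD hx).2.symm)
  rw [finsum_mem_neg_distrib _ (clos_finite hf)] at h1
  linear_combination (-1 / 2 : ℂ) * h1

lemma clos_bij (hu : UpE p q) (hD : ∀ u ∈ D, q.k ≤ u.k) {N : V → V → V}
    (hN1 : ∀ a b, Adj a b → Adj b (N a b)) (hN2 : ∀ a b, Adj a b → N a b ≠ a) :
    Set.BijOn (fun x : List V × List V => x.1 ++ x.2)
      {x | x ∈ Clos D p q ∧ lv q x.1 = N (pv p q (x.1 ++ x.2)) (lv q (x.1 ++ x.2))}
      {l | (Saw p q l ∧ Inn D q l ∧ lv q l ∈ D) ∧ N (pv p q l) (lv q l) ∈ p :: q :: l} := by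
  refine ⟨?_, ?_, ?_⟩
  · rintro ⟨l₁, c⟩ ⟨⟨h1, h2, h3, h4⟩, h5⟩
    refine ⟨⟨h1, Inn_of_forall h2, h2 _ (lv_mem _ _)⟩, ?_⟩
    dsimp only at *
    rw [← h5]
    have := lv_mem q l₁
    simp only [List.mem_cons, List.mem_append] at this ⊢
    tauto
  · rintro ⟨l₁, c⟩ ⟨⟨h1, -⟩, h5⟩ ⟨l₂, d⟩ ⟨-, h6⟩ e
    dsimp only at *
    have := prefix_unique (List.nodup_cons.1 h1.2).2 e (by rw [h5, h6, e])
    subst this
    rw [List.append_cancel_left e]
  · rintro l ⟨⟨h1, h2, h3⟩, h4⟩
    have a1 := hN1 _ _ h1.adj_last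
    have a2 := hN2 _ _ h1.adj_last
    have hp : N (pv p q l) (lv q l) ≠ p := by
      intro e
      have b1 := hD _ h3
      have b2 : lv q l = q := by
        rw [e, adj_iff] at a1
        have c1 := hu.1
        have c2 := hu.2
        rw [V.ext_iff] at c2 ⊢
        dsimp only at c2
        omega
      have b3 : l = [] := by
        by_contra hl
        have := lv_mem_of_ne (q := q) hl
        rw [b2] at this
        exact (List.nodup_cons.1 (List.nodup_cons.1 h1.2).2).1 this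
      subst b3
      exact a2 e
    obtain ⟨l₁, c, rfl, e⟩ := mem_split ((List.mem_cons.1 h4).resolve_left hp)
    refine ⟨(l₁, c), ⟨⟨h1, fun u hu => ?_, ?_, by rw [e]; exact a1⟩, e⟩, rfl⟩
    · rcases h2.mem hu with h | h
      · exact h
      · rw [h]; exact h3
    · rcases c with _ | ⟨a, _ | ⟨b, c⟩⟩
      · rw [← e] at a1; simp at a1; exact absurd rfl a1.ne
      · rw [← e] at a2; simp at a2
      · simp

lemma new_bij {N : V → V → V} (hN1 : ∀ a b, Adj a b → Adj b (N a b)) :
    Set.BijOn (fun l : List V => l ++ [N (pv p q l) (lv q l)])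
      {l | (Saw p q l ∧ Inn D q l ∧ lv q l ∈ D) ∧ N (pv p q l) (lv q l) ∉ p :: q :: l}
      {l | (Saw p q l ∧ Inn D q l) ∧ ∃ m, l = m ++ [N (pv p q m) (lv q m)]} := by
  refine ⟨?_, ?_, ?_⟩
  · rintro l ⟨⟨h1, h2, h3⟩, h4⟩
    refine ⟨⟨saw_append.2 ⟨h1, ?_, ?_⟩, (Inn_append _ _ _ _).2 ⟨h2, by simpa using h3⟩⟩, l, rfl⟩
    · rw [saw_cons, saw_nil]
      refine ⟨h1.adj_last, ?_, hN1 _ _ h1.adj_last⟩
      simp only [List.mem_cons, List.not_mem_nil, or_false, not_or]
      exact ⟨h1.adj_last.ne, fun e => h4 (e ▸ pv_mem p q l)⟩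
    · intro u hu hm
      rw [List.mem_singleton.1 hm] at hu
      exact h4 hu
  · intro l _ m _ e
    exact (List.append_inj' e rfl).1
  · rintro l ⟨⟨h1, h2⟩, m, rfl⟩
    obtain ⟨s1, -, s2⟩ := saw_append.1 h1
    obtain ⟨i1, i2⟩ := (Inn_append _ _ _ _).1 h2
    exact ⟨m, ⟨⟨s1, i1, i2.1⟩, fun e => s2 _ e (by simp)⟩, rfl⟩

theorem ident_complex (hu : UpE p q) (hD : ∀ u ∈ D, q.k ≤ u.k) (hf : D.Finite) :
    ∑ᶠ l ∈ Exit D p q, cf p q l = 1 := by
  have fS := finite_inn hf p q
  set S := {l | Saw p q l ∧ Inn D q l} with hS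
  set T := {l | Saw p q l ∧ Inn D q l ∧ lv q l ∈ D} with hT
  have fT : T.Finite := fS.subset fun l h => ⟨h.1, h.2.1⟩
  have fC := clos_finite (p := p) (q := q) hf
  have h1 : ∑ᶠ l ∈ S, cf p q l = ∑ᶠ l ∈ T, cf p q l + ∑ᶠ l ∈ Exit D p q, cf p q l := by
    rw [← finsum_mem_union _ fT (finite_exit hf p q)]
    · refine finsum_mem_congr ?_ fun _ _ => rfl
      ext l
      simp only [hS, hT, Exit, Set.mem_union, Set.mem_ofPred_eq]
      tauto
    · exact Set.disjoint_left.2 fun l h h' => h'.2.2 h.2.2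
  have side : ∀ N : V → V → V, (∀ a b, Adj a b → Adj b (N a b)) → (∀ a b, Adj a b → N a b ≠ a) →
      ∑ᶠ l ∈ T, cf p q (l ++ [N (pv p q l) (lv q l)]) =
        ∑ᶠ l ∈ {l | (Saw p q l ∧ Inn D q l) ∧ ∃ m, l = m ++ [N (pv p q m) (lv q m)]}, cf p q l +
        ∑ᶠ x ∈ {x | x ∈ Clos D p q ∧ lv q x.1 = N (pv p q (x.1 ++ x.2)) (lv q (x.1 ++ x.2))},
          cf p q (x.1 ++ x.2 ++ [lv q x.1]) := by
    intro N hN1 hN2
    rw [← finsum_mem_eq_of_bijOn (f := fun l => cf p q (l ++ [N (pv p q l) (lv q l)])) _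
      (new_bij hN1) (fun _ _ => rfl),
      finsum_mem_eq_of_bijOn (g := fun l => cf p q (l ++ [N (pv p q l) (lv q l)])) _
      (clos_bij hu hD hN1 hN2) (fun x hx => by rw [← hx.2]),
      ← finsum_mem_union _ (fT.subset fun l h => h.1) (fT.subset fun l h => h.1)]
    · refine finsum_mem_congr ?_ fun _ _ => rfl
      ext l
      simp only [hT, Set.mem_union, Set.mem_ofPred_eq]
      tauto
    · exact Set.disjoint_left.2 fun l h h' => h.2 h'.2
  have sL := side Lf (fun _ _ => adj_Lf) (fun _ _ => Lf_ne)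
  have sR := side Rt (fun _ _ => adj_Rt) (fun _ _ => Rt_ne)
  have h2 : ∑ᶠ l ∈ T, cf p q l = ∑ᶠ l ∈ T, cf p q (l ++ [Lf (pv p q l) (lv q l)]) +
      ∑ᶠ l ∈ T, cf p q (l ++ [Rt (pv p q l) (lv q l)]) := by
    rw [← finsum_mem_add_distrib fT]
    refine finsum_mem_congr rfl fun l hl => ?_
    rw [cf_concat, cf_concat, turn_Lf, turn_Rt hl.1.adj_last]
    linear_combination (- cf p q l) * ph_one
  have h3 := clos_sum hu hD hf
  have e3 : Clos D p q =
      {x | x ∈ Clos D p q ∧ lv q x.1 = Lf (pv p q (x.1 ++ x.2)) (lv q (x.1 ++ x.2))} ∪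
      {x | x ∈ Clos D p q ∧ lv q x.1 = Rt (pv p q (x.1 ++ x.2)) (lv q (x.1 ++ x.2))} := by
    ext ⟨l₁, c⟩
    simp only [Set.mem_union, Set.mem_ofPred_eq, ← and_or_left, iff_self_and]
    rintro ⟨a1, -, a3, a4⟩
    refine adj_cases a1.adj_last a4 ?_
    dsimp only at *
    rcases c with _ | ⟨a, _ | ⟨b, c⟩⟩
    · simp at a3
    · simp at a3
    · intro e
      refine (saw_append.1 a1).2.2 _ (List.mem_cons_of_mem _ (lv_mem q l₁)) ?_
      rw [← e, pv_append, pv_cons, pv_cons]
      exact pv_mem a b c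
  rw [e3, finsum_mem_union _ (fC.subset fun x h => h.1) (fC.subset fun x h => h.1)] at h3
  swap
  · exact Set.disjoint_left.2 fun x h h' => Lf_ne_Rt h.1.1.adj_last (h.2.symm.trans h'.2)
  have e4 : S = insert []
      ({l | (Saw p q l ∧ Inn D q l) ∧ ∃ m, l = m ++ [Lf (pv p q m) (lv q m)]} ∪
      {l | (Saw p q l ∧ Inn D q l) ∧ ∃ m, l = m ++ [Rt (pv p q m) (lv q m)]}) := by
    ext l
    simp only [hS, Set.mem_insert_iff, Set.mem_union, Set.mem_ofPred_eq]
    constructor
    · intro h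
      rcases List.eq_nil_or_concat' l with rfl | ⟨m, r, rfl⟩
      · exact Or.inl rfl
      · right
        obtain ⟨s1, s2, s3'⟩ := saw_append.1 h.1
        rcases adj_cases s1.adj_last s2.tail.adj
          (fun e => s3' _ (pv_mem p q m) (by simp [e])) with e | e
        · exact Or.inl ⟨h, m, by rw [← e]⟩
        · exact Or.inr ⟨h, m, by rw [← e]⟩
    · rintro (rfl | h | h)
      · exact ⟨saw_nil.2 hu.adj, trivial⟩
      · exact h.1
      · exact h.1
  rw [e4, finsum_mem_insert _ (by simp)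
    ((fS.subset fun x h => h.1).union (fS.subset fun x h => h.1)),
    finsum_mem_union _ (fS.subset fun x h => h.1) (fS.subset fun x h => h.1)] at h1
  swap
  · refine Set.disjoint_left.2 ?_
    rintro l ⟨a, m, e⟩ ⟨-, m', e'⟩
    obtain ⟨f1, f2⟩ := List.append_inj' (e.symm.trans e') rfl
    subst f1
    rw [e] at a
    exact Lf_ne_Rt (saw_append.1 a.1).1.adj_last (List.singleton_inj.1 f2)
  have c0 : cf p q [] = 1 := by simp [cf, ph]
  rw [c0] at h1
  linear_combination - h1 - h2 - sL - sR - h3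

end

end Pool.Agent.Lib.MP_4960b8_pr.SAW
end
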