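import Pool.Agent.Lib.MP_4960b8_pr.SAW.Final

-- part Pool.Agent.Lib.MP_4960b8_pr.SAW.Tube
section

/-!
Walks confined to a corridor.
-/

namespace Pool.Agent.Lib.MP_4960b8_pr.SAW

def Str (w : ℤ) : Set V := {u | -w < u.j - u.i ∧ u.j - u.i < w}

lemma mem_Str {w : ℤ} {u : V} : u ∈ Str w ↔ -w < u.j - u.i ∧ u.j - u.i < w := Iff.rfl

lemma Str_conv (w : ℤ) : Conv (Str w) := by
  intro x hx y hy z v1 v2 v3 e1 e2 e3 e4
  rw [mem_Str] at *
  unfold cX at *
  omega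

noncomputable def Wd (n w : ℤ) : ℝ :=
  ms (om p0 q0) {l | l ∈ Exit (tri n) p0 q0 ∧ ¬ Inn (Str w) q0 l}

lemma Wd_eq (n w : ℤ) :
    Wd n w = ms (om p0 q0) {l | l ∈ Exit (tri n ∩ Str w) p0 q0 ∧ lv q0 l ∈ tri n} := by
  rw [transfer ((good_tri n).inter (Str_conv w)) (good_tri n) Set.inter_subset_left, Wd]
  congr 1
  ext l
  exact ⟨fun h => ⟨h.1, fun a => h.2 (Inn_inter.1 a).2⟩,
    fun h => ⟨h.1, fun a => h.2 (Inn_inter.2 ⟨h.1.2.1, a⟩)⟩⟩

lemma Wd_mono {n n' : ℤ} (h : n ≤ n') (w : ℤ) : Wd n w ≤ Wd n' w := by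
  rw [Wd_eq, Wd_eq]
  have g := (good_tri n').inter (Str_conv w)
  exact ms_mono (g.finP _) (fun l hl => ⟨⟨hl.1.1, hl.1.2.1.mono
    (Set.inter_subset_inter_left _ (tri_mono h)), fun a => hl.1.2.2 ⟨hl.2, a.2⟩⟩,
    tri_mono h hl.2⟩) fun l hl => g.om_nonneg hl.1

lemma wide_one (n : ℕ) (w : ℤ) :
    vv n ≤ Wd n w + 2 * mu {l | l ∈ RE n ∧ Inn (Str w) q0 l} := by
  have g := (good_tri n).inter (Str_conv w)
  have e1 : vv n ≤ esc (tri n ∩ Str w) p0 q0 := esc_anti g (good_tri n) Set.inter_subset_left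
  have e2 := ms_split (f := om p0 q0) (g.finP fun l => ¬ (lv q0 l).k < q0.k)
    fun l => lv q0 l ∈ tri n
  have e3 : ms (om p0 q0) {l | l ∈ {l | l ∈ Exit (tri n ∩ Str w) p0 q0 ∧ ¬ (lv q0 l).k < q0.k} ∧
      lv q0 l ∈ tri n} ≤ Wd n w := by
    rw [Wd_eq]
    exact ms_mono (g.finP _) (fun l hl => ⟨hl.1.1, hl.2⟩) fun l hl => g.om_nonneg hl.1
  have fR : {l | l ∈ RE n ∧ Inn (Str w) q0 l}.Finite := (RE_fin n).subset fun _ h => h.1
  have fL : {l | l ∈ LE n ∧ Inn (Str w) q0 l}.Finite := (LE_fin n).subset fun _ h => h.1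
  have e4 : mu {l | l ∈ LE n ∧ Inn (Str w) q0 l} ≤ mu {l | l ∈ RE n ∧ Inn (Str w) q0 l} :=
    mu_le_map (sym_M (a := 0) (b := 0) (c := 0) rfl) fR fun l hl => by
      refine ⟨⟨(mirror_exit hl.1.1).1, by
        rw [(mirror_exit hl.1.1).2]; simpa [gM] using hl.1.2⟩, ?_⟩
      have e2 : gM 0 0 0 q0 = q0 := by simp [gM, q0]
      have := hl.2.map (D' := Str w) (g := gM 0 0 0) fun u hu => by
        rw [mem_Str] at *; dsimp only [gM]; omega
      rwa [e2] at this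
  have e5 : ms (om p0 q0) {l | l ∈ {l | l ∈ Exit (tri n ∩ Str w) p0 q0 ∧ ¬ (lv q0 l).k < q0.k} ∧
      ¬ lv q0 l ∈ tri n} ≤ mu ({l | l ∈ RE n ∧ Inn (Str w) q0 l} ∪
        {l | l ∈ LE n ∧ Inn (Str w) q0 l}) := by
    refine (ms_le_ms (g.finE.subset fun _ h => h.1.1) fun l _ => om_le _ _ _).trans
      (mu_mono (fR.union fL) fun l hl => ?_)
    have a1 := hl.2
    have a2 := hl.1.2
    have a3 := hl.1.1.1.adj_last.valid_right
    have a5 := Inn_inter.1 hl.1.1.2.1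
    have a6 : l ∈ Exit (tri n) p0 q0 := ⟨hl.1.1.1, a5.1, a1⟩
    rw [mem_tri] at a1
    unfold Valid at a3
    have : q0.k = 0 := rfl
    by_cases a4 : (lv q0 l).i < 1 - n
    · exact Or.inl ⟨⟨a6, a4⟩, a5.2⟩
    · exact Or.inr ⟨⟨a6, by omega⟩, a5.2⟩
  have e6 := mu_union_le fR fL
  unfold esc at e1
  linarith

theorem wide {m : ℕ} (hm : 0 < m) : vv (2 * m) ≤ 10 * Wd (4 * m) m := by
  let X : ℕ → ℕ → Set (List V) := fun n e => {l | (l ∈ RE n ∧ Inn (Str m) q0 l) ∧ (lv q0 l).k = e}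
  let Y : ℕ → ℕ → Set (List V) := fun e n => {l | (l ∈ RE e ∧ ¬ Inn (Str m) q0 l) ∧ (lv q0 l).k = n}
  have h1 : ∀ n ∈ Finset.range m, vv (2 * m) ≤ Wd (4 * m) m +
      2 * ∑ e ∈ Finset.range (4 * m), mu (Y e (m + n)) := by
    intro n hn
    have hn' := Finset.mem_range.1 hn
    have a1 := wide_one (m + n) m
    have a2 := vv_anti (show m + n ≤ 2 * m by omega)
    have a3 := Wd_mono (show ((m + n : ℕ) : ℤ) ≤ 4 * m by omega) m
    have a4 := mu_le_sum (S := {l | l ∈ RE (m + n : ℕ) ∧ Inn (Str m) q0 l}) (Finset.range (4 * m))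
      (X (m + n)) (fun e _ => (RE_fin _).subset fun _ h => h.1.1) fun l hl => by
        obtain ⟨b1, b2, b3, b4⟩ := RE_step (by omega) hl.1
        rw [b3, mem_tri] at b1
        dsimp only at b1
        exact ⟨(lv q0 l).k.toNat, Finset.mem_range.2 (by omega), hl, by omega⟩
    have a5 : ∑ e ∈ Finset.range (4 * m), mu (X (m + n) e) ≤
        ∑ e ∈ Finset.range (4 * m), mu (Y e (m + n)) := by
      refine Finset.sum_le_sum fun e _ => ?_
      refine mu_le_rev (sym_S (a := 1 - e) (b := e - (m + n)) (c := m + n - 1) (by omega))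
        (p := p0) (q := q0) (p' := ⟨1 - (m + n), 1 + (m + n) - e, e⟩)
        (q' := ⟨-(m + n), 1 + (m + n) - e, e⟩) ((RE_fin _).subset fun _ h => h.1.1)
        (fun l hl => ?_) fun l hl => ?_
      · obtain ⟨-, b2, b3, b4⟩ := RE_step (by omega) hl.1.1
        have := hl.2
        rw [b3, V.ext_iff, V.ext_iff]
        dsimp only
        omega
      · obtain ⟨-, b2, b3, b4⟩ := RE_step (by omega) hl.1.1
        have b5 := hl.2
        have b6 := hl.1.2.pv_mem (p := p0) (by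
          rintro rfl
          have : (lv q0 []).i = 1 := rfl
          omega)
        rw [b3, mem_Str] at b6
        dsimp only at b6
        obtain ⟨s1, s3, s4, s2, -⟩ := rev_map (sym_S (a := 1 - e) (b := e - (m + n))
          (c := m + n - 1) (by omega)) hl.1.1.1.1 (by
            show _ = (⟨1, 1, -1⟩ : V)
            rw [V.ext_iff]; dsimp only [gS]; omega) (by
            show _ = (⟨1, 1, 0⟩ : V)
            rw [b3, V.ext_iff]; dsimp only [gS]; omega)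
        refine ⟨⟨⟨⟨s1, s2 _ _ (fun v hv => ?_) hl.1.1.1.2.1, fun a => ?_⟩, ?_⟩, fun a => ?_⟩, ?_⟩
        · rw [mem_tri] at *; dsimp only [gS]; omega
        · rw [s3, mem_tri] at a
          dsimp only [gS, p0] at a
          omega
        · rw [s3]; dsimp only [gS, p0]; omega
        · have := a.pv_mem (p := p0) (by
            intro e'
            rw [e', V.ext_iff] at s3
            dsimp only [gS, p0, q0, lv_nil] at s3
            omega)
          rw [s4, mem_Str] at this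
          dsimp only [gS, q0] at this
          omega
        · rw [s3]; dsimp only [gS, p0]; omega
    linarith
  have h2 : ∀ e ∈ Finset.range (4 * m),
      ∑ n ∈ Finset.range m, mu (Y e (m + n)) ≤ 10 / 9 * Wd (4 * m) m := by
    intro e he
    have he' := Finset.mem_range.1 he
    have fR : {l | l ∈ RE e ∧ ¬ Inn (Str m) q0 l}.Finite := (RE_fin e).subset fun _ h => h.1
    have a1 : ∑ n ∈ Finset.range m, mu (Y e (m + n)) ≤ mu {l | l ∈ RE e ∧ ¬ Inn (Str m) q0 l} :=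
      sum_le_ms (Finset.range m) (fun n => Y e (m + n)) fR (fun _ _ _ h => h.1)
        (fun n _ n' _ hne => Set.disjoint_left.2 fun l a1 a2 => hne (by
          have := a1.2; have := a2.2; omega)) fun l _ => (wt_pos l).le
    have a2 : ms (om p0 q0) {l | l ∈ RE e ∧ ¬ Inn (Str m) q0 l} = c8 * mu _ :=
      ms_eq_mul fR fun l hl => RE_om (by omega) hl.1
    have a3 : ms (om p0 q0) {l | l ∈ RE e ∧ ¬ Inn (Str m) q0 l} ≤ Wd e m :=
      ms_mono ((good_tri e).finP _) (fun l hl => ⟨hl.1.1, hl.2⟩)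
        fun l hl => (good_tri e).om_nonneg hl.1
    have a4 := Wd_mono (show (e : ℤ) ≤ 4 * m by omega) m
    nlinarith [c8_ge, mu_nonneg {l | l ∈ RE e ∧ ¬ Inn (Str m) q0 l}]
  have h3 := Finset.sum_le_sum h1
  have h4 := Finset.sum_le_sum h2
  rw [Finset.sum_add_distrib, ← Finset.mul_sum, Finset.sum_comm] at h3
  simp only [Finset.sum_const, Finset.card_range, nsmul_eq_mul] at h3 h4
  push_cast at h4
  have m0 : (0 : ℝ) < m := by exact_mod_cast hm
  have W0 : 0 ≤ Wd (4 * m) m := ms_nonneg fun l hl => (good_tri _).om_nonneg hl.1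
  refine le_of_mul_le_mul_left ?_ m0
  nlinarith [mul_nonneg m0.le W0]

def Cor (g : ℤ → ℤ) (w h : ℤ) : Set V :=
  {v | Valid v ∧ 0 ≤ v.k ∧ v.k < h ∧ -w < v.j - v.i - g v.k ∧ v.j - v.i - g v.k < w}

lemma mem_Cor {g : ℤ → ℤ} {w h : ℤ} {v : V} : v ∈ Cor g w h ↔
    (v.i + v.j + v.k = 1 ∨ v.i + v.j + v.k = 2) ∧ 0 ≤ v.k ∧ v.k < h ∧
      -w < v.j - v.i - g v.k ∧ v.j - v.i - g v.k < w := Iff.rfl

lemma Cor_conv (g : ℤ → ℤ) (w h : ℤ) : Conv (Cor g w h) := by
  intro x hx y hy z v1 v2 v3 e1 e2 e3 e4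
  have a1 : x.k = z.k := by unfold Valid cY at *; omega
  have a2 : y.k = z.k := by unfold Valid cY at *; omega
  rw [mem_Cor] at *
  rw [a1] at hx
  rw [a2] at hy
  unfold Valid cX at *
  omega

lemma good_Cor (g : ℤ → ℤ) (w h : ℤ) : Good (Cor g w h) p0 q0 := by
  refine ⟨up0, ?_, Cor_conv g w h, fun u hu => hu.2.1⟩
  refine Set.Finite.of_finite_image
    (f := fun v : V => (v.k, v.j - v.i - g v.k, v.i + v.j + v.k))
    (((Set.finite_Icc 0 h).prod ((Set.finite_Icc (-w) w).prod (Set.finite_Icc 1 2))).subset ?_) ?_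
  · rintro _ ⟨v, hv, rfl⟩
    rw [mem_Cor] at hv
    simp only [Set.mem_prod, Set.mem_Icc]
    omega
  · intro u _ v _ e
    simp only [Prod.mk.injEq] at e
    obtain ⟨e1, e2, e3⟩ := e
    rw [e1] at e2
    rw [V.ext_iff]
    omega

lemma Cor_mono (g : ℤ → ℤ) (w : ℤ) {h h' : ℤ} (e : h ≤ h') : Cor g w h ⊆ Cor g w h' := by
  intro v hv; rw [mem_Cor] at *; omega

def Top (g : ℤ → ℤ) (w h : ℤ) : Set (List V) :=
  {l | l ∈ Exit (Cor g w h) p0 q0 ∧ (lv q0 l).k = h}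

lemma Top_fin (g : ℤ → ℤ) (w h : ℤ) : (Top g w h).Finite := (good_Cor g w h).finP _

lemma Top_step {g : ℤ → ℤ} {w h : ℤ} {l : List V} (hl : l ∈ Top g w h) :
    wind p0 q0 l = 0 ∧ pv p0 q0 l = ⟨(lv q0 l).i, (lv q0 l).j, h - 1⟩ ∧
      (lv q0 l).i + (lv q0 l).j + h = 2 := by
  have a1 := top_step up0 hl.1.1 (hl.1.2.1.mono fun u hu => hu.2.2.1) hl.2
  have a2 := adj_iff.1 hl.1.1.adj_last
  have a3 := hl.2
  refine ⟨(good_Cor g w h).wind_top hl.1 a1, ?_, by omega⟩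
  rw [V.ext_iff]; dsimp only; omega

lemma Top_not_inn {g : ℤ → ℤ} {w h s : ℤ} (h0 : 0 ≤ h) (hs : h < s) {l : List V}
    (hl : l ∈ Top g w s) : ¬ Inn (Cor g w h) q0 l := by
  intro a
  have a1 := (a.pv_mem (p := p0) (by
    rintro rfl
    have := hl.2
    have : (lv q0 []).k = 0 := rfl
    omega)).2.2.1
  rw [(Top_step hl).2.1] at a1
  dsimp only at a1
  omega

def Kill (g : ℤ → ℤ) (w h h' : ℤ) : Set (List V) :=
  {l | l ∈ {l | l ∈ Exit (Cor g w h') p0 q0 ∧ ¬ Inn (Cor g w h) q0 l} ∧ ¬ (lv q0 l).k = h'}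

lemma top_kill (g : ℤ → ℤ) (w : ℤ) {h h' : ℤ} (h0 : 0 ≤ h) (hh : h < h') :
    mu (Top g w h') + ms (om p0 q0) (Kill g w h h') ≤ mu (Top g w h) := by
  have G := good_Cor g w h
  have G' := good_Cor g w h'
  have e := transfer G G' (Cor_mono g w hh.le)
  rw [ms_split (G'.finP _) fun l => (lv q0 l).k = h'] at e
  have e1 : ms (om p0 q0) {l | l ∈ {l | l ∈ Exit (Cor g w h') p0 q0 ∧ ¬ Inn (Cor g w h) q0 l} ∧
      (lv q0 l).k = h'} = 1 * mu (Top g w h') := by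
    rw [← ms_eq_mul (f := om p0 q0) (Top_fin g w h') fun l hl => by
      simp [om, (Top_step hl).1]]
    congr 1
    ext l
    exact ⟨fun a => ⟨a.1.1, a.2⟩, fun a => ⟨⟨a.1, Top_not_inn h0 hh a⟩, a.2⟩⟩
  have e2 : ms (om p0 q0) {l | l ∈ Exit (Cor g w h) p0 q0 ∧ lv q0 l ∈ Cor g w h'} ≤
      mu (Top g w h) := by
    refine (ms_le_ms (G.finP _) fun l _ => om_le _ _ _).trans
      (mu_mono (Top_fin g w h) fun l hl => ⟨hl.1, ?_⟩)
    have a1 := hl.1.2.2
    have a2 := hl.2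
    have a3 := adj_iff.1 hl.1.1.adj_last
    rw [mem_Cor] at a1 a2
    by_cases e' : l = []
    · have : (lv q0 l).k = 0 := by rw [e']; rfl
      omega
    · have := (hl.1.2.1.pv_mem (p := p0) e').2.2.1
      omega
  unfold Kill
  linarith

lemma Kill_fin (g : ℤ → ℤ) (w h h' : ℤ) : (Kill g w h h').Finite :=
  (good_Cor g w h').finE.subset fun _ a => a.1.1

lemma Top_anti (g : ℤ → ℤ) (w : ℤ) {h h' : ℤ} (h0 : 0 ≤ h) (hh : h ≤ h') :
    mu (Top g w h') ≤ mu (Top g w h) := by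
  rcases hh.eq_or_lt with rfl | hh
  · exact le_rfl
  · have := top_kill g w h0 hh
    have : 0 ≤ ms (om p0 q0) (Kill g w h h') :=
      ms_nonneg fun l hl => (good_Cor g w h').om_nonneg hl.1.1
    linarith

lemma Tr_om_ge {a b : ℤ} {p q : V} (G : Good (Tr a b q.k) p q) (hq : q ∈ Tr a b q.k) {l : List V}
    (hl : l ∈ Exit (Tr a b q.k) p q) : s8 * wt l ≤ om p q l := by
  have w := wt_pos l
  by_cases hb : (lv q l).k < q.k
  · exact (G.om_bot hl hb).ge
  · have a1 := hl.2.2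
    have a2 := Exit.pv_mem hl hq
    have a3 := adj_iff.1 hl.1.adj_last
    rw [mem_Tr] at a1 a2
    by_cases a4 : (lv q l).i < a
    · rw [(G.om_r hl (by omega)).1]; nlinarith [s8_le, c8_ge]
    · rw [(G.om_l hl (by omega)).1]; nlinarith [s8_le, c8_ge]

lemma local_kill {C : Set V} (hC : Conv C) {i j s n w : ℤ} (hn : 0 ≤ n) (hs : i + j + s = 2)
    (h : ∀ u : V, gT (i - 1) (j - 1) s u ∈ C → gM (i - 1) (j - 1) s u ∈ C → u ∈ Str w) :
    Wd n w / 6 ≤ ms (om ⟨i, j, s - 1⟩ ⟨i, j, s⟩)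
      {b | b ∈ Exit (Tr (i - n) (j - n) s ∩ C) ⟨i, j, s - 1⟩ ⟨i, j, s⟩ ∧
        lv ⟨i, j, s⟩ b ∈ Tr (i - n) (j - n) s} := by
  have G : Good (Tr (i - n) (j - n) s) ⟨i, j, s - 1⟩ ⟨i, j, s⟩ :=
    ⟨⟨by dsimp only; omega, by simp⟩, Tr_finite _ _ _, Tr_conv _ _ _, fun u hu => hu.2.2.2⟩
  rw [transfer (G.inter hC) G Set.inter_subset_left]
  set Z := {b | b ∈ Exit (Tr (i - n) (j - n) s) ⟨i, j, s - 1⟩ ⟨i, j, s⟩ ∧
    ¬ Inn (Tr (i - n) (j - n) s ∩ C) ⟨i, j, s⟩ b} with hZ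
  have fZ : Z.Finite := G.finP _
  have e1 : s8 * mu Z ≤ ms (om ⟨i, j, s - 1⟩ ⟨i, j, s⟩) Z := by
    rw [mu, ← ms_const_mul fZ]
    exact ms_le_ms fZ fun l hl => Tr_om_ge G (by rw [mem_Tr]; dsimp only; omega) hl.1
  have key : ∀ τ : V → V, IsSym τ → τ p0 = ⟨i, j, s - 1⟩ → τ q0 = ⟨i, j, s⟩ →
      (∀ u, u ∈ tri n ↔ τ u ∈ Tr (i - n) (j - n) s) →
      mu {l | l ∈ Exit (tri n) p0 q0 ∧ ¬ Inn {u | τ u ∈ C} q0 l} ≤ mu Z := by
    intro τ t1 t2 t3 t4
    refine mu_le_map t1 fZ fun l hl => ?_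
    rw [hZ, ← t2, ← t3]
    refine ⟨⟨hl.1.1.map t1, hl.1.2.1.map fun u hu => (t4 u).1 hu, ?_⟩,
      fun a => hl.2 (a.of_map fun u hu => hu.2)⟩
    rw [lv_map, ← t4]
    exact hl.1.2.2
  have k1 := key (gT (i - 1) (j - 1) s) (sym_T (by omega))
    (by rw [V.ext_iff]; dsimp only [gT, p0]; omega) (by rw [V.ext_iff]; dsimp only [gT, q0]; omega)
    fun u => by rw [mem_tri, mem_Tr]; dsimp only [gT]; omega
  have k2 := key (gM (i - 1) (j - 1) s) (sym_M (by omega))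
    (by rw [V.ext_iff]; dsimp only [gM, p0]; omega) (by rw [V.ext_iff]; dsimp only [gM, q0]; omega)
    fun u => by rw [mem_tri, mem_Tr]; dsimp only [gM]; omega
  have f1 := (good_tri n).finP fun l => ¬ Inn {u | gT (i - 1) (j - 1) s u ∈ C} q0 l
  have f2 := (good_tri n).finP fun l => ¬ Inn {u | gM (i - 1) (j - 1) s u ∈ C} q0 l
  have k3 := mu_union_le f1 f2
  have k4 : Wd n w ≤ _ := (ms_le_ms ((good_tri n).finP _) fun l _ => om_le _ _ _).trans
    (mu_mono (f1.union f2) fun l hl => by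
      by_contra hc
      simp only [Set.mem_union, Set.mem_ofPred_eq, not_or, not_and, not_not] at hc
      exact hl.2 ((Inn_inter.2 ⟨hc.1 hl.1, hc.2 hl.1⟩).mono fun u hu => h u hu.1 hu.2))
  nlinarith [s8_ge, mu_nonneg Z]

theorem kill_step (g : ℤ → ℤ) {m : ℕ} (hm : 0 < m) (h : ℕ) :
    mu (Top g m (h + 10 * m)) * (1 + 1 / (360 * SS m)) ≤ mu (Top g m h) := by
  have S0 := SS_pos hm
  have m0 : (0 : ℝ) < m := by exact_mod_cast hm
  have e := top_kill g m (h := h) (h' := h + 10 * m) (by omega) (by omega)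
  set A := {l | ∃ s : ℕ, s < m ∧ l ∈ Top g m (h + 1 + s)} with hA
  have fA : A.Finite := by
    refine Set.Finite.subset (Set.Finite.biUnion (Finset.range m).finite_toSet
      fun s _ => Top_fin g m (h + 1 + (s : ℕ))) ?_
    rintro l ⟨s, h2, h3⟩
    exact Set.mem_biUnion (Finset.mem_coe.2 (Finset.mem_range.2 h2)) h3
  have h1 : m * mu (Top g m (h + 10 * m)) ≤ mu A := by
    refine le_trans ?_ (sum_le_ms (Finset.range m) (fun s => Top g m (h + 1 + (s : ℕ))) fA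
      (fun s hs l hl => ⟨s, Finset.mem_range.1 hs, hl⟩) (fun s _ t _ hne =>
        Set.disjoint_left.2 fun l a1 a2 => hne (by have := a1.2; have := a2.2; omega))
      fun l _ => (wt_pos l).le)
    have : ∑ s ∈ Finset.range m, mu (Top g m (h + 10 * m)) ≤
        ∑ s ∈ Finset.range m, mu (Top g m (h + 1 + (s : ℕ))) :=
      Finset.sum_le_sum fun s hs => Top_anti g m (by omega) (by
        have := Finset.mem_range.1 hs; omega)
    simpa [mu] using this
  have h2 : mu A ≤ mu (First V.k q0 A) * SS m := by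
    refine mu_le_first fA fun a ha => ?_
    obtain ⟨s, s1, s3⟩ := ha
    obtain ⟨-, b2, b3⟩ := Top_step s3
    have b4 := s3.2
    have fB : ∀ t : ℕ, {b | Fresh V.k q0 a b ∧ a ++ b ∈ Top g m (h + 1 + s + t)}.Finite := fun t =>
      (finite_suffix (Top_fin _ _ _) a).subset fun _ h => h.2
    refine (mu_le_sum (Finset.range m) _ (fun t _ => fB t) fun b hb => ?_).trans
      (Finset.sum_le_sum fun t _ => ?_)
    · obtain ⟨r, r1, r3⟩ := hb.2
      have a2 := r3.2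
      have : s ≤ r := by
        rw [lv_append] at a2
        by_cases e : b = []
        · rw [e, lv_nil] at a2; omega
        · have := hb.1 _ (lv_mem_of_ne (q := lv q0 a) e)
          omega
      refine ⟨r - s, Finset.mem_range.2 (by omega), hb.1, ?_⟩
      rwa [show (h : ℤ) + 1 + s + (r - s : ℕ) = h + 1 + r by omega]
    · refine brg_le_bb (sym_T (a := 1 - (lv q0 a).i) (b := 1 - (lv q0 a).j) (c := -(h + 1 + s))
        (by omega)) (p := pv p0 q0 a) (q := lv q0 a) ?_ ?_ t (fB t) fun b hb => ?_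
      · rw [b2, V.ext_iff]; dsimp only [gT, p0]; omega
      · show _ = (⟨1, 1, 0⟩ : V)
        rw [V.ext_iff]; dsimp only [gT]; omega
      · have a2 := hb.2.2
        have a3 := (saw_append.1 hb.2.1.1).2.1
        have a4 := ((Inn_append _ _ _ _).1 hb.2.1.2.1).2
        rw [lv_append] at a2
        refine ⟨a3, a4.imp a3 fun u hu _ hd => ?_, by dsimp only [gT]; omega⟩
        have := hd.2.2.1
        have : (h : ℤ) + 1 + s ≤ u.k := by
          rcases List.mem_cons.1 hu with e | hu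
          · rw [e]; omega
          · have := hb.1 u hu
            omega
        simp only [Set.mem_ofPred_eq, gT]
        omega
  let B : List V → Set (List V) := fun a =>
    {b | b ∈ Exit (Tr ((lv q0 a).i - 4 * m) ((lv q0 a).j - 4 * m) (lv q0 a).k ∩
      Cor g m (h + 10 * m)) (pv p0 q0 a) (lv q0 a) ∧
      lv (lv q0 a) b ∈ Tr ((lv q0 a).i - 4 * m) ((lv q0 a).j - 4 * m) (lv q0 a).k}
  have hF : ∀ a, ∀ b ∈ B a, Fresh V.k q0 a b := fun a b hb u hu => by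
    rcases hb.1.2.1.mem (List.mem_cons_of_mem _ hu) with e | e
    · exact e.1.2.2.2
    · rw [e]; exact hb.2.2.2.2
  have h3 : mu (First V.k q0 A) * (Wd (4 * m) m / 6) ≤
      ms (om p0 q0) (Kill g m h (h + 10 * m)) := by
    refine ms_concat_ge (fA.subset fun _ a => a.1) (Kill_fin _ _ _ _) B
      (fun a => om (pv p0 q0 a) (lv q0 a)) (fun a ha => ?_) (fun a ha b hb => ?_)
      (fun a ha b _ => ?_) (fun a ha b hb a' ha' b' hb' e =>
        first_unique ha ha' (hF a b hb) (hF a' b' hb') e)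
      fun l hl => (good_Cor _ _ _).om_nonneg hl.1.1
    · obtain ⟨s, s1, s3⟩ := ha.1
      obtain ⟨-, b2, b3⟩ := Top_step s3
      have b4 := s3.2
      have := local_kill (Cor_conv g m (h + 10 * m)) (i := (lv q0 a).i) (j := (lv q0 a).j)
        (s := (lv q0 a).k) (n := 4 * m) (w := m) (by omega) (by omega) fun u u1 u2 => by
          rw [mem_Cor] at u1 u2
          rw [mem_Str]
          dsimp only [gT, gM] at u1 u2
          omega
      rw [← b4] at b2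
      rw [← b2] at this
      exact this
    · obtain ⟨s, s1, s3⟩ := ha.1
      obtain ⟨-, b2, b3⟩ := Top_step s3
      have b4 := s3.2
      have b5 := hb.2
      rw [mem_Tr] at b5
      refine ⟨⟨⟨saw_append.2 ⟨s3.1.1, hb.1.1, fun u hu hm' => ?_⟩, (Inn_append _ _ _ _).2
        ⟨s3.1.2.1.mono (Cor_mono _ _ (by omega)), hb.1.2.1.mono fun u hu => hu.2⟩, fun c => ?_⟩,
        fun c => Top_not_inn (by omega) (by omega) s3 ((Inn_append _ _ _ _).1 c).1⟩, ?_⟩
      · have := hF a b hb u hm'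
        rcases Exit.cases s3.1 hu with e | e | e
        · rw [e] at this; dsimp only [p0] at this; omega
        · have := e.2.2.1; omega
        · rw [e] at hm'
          exact (List.nodup_cons.1 (List.nodup_cons.1 hb.1.1.2).2).1 hm'
      · rw [lv_append] at c
        exact hb.1.2.2 ⟨hb.2, c⟩
      · rw [lv_append]; omega
    · obtain ⟨s, s1, s3⟩ := ha.1
      simp only [om, wind_append, (Top_step s3).1, zero_add, wt_append]
      ring
  have h4 := wide hm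
  have h5 := vv_lower (2 * m)
  have m1 : (1 : ℝ) ≤ m := by exact_mod_cast hm
  have h6 : 1 / (360 * m) ≤ Wd (4 * m) m / 6 := by
    have : 1 / (6 * (m : ℝ)) ≤ 1 / (2 * ((2 * m : ℕ) : ℝ) + 2) :=
      one_div_le_one_div_of_le (by positivity) (by push_cast; linarith)
    have e : 1 / (360 * (m : ℝ)) = 1 / (6 * m) / 60 := by field_simp; norm_num
    rw [e]; linarith
  have h7 : mu (Top g m (h + 10 * m)) * (1 / (360 * SS m)) ≤
      mu (First V.k q0 A) * (1 / (360 * m)) := by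
    rw [mul_one_div, mul_one_div, div_le_div_iff₀ (by positivity) (by positivity)]
    nlinarith
  have h8 := mul_le_mul_of_nonneg_left h6 (mu_nonneg (First V.k q0 A))
  linarith

theorem Top_le (g : ℤ → ℤ) {m : ℕ} (hm : 0 < m) (N : ℕ) :
    mu (Top g m (10 * m * N : ℕ)) * (1 + 1 / (360 * SS m)) ^ N ≤ 1 := by
  have S0 := SS_pos hm
  induction N with
  | zero =>
    have := brg_le_bb (g := gT 0 0 0) (sym_T rfl) (p := p0) (q := q0) (by simp [gT]) (by simp [gT])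
      0 (Top_fin g m (0 : ℕ)) fun l hl => ⟨hl.1.1, hl.1.2.1.mono fun u hu => by
        have := hu.2.1
        have := hu.2.2.1
        omega, by simpa [gT] using hl.2⟩
    simpa [bb] using this
  | succ N ih =>
    have := kill_step g hm (10 * m * N)
    rw [show ((10 * m * N : ℕ) : ℤ) + 10 * m = (10 * m * (N + 1) : ℕ) by push_cast; ring] at this
    rw [pow_succ', ← mul_assoc]
    exact (mul_le_mul_of_nonneg_right this (by positivity)).trans ih

end Pool.Agent.Lib.MP_4960b8_pr.SAW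
end

-- part Pool.Agent.Lib.MP_4960b8_pr.SAW.TubeMain
section

/-!
Point to point lower bound in a rectangle and the corridor estimate.
-/

namespace Pool.Agent.Lib.MP_4960b8_pr.SAW

def z0 (_ : ℤ) : ℤ := 0

lemma mem_Cor0 {w h : ℤ} {v : V} : v ∈ Cor z0 w h ↔
    (v.i + v.j + v.k = 1 ∨ v.i + v.j + v.k = 2) ∧ 0 ≤ v.k ∧ v.k < h ∧
      -w < v.j - v.i ∧ v.j - v.i < w := by simp [mem_Cor, z0]

lemma exists_big {S : Set (List V)} {N : ℕ} (hN : 0 < N) (B : ℕ → Set (List V))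
    (hB : ∀ t, (B t).Finite) (h : ∀ l ∈ S, ∃ t, t < N ∧ l ∈ B t) :
    ∃ t, t < N ∧ mu S ≤ N * mu (B t) := by
  obtain ⟨t, ht, hm⟩ := Finset.exists_max_image (Finset.range N) (fun t => mu (B t))
    ⟨0, Finset.mem_range.2 hN⟩
  refine ⟨t, Finset.mem_range.1 ht, (mu_le_sum (Finset.range N) B (fun t _ => hB t) fun l hl => by
    obtain ⟨t, h1, h2⟩ := h l hl
    exact ⟨t, Finset.mem_range.2 h1, h2⟩).trans ?_⟩
  simpa using Finset.sum_le_sum hm

lemma tall_of {n : ℕ} {D : Set V} (g : Good D p0 q0) (hD : D ⊆ tri (2 * n)) :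
    c8 * mu {l | l ∈ Exit D p0 q0 ∧ (lv q0 l).i = (pv p0 q0 l).i - 1 ∧ n ≤ (lv q0 l).k} ≤
      mu {l | l ∈ Top z0 (4 * n + 2) n ∧ lv q0 l ∈ tri (2 * n)} := by
  have g0 := g.inter (conv_k (· < (n : ℤ)))
  have e := transfer g0 g Set.inter_subset_left
  have e1 : ms (om p0 q0) {l | l ∈ Exit D p0 q0 ∧ (lv q0 l).i = (pv p0 q0 l).i - 1 ∧
      n ≤ (lv q0 l).k} = c8 * mu _ := ms_eq_mul (g.finP _) fun l hl => (g.om_r hl.1 hl.2.1).1
  rw [← e1]
  refine le_trans (ms_mono (g.finP fun l => ¬ Inn (D ∩ {u | u.k < n}) q0 l)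
    (fun l hl => ⟨hl.1, fun hi => ?_⟩) fun l hl => g.om_nonneg hl.1) ?_
  · have a1 := hl.2.1
    have a2 := hl.2.2
    have a3 := adj_iff.1 hl.1.1.adj_last
    have a4 : (pv p0 q0 l).k < n := (hi.pv_mem (p := p0) (by
      rintro rfl
      simp [p0, q0] at a1)).2
    omega
  · rw [← e]
    refine (ms_le_ms (g0.finP _) fun l _ => om_le _ _ _).trans
      (mu_mono ((Top_fin _ _ _).subset fun _ h => h.1) fun l hl => ?_)
    have a1 : ¬ (lv q0 l).k < n := fun h => hl.1.2.2 ⟨hl.2, h⟩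
    have a3 := adj_iff.1 hl.1.1.adj_last
    have : (lv q0 l).k ≤ n := by
      by_cases e : l = []
      · rw [e]; show (0 : ℤ) ≤ n; omega
      · have : (pv p0 q0 l).k < n := (hl.1.2.1.pv_mem (p := p0) e).2
        omega
    refine ⟨⟨⟨hl.1.1, hl.1.2.1.mono fun u hu => ?_, fun c => a1 c.2.2.1⟩, by omega⟩, hD hl.2⟩
    have u1 := hD hu.1
    have u2 : u.k < n := hu.2
    rw [mem_tri] at u1
    rw [mem_Cor0]
    omega

lemma tall {n : ℕ} (hn : 0 < n) :
    ∃ i : ℤ, 1 / (107 * (n : ℝ) ^ 3) ≤ mu {l | l ∈ Top z0 (4 * n + 2) n ∧ (lv q0 l).i = i} := by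
  obtain ⟨e, he, h1⟩ := exists_big (S := RE n) (N := 2 * n + 1) (by omega)
    (fun e => {l | l ∈ RE n ∧ (lv q0 l).k = e}) (fun _ => (RE_fin n).subset fun _ h => h.1)
    fun l hl => by
      obtain ⟨b1, b2, b3, b4⟩ := RE_step (by omega) hl
      rw [b3, mem_tri] at b1
      dsimp only at b1
      exact ⟨(lv q0 l).k.toNat, by omega, hl, by omega⟩
  have h2 : c8 * mu {l | l ∈ RE n ∧ (lv q0 l).k = e} ≤
      mu {l | l ∈ Top z0 (4 * n + 2) n ∧ lv q0 l ∈ tri (2 * n)} := by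
    by_cases hc : n ≤ e
    · refine le_trans (mul_le_mul_of_nonneg_left (mu_mono ((good_tri n).finP _) fun l hl => ?_)
        c8_pos.le) (tall_of (good_tri n) (tri_mono (by omega)))
      obtain ⟨-, b2, b3, -⟩ := RE_step (by omega) hl.1
      have := hl.2
      exact ⟨hl.1.1, by rw [b3]; dsimp only; omega, by omega⟩
    · have g := (good_tri (2 * n)).inter (conv_i_ge (1 - (e : ℤ)))
      refine le_trans (mul_le_mul_of_nonneg_left ?_ c8_pos.le) (tall_of g Set.inter_subset_left)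
      refine mu_le_rev (sym_S (a := 1 - e) (b := e - n) (c := n - 1) (by omega))
        (p := p0) (q := q0) (p' := ⟨1 - n, 1 + n - e, e⟩) (q' := ⟨-n, 1 + n - e, e⟩) (g.finP _)
        (fun l hl => ?_) fun l hl => ?_
      · obtain ⟨-, b2, b3, b4⟩ := RE_step (by omega) hl.1
        have := hl.2
        rw [b3, V.ext_iff, V.ext_iff]
        dsimp only
        omega
      · obtain ⟨-, b2, b3, b4⟩ := RE_step (by omega) hl.1
        have b5 := hl.2
        obtain ⟨s1, s3, s4, s2, -⟩ := rev_map (sym_S (a := 1 - e) (b := e - n)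
          (c := n - 1) (by omega)) hl.1.1.1 (by
            show _ = (⟨1, 1, -1⟩ : V)
            rw [V.ext_iff]; dsimp only [gS]; omega) (by
            show _ = (⟨1, 1, 0⟩ : V)
            rw [b3, V.ext_iff]; dsimp only [gS]; omega)
        refine ⟨⟨s1, s2 _ _ (fun v hv => ?_) hl.1.1.2.1, fun a => ?_⟩, ?_, ?_⟩
        · rw [mem_tri] at hv
          refine ⟨?_, ?_⟩
          · rw [mem_tri]; dsimp only [gS]; omega
          · simp only [Set.mem_ofPred_eq, gS]; omega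
        · have := a.2
          rw [s3] at this
          simp only [Set.mem_ofPred_eq, gS, p0] at this
          omega
        · rw [s3, s4]; dsimp only [gS, p0, q0]; omega
        · rw [s3]; dsimp only [gS, p0]; omega
  obtain ⟨t, -, h3⟩ := exists_big (S := {l | l ∈ Top z0 (4 * n + 2) n ∧ lv q0 l ∈ tri (2 * n)})
    (N := 3 * n + 1) (by omega) (fun t => {l | l ∈ Top z0 (4 * n + 2) n ∧ (lv q0 l).i = 1 - 2 * n + t})
    (fun _ => (Top_fin _ _ _).subset fun _ h => h.1) fun l hl => by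
      have b1 := hl.2
      have b2 := hl.1.2
      rw [mem_tri] at b1
      exact ⟨((lv q0 l).i + 2 * n - 1).toNat, by omega, hl.1, by omega⟩
  refine ⟨1 - 2 * n + t, ?_⟩
  have h4 := vv_lower n
  have h5 := vv_le_RE n
  set x := mu {l | l ∈ Top z0 (4 * n + 2) n ∧ (lv q0 l).i = 1 - 2 * n + t}
  set y := mu {l | l ∈ RE n ∧ (lv q0 l).k = e}
  have x0 : 0 ≤ x := mu_nonneg _
  have y0 : 0 ≤ y := mu_nonneg _
  have n1 : (1 : ℝ) ≤ n := by exact_mod_cast hn
  push_cast at h1 h3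
  rw [div_le_iff₀ (by positivity)] at h4 ⊢
  have a1 : 9 / 10 * y ≤ 4 * n * x := by nlinarith [c8_ge]
  have a2 : vv n ≤ 6 * n * y := by nlinarith
  have a3 : 1 ≤ 4 * n * vv n := by nlinarith [vv_nonneg n]
  have a4 : 1 ≤ 24 * n ^ 2 * y := by nlinarith
  nlinarith [mul_le_mul_of_nonneg_left a1 (by positivity : (0 : ℝ) ≤ n ^ 2)]

lemma exit_unique {D : Set V} {q : V} {a b a' b' : List V} (h1 : Inn D q a) (h2 : lv q a ∉ D)
    (h1' : Inn D q a') (h2' : lv q a' ∉ D) (e : a ++ b = a' ++ b') : a = a' := by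
  rcases List.append_eq_append_iff.1 e with ⟨c, e1, -⟩ | ⟨c, e1, -⟩
  · by_cases hc : c = []
    · rw [e1, hc]; simp
    · rw [e1, Inn_append] at h1'
      exact absurd (h1'.2.head hc) h2
  · by_cases hc : c = []
    · rw [e1, hc]; simp
    · rw [e1, Inn_append] at h1
      exact absurd (h1.2.head hc) h2'

def PP (n W : ℤ) : Set (List V) :=
  {l | l ∈ Exit (Cor z0 W (2 * n)) p0 q0 ∧ lv q0 l = ⟨1 - n, 1 - n, 2 * n⟩}

lemma PP_fin (n W : ℤ) : (PP n W).Finite := (good_Cor _ _ _).finP _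

lemma PP_top {n W : ℤ} {l : List V} (h : l ∈ PP n W) : l ∈ Top z0 W (2 * n) := ⟨h.1, by rw [h.2]⟩

lemma stack {W h n : ℤ} (hh : 0 ≤ h) {a b : List V} (ha : a ∈ Top z0 W h)
    (hb : Saw (pv p0 q0 a) (lv q0 a) b) (hi : Inn (Cor z0 W (2 * n) ∩ {u | h ≤ u.k}) (lv q0 a) b)
    (he : lv (lv q0 a) b = ⟨1 - n, 1 - n, 2 * n⟩) (hn : h ≤ 2 * n) : a ++ b ∈ PP n W := by
  refine ⟨⟨saw_append.2 ⟨ha.1.1, hb, fun u hu hm => ?_⟩, (Inn_append _ _ _ _).2
    ⟨ha.1.2.1.mono (Cor_mono _ _ hn), hi.mono fun u hu => hu.1⟩, fun c => ?_⟩,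
    by rw [lv_append, he]⟩
  · have : h ≤ u.k := by
      rcases hi.mem (List.mem_cons_of_mem _ hm) with e | e
      · exact e.2
      · rw [e, he]; exact hn
    rcases Exit.cases ha.1 hu with e | e | e
    · rw [e] at this; dsimp only [p0] at this; omega
    · have := e.2.2.1; omega
    · rw [e] at hm
      exact (List.nodup_cons.1 (List.nodup_cons.1 hb.2).2).1 hm
  · have := c.2.2.1
    rw [lv_append, he] at this
    simp at this

lemma PP_one {n : ℕ} (hn : 0 < n) {W : ℤ} (hW : 4 * n + 2 ≤ W) :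
    (1 / (107 * (n : ℝ) ^ 3)) ^ 2 ≤ mu (PP n W) := by
  obtain ⟨i, hi⟩ := tall hn
  set A := {l | l ∈ Top z0 (4 * n + 2) n ∧ (lv q0 l).i = i} with hA
  have fA : A.Finite := (Top_fin _ _ _).subset fun _ h => h.1
  have hT : ∀ a ∈ A, a ∈ Top z0 W n := fun a ha =>
    ⟨⟨ha.1.1.1, ha.1.1.2.1.mono fun u hu => by rw [mem_Cor0] at *; omega,
      fun c => by have := c.2.2.1; have := ha.1.2; omega⟩, ha.1.2⟩
  have hE : ∀ a ∈ A, pv p0 q0 a = ⟨i, 2 - n - i, n - 1⟩ ∧ lv q0 a = ⟨i, 2 - n - i, n⟩ := by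
    intro a ha
    obtain ⟨-, b2, b3⟩ := Top_step ha.1
    have b4 := ha.1.2
    have b5 := ha.2
    rw [b2, V.ext_iff, V.ext_iff]
    dsimp only
    omega
  have g := sym_H (a := 2 - n) (b := 2 - n) (c := 2 * n - 1) (by omega)
  have h := mu_concat_ge fA (PP_fin n W) (fun a => {b | a ++ b ∈ PP n W}) (K := mu A)
    (fun a ha => mu_le_rev g (finite_suffix (PP_fin n W) a) hE fun l hl => ?_) (fun a _ b hb => hb)
    fun a ha b _ a' ha' b' _ e => exit_unique ha.1.1.2.1 ha.1.1.2.2 ha'.1.1.2.1 ha'.1.1.2.2 e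
  · rw [sq]
    exact (mul_le_mul hi hi (by positivity) (mu_nonneg _)).trans h
  · have e1 : gH (2 - n) (2 - n) (2 * n - 1) (lv q0 l) = pv p0 q0 a := by
      rw [(hE l hl).2, (hE a ha).1, V.ext_iff]; dsimp only [gH]; omega
    have e2 : gH (2 - n) (2 - n) (2 * n - 1) (pv p0 q0 l) = lv q0 a := by
      rw [(hE l hl).1, (hE a ha).2, V.ext_iff]; dsimp only [gH]; omega
    have s1 := hl.1.1.1.rev.map g
    have s2 := ((hT l hl).1.2.1.rev (p := p0)).map (g := gH (2 - n) (2 - n) (2 * n - 1))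
      (D' := Cor z0 W (2 * n) ∩ {u | (n : ℤ) ≤ u.k}) fun u hu => by
        rw [mem_Cor0] at hu
        refine ⟨?_, ?_⟩
        · rw [mem_Cor0]; dsimp only [gH]; omega
        · simp only [Set.mem_ofPred_eq, gH]; omega
    have s3 := lv_map (gH (2 - n) (2 - n) (2 * n - 1)) (pv p0 q0 l) (rev p0 q0 l)
    rw [lv_rev, e2] at s3
    rw [e1, e2] at s1
    rw [e2] at s2
    exact stack (by omega) (hT a ha) s1 s2 (by
      rw [s3, V.ext_iff]; dsimp only [gH, p0]; omega) (by omega)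

lemma PP_add (n n' : ℕ) (W : ℤ) : mu (PP n W) * mu (PP n' W) ≤ mu (PP (n + n' : ℕ) W) := by
  have g := sym_T (a := -n) (b := -n) (c := 2 * n) (by omega)
  refine mu_concat_ge (PP_fin n W) (PP_fin _ W) (fun a => {b | a ++ b ∈ PP (n + n' : ℕ) W})
    (fun a ha => mu_le_map g (finite_suffix (PP_fin _ W) a) fun l hl => ?_) (fun a _ b hb => hb)
    fun a ha b _ a' ha' b' _ e => exit_unique ha.1.2.1 ha.1.2.2 ha'.1.2.1 ha'.1.2.2 e
  have e1 : gT (-n) (-n) (2 * n) p0 = pv p0 q0 a := by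
    rw [(Top_step (PP_top ha)).2.1, ha.2, V.ext_iff]; dsimp only [gT, p0]; omega
  have e2 : gT (-n) (-n) (2 * n) q0 = lv q0 a := by
    rw [ha.2, V.ext_iff]; dsimp only [gT, q0]; omega
  have s1 := hl.1.1.map g
  have s2 := hl.1.2.1.map (g := gT (-n) (-n) (2 * n))
    (D' := Cor z0 W (2 * (n + n' : ℕ)) ∩ {u | 2 * (n : ℤ) ≤ u.k}) fun u hu => by
      rw [mem_Cor0] at hu
      refine ⟨?_, ?_⟩
      · rw [mem_Cor0]; dsimp only [gT]; omega
      · simp only [Set.mem_ofPred_eq, gT]; omega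
  have s3 := lv_map (gT (-n) (-n) (2 * n)) q0 l
  rw [hl.2, e2] at s3
  rw [e1, e2] at s1
  rw [e2] at s2
  exact stack (by omega) (PP_top ha) s1 s2 (by
    rw [s3, V.ext_iff]; dsimp only [gT]; omega) (by omega)

lemma PP_lower {n₀ : ℕ} (h0 : 0 < n₀) {K : ℝ} (hK : n₀ ≤ K) (s : ℕ) : ∀ M : ℕ, 0 < M →
    M ≤ (s + 1) * n₀ → ((1 / (107 * K ^ 3)) ^ 2) ^ (s + 1) ≤ mu (PP M (6 * n₀)) := by
  have K1 : (1 : ℝ) ≤ K := le_trans (by exact_mod_cast h0) hK
  have e1 : (1 / (107 * K ^ 3)) ^ 2 ≤ 1 := by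
    refine pow_le_one₀ (by positivity) ?_
    rw [div_le_one (by positivity)]
    nlinarith [one_le_pow₀ (n := 3) K1]
  have one : ∀ n : ℕ, 0 < n → n ≤ n₀ → (1 / (107 * K ^ 3)) ^ 2 ≤ mu (PP n (6 * n₀)) := by
    intro n h1 h2
    refine le_trans (pow_le_pow_left₀ (by positivity) (one_div_le_one_div_of_le (by positivity)
      ?_) 2) (PP_one h1 (by omega))
    have : (n : ℝ) ≤ K := le_trans (by exact_mod_cast h2) hK
    have := pow_le_pow_left₀ (Nat.cast_nonneg n) this 3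
    linarith
  induction s with
  | zero => intro M h1 h2; simpa using one M h1 (by omega)
  | succ s ih =>
    intro M h1 h2
    by_cases hc : M ≤ n₀
    · exact (pow_le_of_le_one (by positivity) e1 (by omega)).trans (one M h1 hc)
    · obtain ⟨M', rfl⟩ : ∃ M', M = n₀ + M' := ⟨M - n₀, by omega⟩
      rw [pow_succ']
      refine le_trans (mul_le_mul (one n₀ h0 le_rfl) (ih M' (by omega) ?_) (by positivity)
        (mu_nonneg _)) (PP_add _ _ _)
      rw [Nat.succ_mul] at h2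
      omega

theorem SS_decay : ∃ κ : ℝ, 0 < κ ∧ ∀ m : ℕ, 0 < m → SS m ≤ 16 * m * (1 / (m : ℝ)) ^ κ := by
  obtain ⟨Λ₀, hΛ₀⟩ := decay_any (θ := 1 / 4) (by norm_num)
  set Λ := Λ₀ + 12 with hΛ
  have L1 : (12 : ℝ) ≤ Λ := by exact_mod_cast (by omega : 12 ≤ Λ)
  refine ⟨Real.log 2 / Real.log Λ, div_pos (Real.log_pos (by norm_num))
    (Real.log_pos (by linarith)), fun m hm => ?_⟩
  have key : ∀ j : ℕ, SS (Λ ^ j) ≤ 4 * (Λ : ℝ) ^ j * (1 / 2 ^ j) := by
    intro j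
    induction j with
    | zero => have := SS_le 1; simp only [pow_zero] at *; push_cast at this; linarith
    | succ j ih =>
      have a1 := SS_step (show 0 < Λ ^ j by positivity) ((Λ₀ + 9) * Λ ^ j)
      rw [show 3 * Λ ^ j + (Λ₀ + 9) * Λ ^ j = Λ ^ (j + 1) by rw [hΛ]; ring] at a1
      have a2 := hΛ₀ Λ (by omega) j
      have a3 : (1 / 4 : ℝ) ^ j ≤ 1 / 2 ^ j := by
        rw [← one_div_pow]; exact pow_le_pow_left₀ (by norm_num) (by norm_num) j
      have a4 : (((Λ₀ + 9) * Λ ^ j : ℕ) : ℝ) ≤ Λ * Λ ^ j := by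
        have : (Λ₀ + 9) * Λ ^ j ≤ Λ * Λ ^ j := Nat.mul_le_mul_right _ (by omega)
        exact_mod_cast this
      have a5 := mul_le_mul a4 (a2.trans a3) (vv_nonneg _) (by positivity)
      have a6 : 4 * (Λ : ℝ) ^ (j + 1) * (1 / 2 ^ (j + 1)) = 2 * (Λ * Λ ^ j * (1 / 2 ^ j)) := by
        rw [pow_succ, pow_succ]; field_simp; norm_num
      have a7 : (0 : ℝ) ≤ Λ ^ j * (1 / 2 ^ j) := by positivity
      rw [a6]
      nlinarith
  have i1 := Nat.pow_log_le_self Λ hm.ne'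
  have i2 := Nat.lt_pow_succ_log_self (show 1 < Λ by omega) m
  set i := Nat.log Λ m
  have u0 : 0 < Λ ^ i := by positivity
  have m0 : (0 : ℝ) < m := by exact_mod_cast hm
  have a1 := rpow_ge (Λ := Λ) (x := 1 / (m : ℝ)) (by linarith) (i + 1)
    (one_div_le_one_div_of_le m0 (by exact_mod_cast i2.le))
  have a2 : SS m ≤ SS ((m / Λ ^ i + 1) * Λ ^ i) :=
    Finset.sum_le_sum_of_subset_of_nonneg (Finset.range_mono (Nat.lt_div_mul_add u0 |>.trans_eq
      (by ring) |>.le)) fun t _ _ => bb_nonneg t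
  have a3 := SS_mul (m / Λ ^ i + 1) (Λ ^ i)
  have a4 : (((m / Λ ^ i + 1 : ℕ) : ℝ)) * Λ ^ i ≤ 2 * m := by
    have := Nat.div_mul_le_self m (Λ ^ i)
    have : (m / Λ ^ i + 1) * Λ ^ i ≤ 2 * m := by rw [Nat.succ_mul]; omega
    exact_mod_cast this
  have a5 := mul_le_mul_of_nonneg_left (key i) (Nat.cast_nonneg (α := ℝ) (m / Λ ^ i + 1))
  have a6 : (1 : ℝ) / 2 ^ i = 2 * (1 / 2 ^ (i + 1)) := by rw [pow_succ]; field_simp
  have a7 := mul_le_mul_of_nonneg_right a4 (by positivity : (0 : ℝ) ≤ 1 / 2 ^ i)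
  rw [a6] at a5 a7
  nlinarith [mul_le_mul_of_nonneg_left a1 m0.le]

theorem Top_decay : ∃ κ : ℝ, 0 < κ ∧ ∃ c : ℝ, 0 < c ∧ ∀ (g : ℤ → ℤ) (w M : ℕ), 0 < w →
    mu (Top g w (2 * M)) ≤ 3 * Real.exp (-(c * M / (w : ℝ) ^ (2 - κ))) := by
  obtain ⟨κ, k0, hκ⟩ := SS_decay
  refine ⟨κ, k0, 1 / 57600, by norm_num, fun g w M hw => ?_⟩
  have w0 : (0 : ℝ) < w := by exact_mod_cast hw
  have S0 := SS_pos hw
  have S1 : 1 ≤ SS w := by
    have := Finset.single_le_sum (f := bb) (fun t _ => bb_nonneg t) (Finset.mem_range.2 hw)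
    exact le_trans (by simp [bb]) this
  set x := 1 / (360 * SS w) with hx
  have x0 : 0 < x := by positivity
  have x1 : x ≤ 1 := by rw [hx, div_le_one (by positivity)]; linarith
  set N := M / (5 * w) with hN
  have a1 := Top_le g hw N
  have a2 : mu (Top g w (2 * M)) ≤ mu (Top g w (10 * w * N : ℕ)) := Top_anti g w (by omega) (by
    have := Nat.mul_div_le M (5 * w)
    have : 10 * w * N ≤ 2 * M := by rw [hN]; linarith
    exact_mod_cast this)
  have a3 : Real.exp (x / 2) ≤ 1 + x := by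
    have b1 := Real.add_one_le_exp (-(x / 2))
    have b2 : Real.exp (x / 2) * Real.exp (-(x / 2)) = 1 := by rw [← Real.exp_add]; simp
    have b3 := Real.exp_pos (x / 2)
    by_contra hc
    rw [not_le] at hc
    nlinarith [mul_le_mul_of_nonneg_left b1 b3.le]
  have a4 : Real.exp (N * (x / 2)) ≤ (1 + x) ^ N := by
    rw [Real.exp_nat_mul]; exact pow_le_pow_left₀ (Real.exp_pos _).le a3 N
  have a5 : (M : ℝ) / (5 * w) ≤ N + 1 := by
    rw [div_le_iff₀ (by positivity)]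
    have := Nat.lt_div_mul_add (a := M) (show 0 < 5 * w by omega)
    rw [← hN] at this
    have : M ≤ (N + 1) * (5 * w) := by rw [Nat.succ_mul]; omega
    exact_mod_cast this
  have a6 : (w : ℝ) ^ (2 - κ) = w * (w * (1 / (w : ℝ)) ^ κ) := by
    rw [Real.rpow_sub w0, Real.rpow_two, Real.div_rpow (by norm_num) w0.le, Real.one_rpow]
    ring
  have a7 : 1 / 57600 * M / (w : ℝ) ^ (2 - κ) ≤ N * (x / 2) + 1 := by
    have b0 : 0 < (1 / (w : ℝ)) ^ κ := by positivity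
    have b1 : 1 / (5760 * (w * (1 / (w : ℝ)) ^ κ)) ≤ x :=
      one_div_le_one_div_of_le (by positivity) (by linarith [hκ w hw])
    have b2 : 1 / 57600 * M / (w : ℝ) ^ (2 - κ) =
        M / (5 * w) * (1 / (5760 * (w * (1 / (w : ℝ)) ^ κ)) / 2) := by
      rw [a6]; field_simp; ring
    rw [b2]
    have := mul_le_mul a5 (show 1 / (5760 * (w * (1 / (w : ℝ)) ^ κ)) / 2 ≤ x / 2 by linarith)
      (by positivity) (by positivity)
    linarith
  have a8 : mu (Top g w (2 * M)) * Real.exp (N * (x / 2)) ≤ 1 :=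
    (mul_le_mul a2 a4 (Real.exp_pos _).le (mu_nonneg _)).trans a1
  have a9 : Real.exp (1 / 57600 * M / (w : ℝ) ^ (2 - κ)) ≤ Real.exp (N * (x / 2)) * 3 := by
    refine (Real.exp_le_exp.2 a7).trans ?_
    rw [Real.exp_add]
    exact mul_le_mul_of_nonneg_left (Real.exp_one_lt_three.le) (Real.exp_pos _).le
  rw [Real.exp_neg, ← div_eq_mul_inv, le_div_iff₀ (Real.exp_pos _)]
  nlinarith [mul_le_mul_of_nonneg_left a9 (mu_nonneg (Top g w (2 * M)))]

theorem tube_main : ∃ κ : ℝ, 0 < κ ∧ ∃ c : ℝ, 0 < c ∧ ∀ r : ℕ, ∃ C : ℕ, ∀ M : ℕ, C ≤ M →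
    ∀ Ω : Set V, Ω.Finite →
    (∀ v : V, v.i + v.j + v.k = 1 ∨ v.i + v.j + v.k = 2 → 0 ≤ v.k → v.k < 2 * M →
      r * |v.j - v.i| ≤ M → v ∈ Ω) →
    0 < mass (saws Ω ⟨1, 1, 0⟩ ⟨1 - M, 1 - M, 2 * M - 1⟩) ∧
    ∀ (g : ℤ → ℤ) (w : ℕ), 1 ≤ w → prob Ω ⟨1, 1, 0⟩ ⟨1 - M, 1 - M, 2 * M - 1⟩
      {γ | ∀ v ∈ γ, 0 ≤ v.k ∧ v.k < 2 * M ∧ |v.j - v.i - g v.k| < w} ≤
      (M : ℝ) ^ C * Real.exp (-(c * M / (w : ℝ) ^ (2 - κ))) := by
  obtain ⟨κ, k0, c, c0, H⟩ := Top_decay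
  refine ⟨κ, k0, c, c0, fun r => ⟨96 * r + 200, fun M hM Ω f1 f2 => ?_⟩⟩
  set n₀ := M / (6 * (r + 1)) with hn
  have n1 : 0 < n₀ := Nat.div_pos (by omega) (by omega)
  have n2 : 6 * (r + 1) * n₀ ≤ M := Nat.mul_div_le M _
  have n3 : M ≤ (12 * r + 11 + 1) * n₀ := by
    have := Nat.lt_div_mul_add (a := M) (show 0 < 6 * (r + 1) by omega)
    rw [← hn] at this
    nlinarith
  have M1 : (107 : ℝ) ≤ M := by exact_mod_cast (by omega : 107 ≤ M)
  have z0' := PP_lower n1 (K := M) (by exact_mod_cast Nat.div_le_self _ _) (12 * r + 11) M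
    (by omega) n3
  set Z := mass (saws Ω ⟨1, 1, 0⟩ ⟨1 - M, 1 - M, 2 * M - 1⟩) with hZ
  have fS := saws_finite f1 q0 ⟨1 - M, 1 - M, 2 * M - 1⟩
  have z1 : mu (PP M (6 * n₀)) ≤ xc * Z := by
    have e := mass_eq (Ω := Ω) subset_rfl fS ⟨1 - M, 1 - M, 2 * M⟩
    refine le_trans (mu_mono (fS.image _) fun l hl => ?_) e.le
    have b5 := (Top_step (PP_top hl)).2.1
    have b6 := hl.2
    obtain ⟨m, z, rfl⟩ := (List.eq_nil_or_concat' l).resolve_left (by
      rintro rfl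
      rw [V.ext_iff] at b6
      dsimp only [lv_nil, q0] at b6
      omega)
    have s1 := (saw_append.1 hl.1.1).1
    have i1 := Inn_concat.1 hl.1.2.1
    simp only [lv_append, lv_cons, lv_nil, pv_append, pv_cons, pv_nil] at b5 b6
    refine ⟨q0 :: m, ⟨(List.isChain_cons_cons.1 s1.1).2, (List.nodup_cons.1 s1.2).2, rfl,
      by rw [getLast?_lv, b5, b6], fun v hv => ?_⟩, by rw [b6]; rfl⟩
    have := mem_Cor0.1 (i1 v hv)
    refine f2 v this.1 this.2.1 this.2.2.1 ?_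
    have a1 : |v.j - v.i| ≤ 6 * n₀ := abs_le.2 (by omega)
    have a2 : (6 * (r + 1) * n₀ : ℤ) ≤ M := by exact_mod_cast n2
    nlinarith [abs_nonneg (v.j - v.i)]
  have z2 : 1 / (M : ℝ) ^ (96 * r + 96) ≤ xc * Z := by
    refine le_trans ?_ (z0'.trans z1)
    rw [show 96 * r + 96 = 4 * (2 * (12 * r + 11 + 1)) by ring, pow_mul, ← one_div_pow, pow_mul]
    refine pow_le_pow_left₀ (by positivity) (pow_le_pow_left₀ (by positivity)
      (one_div_le_one_div_of_le (by positivity) ?_) 2) _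
    nlinarith [pow_pos (show (0 : ℝ) < M by linarith) 3]
  have z3 : (0 : ℝ) < 1 / (M : ℝ) ^ (96 * r + 96) := by positivity
  have Z0 : 0 < Z := by nlinarith [xc_pos]
  refine ⟨Z0, fun g w hw => ?_⟩
  set E := {γ : List V | ∀ v ∈ γ, 0 ≤ v.k ∧ v.k < 2 * M ∧ |v.j - v.i - g v.k| < w} with hE
  have e := mass_eq (S := saws Ω q0 ⟨1 - M, 1 - M, 2 * M - 1⟩ ∩ E) Set.inter_subset_left
    (fS.subset Set.inter_subset_left) ⟨1 - M, 1 - M, 2 * M⟩
  have e2 : mu ((fun γ => γ.tail ++ [(⟨1 - M, 1 - M, 2 * M⟩ : V)]) ''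
      (saws Ω q0 ⟨1 - M, 1 - M, 2 * M - 1⟩ ∩ E)) ≤ mu (Top g w (2 * M)) := mu_mono (Top_fin _ _ _) (by
    rintro _ ⟨γ, hγ, rfl⟩
    obtain ⟨m, rfl, h4⟩ := mem_saws hγ.1
    obtain ⟨⟨h1, h2, -, -, -⟩, h5⟩ := hγ
    have s1 : Saw p0 q0 m := ⟨List.isChain_cons_cons.2 ⟨up0.adj, h1⟩,
      List.nodup_cons.2 ⟨fun a => by have := (h5 _ a).1; simp [p0] at this, h2⟩⟩
    have nz : ∀ u ∈ p0 :: q0 :: m, u ≠ ⟨1 - M, 1 - M, 2 * M⟩ := by
      intro u hu e
      rcases List.mem_cons.1 hu with a | a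
      · rw [a, V.ext_iff] at e; dsimp only [p0] at e; omega
      · have := (h5 _ a).2.1; rw [e] at this; simp at this
    have s2 : Saw p0 q0 (m ++ [⟨1 - M, 1 - M, 2 * M⟩]) := by
      refine saw_append.2 ⟨s1, saw_cons.2 ⟨s1.adj_last, ?_, saw_nil.2 ?_⟩, fun u hu => by
        simpa using nz u hu⟩
      · simp only [List.mem_cons, List.not_mem_nil, or_false, not_or]
        exact ⟨s1.adj_last.ne, nz _ (pv_mem _ _ _)⟩
      · rw [h4, adj_iff]; dsimp only; omega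
    refine ⟨⟨s2, Inn_concat.2 fun u hu => ⟨s1.valid (List.mem_cons_of_mem _ hu), (h5 u hu).1,
      (h5 u hu).2.1, abs_lt.1 (h5 u hu).2.2⟩, fun a => ?_⟩, by simp⟩
    have := a.2.2.1
    simp at this)
  rw [e] at e2
  have e3 := e2.trans (H g w M hw)
  show mass (saws Ω q0 ⟨1 - M, 1 - M, 2 * M - 1⟩ ∩ E) / Z ≤ _
  rw [div_le_iff₀ Z0]
  refine le_of_mul_le_mul_left (e3.trans ?_) xc_pos
  have e4 : 3 ≤ (M : ℝ) ^ (96 * r + 200) * (xc * Z) := by
    refine le_trans ?_ (mul_le_mul_of_nonneg_left z2 (by positivity))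
    rw [show 96 * r + 200 = 96 * r + 96 + 104 by ring, pow_add, mul_one_div,
      mul_div_cancel_left₀ _ (by positivity)]
    exact le_trans (by linarith) (le_self_pow₀ (by linarith) (by norm_num))
  nlinarith [mul_le_mul_of_nonneg_right e4 (Real.exp_pos (-(c * M / (w : ℝ) ^ (2 - κ)))).le]

end Pool.Agent.Lib.MP_4960b8_pr.SAW
end
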